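import Mathlib

set_option autoImplicit false

namespace Pool.Agent.LibMP92436f

open Finset

/-- sign vector of a subset of `range L`, extended by zero -/
noncomputable def sg (L : ℕ) (T : Finset ℕ) : ℕ → ℝ :=
  fun l => if l ∈ T then 1 else if l < L then -1 else 0

/-- average over the cube -/
noncomputable def av (L : ℕ) (G : (ℕ → ℝ) → ℝ) : ℝ :=
  (∑ T ∈ (range L).powerset, G (sg L T)) / 2 ^ L

/-- coordinates below `i` from `y`, the others from `e` -/
def mix (i : ℕ) (y e : ℕ → ℝ) : ℕ → ℝ := fun l => if l < i then y l else e l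

def IsSg (L : ℕ) (e : ℕ → ℝ) : Prop := (∀ l < L, e l = 1 ∨ e l = -1) ∧ ∀ l, L ≤ l → e l = 0

lemma isSg_sg {L : ℕ} {T : Finset ℕ} (hT : T ∈ (range L).powerset) : IsSg L (sg L T) := by
  rw [mem_powerset] at hT
  refine ⟨fun l hl => ?_, fun l hl => ?_⟩
  · unfold sg; split_ifs <;> simp
  · unfold sg
    have : l ∉ T := fun h => by
      have := hT h; rw [mem_range] at this; omega
    simp [this, Nat.not_lt.mpr hl]

lemma av_congr {L : ℕ} {G G' : (ℕ → ℝ) → ℝ} (h : ∀ e, IsSg L e → G e = G' e) : av L G = av L G' := by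
  unfold av
  congr 1
  exact sum_congr rfl fun T hT => h _ (isSg_sg hT)

lemma av_mono {L : ℕ} {G G' : (ℕ → ℝ) → ℝ} (h : ∀ e, IsSg L e → G e ≤ G' e) : av L G ≤ av L G' := by
  unfold av
  gcongr with T hT
  exact h _ (isSg_sg hT)

lemma av_nonneg {L : ℕ} {G : (ℕ → ℝ) → ℝ} (h : ∀ e, IsSg L e → 0 ≤ G e) : 0 ≤ av L G := by
  unfold av
  exact div_nonneg (sum_nonneg fun T hT => h _ (isSg_sg hT)) (by positivity)

lemma av_const (L : ℕ) (c : ℝ) : av L (fun _ => c) = c := by
  unfold av
  rw [sum_const, card_powerset, card_range]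
  simp

lemma av_add (L : ℕ) (G G' : (ℕ → ℝ) → ℝ) : av L (fun e => G e + G' e) = av L G + av L G' := by
  unfold av; rw [sum_add_distrib, add_div]

lemma av_sub (L : ℕ) (G G' : (ℕ → ℝ) → ℝ) : av L (fun e => G e - G' e) = av L G - av L G' := by
  unfold av; rw [sum_sub_distrib, sub_div]

lemma av_mul_left (L : ℕ) (c : ℝ) (G : (ℕ → ℝ) → ℝ) : av L (fun e => c * G e) = c * av L G := by
  unfold av; rw [← mul_sum, mul_div_assoc]

lemma av_mul_right (L : ℕ) (c : ℝ) (G : (ℕ → ℝ) → ℝ) : av L (fun e => G e * c) = av L G * c := by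
  unfold av; rw [← sum_mul, div_mul_eq_mul_div]

lemma av_sum {α : Type*} (L : ℕ) (s : Finset α) (G : α → (ℕ → ℝ) → ℝ) :
    av L (fun e => ∑ i ∈ s, G i e) = ∑ i ∈ s, av L (G i) := by
  unfold av
  rw [sum_comm, sum_div]

lemma av_flip {L i : ℕ} (hi : i < L) (G : (ℕ → ℝ) → ℝ) :
    av L G = av L (fun e => G (Function.update e i (- e i))) := by
  unfold av
  congr 1
  refine sum_nbij' (fun T => if i ∈ T then T.erase i else insert i T)
    (fun T => if i ∈ T then T.erase i else insert i T) ?_ ?_ ?_ ?_ ?_
  · intro T hT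
    rw [mem_powerset] at *
    try dsimp only
    split_ifs
    · exact (erase_subset _ _).trans hT
    · exact insert_subset (mem_range.mpr hi) hT
  · intro T hT
    rw [mem_powerset] at *
    try dsimp only
    split_ifs
    · exact (erase_subset _ _).trans hT
    · exact insert_subset (mem_range.mpr hi) hT
  · intro T _
    by_cases h : i ∈ T
    · simp [h]
    · simp [h]
  · intro T _
    by_cases h : i ∈ T
    · simp [h]
    · simp [h]
  · intro T _
    dsimp only
    congr 1
    funext l
    by_cases hl : l = i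
    · subst hl
      by_cases h : l ∈ T
      · simp [h, sg, hi]
      · simp [h, sg, hi]
    · rw [Function.update_of_ne hl]
      by_cases h : i ∈ T
      · simp [h, sg, hl]
      · simp [h, sg, hl]

lemma av_neg {L : ℕ} (G : (ℕ → ℝ) → ℝ) : av L G = av L (fun e => G (fun l => - e l)) := by
  unfold av
  congr 1
  refine sum_nbij' (fun T => range L \ T) (fun T => range L \ T) ?_ ?_ ?_ ?_ ?_
  · intro T _; rw [mem_powerset]; exact sdiff_subset
  · intro T _; rw [mem_powerset]; exact sdiff_subset
  · intro T hT; rw [mem_powerset] at hT; exact Finset.sdiff_sdiff_eq_self hT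
  · intro T hT; rw [mem_powerset] at hT; exact Finset.sdiff_sdiff_eq_self hT
  · intro T hT
    rw [mem_powerset] at hT
    dsimp only
    congr 1
    funext l
    unfold sg
    by_cases hl : l < L
    · by_cases h : l ∈ T
      · simp [h, hl]
      · simp [h, hl]
    · have : l ∉ T := fun h => hl (mem_range.mp (hT h))
      simp [this, hl]

/-- averages that vanish by oddness -/
lemma av_odd {L : ℕ} (G : (ℕ → ℝ) → ℝ) (h : ∀ e, IsSg L e → G (fun l => - e l) = - G e) :
    av L G = 0 := by
  have h1 := av_neg (L := L) G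
  have h2 : av L (fun e => G (fun l => - e l)) = - av L G := by
    rw [av_congr (G' := fun e => (-1) * G e) (fun e he => by rw [h e he]; ring), av_mul_left]; ring
  linarith

lemma mix_zero (y e : ℕ → ℝ) : mix 0 y e = e := by funext l; simp [mix]

lemma mix_succ_of_eq {i : ℕ} {y e : ℕ → ℝ} (h : e i = y i) : mix i y e = mix (i+1) y e := by
  funext l
  unfold mix
  by_cases h1 : l < i
  · simp [h1, Nat.lt_succ_of_lt h1]
  · by_cases h2 : l = i
    · subst h2; simp [h]
    · have : ¬ l < i + 1 := by omega
      simp [h1, this]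

lemma mix_succ_update {i : ℕ} {y e : ℕ → ℝ} (c : ℝ) :
    mix (i+1) y (Function.update e i c) = mix (i+1) y e := by
  funext l
  unfold mix
  by_cases h1 : l < i + 1
  · simp [h1]
  · have : l ≠ i := by omega
    simp [h1, this]

/-- conditioning on one coordinate -/
lemma av_mix_succ {L i : ℕ} (hi : i < L) {y : ℕ → ℝ} (hy : y i = 1 ∨ y i = -1)
    (G : (ℕ → ℝ) → ℝ) :
    av L (fun e => (1 + y i * e i) * G (mix i y e)) = av L (fun e => G (mix (i+1) y e)) := by
  have h1 := av_flip hi (fun e => (1 + y i * e i) * G (mix i y e))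
  have h2 : av L (fun e => (1 + y i * e i) * G (mix i y e)) =
      av L (fun e => ((1 + y i * e i) * G (mix i y e) +
        (1 + y i * (Function.update e i (- e i)) i) * G (mix i y (Function.update e i (- e i)))) / 2) := by
    have : (fun e : ℕ → ℝ => ((1 + y i * e i) * G (mix i y e) +
        (1 + y i * (Function.update e i (- e i)) i) * G (mix i y (Function.update e i (- e i)))) / 2)
        = fun e => (1/2) * ((1 + y i * e i) * G (mix i y e) +
        (1 + y i * (Function.update e i (- e i)) i) * G (mix i y (Function.update e i (- e i)))) := by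
      funext e; ring
    rw [this, av_mul_left, av_add, ← h1]; ring
  rw [h2]
  apply av_congr
  intro e he
  rw [Function.update_self]
  have hyy : y i * y i = 1 := by rcases hy with h | h <;> rw [h] <;> norm_num
  by_cases hc : e i = y i
  · rw [mix_succ_of_eq hc, hc]
    have : (1 + y i * -y i) = 0 := by linarith
    rw [this, hyy]; ring
  · have hc' : e i = - y i := by
      rcases he.1 i hi with h | h <;> rcases hy with h' | h'
      · exact absurd (h.trans h'.symm) hc
      · rw [h, h', neg_neg]
      · rw [h, h']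
      · exact absurd (h.trans h'.symm) hc
    rw [hc', neg_neg]
    have h3 : mix i y (Function.update e i (y i)) = mix (i+1) y (Function.update e i (y i)) :=
      mix_succ_of_eq (by simp)
    rw [h3, mix_succ_update]
    have : (1 + y i * -y i) = 0 := by linarith
    rw [this, hyy]; ring

/-- averaging against the product indicator of the first `i` coordinates -/
lemma av_prod {L : ℕ} {y : ℕ → ℝ} (hy : ∀ l < L, y l = 1 ∨ y l = -1) (i : ℕ) (hi : i ≤ L)
    (G : (ℕ → ℝ) → ℝ) :
    av L (fun e => (∏ l ∈ range i, (1 + y l * e l)) * G e) = av L (fun e => G (mix i y e)) := by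
  induction i generalizing G with
  | zero => simp [mix_zero]
  | succ i ih =>
    have h1 := ih (by omega) (fun e => (1 + y i * e i) * G e)
    rw [← av_mix_succ (by omega) (hy i (by omega)) G]
    have h2 : (fun e : ℕ → ℝ => (∏ l ∈ range (i+1), (1 + y l * e l)) * G e)
        = fun e => (∏ l ∈ range i, (1 + y l * e l)) * ((1 + y i * e i) * G e) := by
      funext e; rw [prod_range_succ]; ring
    rw [h2, h1]
    congr 1
    funext e
    simp [mix]

end Pool.Agent.LibMP92436f
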