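import Pool.Agent.Lib_MP_92436f_lc.Hybrid

set_option autoImplicit false

namespace Pool.Agent.LibMP92436f

open Finset

noncomputable def G4 (L : ℕ) (w : ℕ → ℝ) : ℝ :=
  av L (fun e => e 0 * e 1 * e 2 * e 3 * Fw L w e)

lemma Gh_nonneg {L a b : ℕ} (ha : a < L) (hb : b < L) (hab : a ≠ b) {w : ℕ → ℝ}
    (hw : ∀ l < L, 0 ≤ w l) : 0 ≤ Gh L w a b := by
  have := pair_nonneg (L := L) (i := a) (t := b) (i' := 0) ha hb hab (Nat.zero_le _) (Nat.zero_le _)
    hw (fun _ => 0) (fun _ => 1) (fun _ _ => zero_le_one) (fun _ _ => rfl) (fun _ _ => rfl)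
  unfold Gh
  simpa [mix_zero] using this

lemma abs_G4_le_left {L : ℕ} (hL : 3 < L) {w : ℕ → ℝ} (hw : ∀ l < L, 0 ≤ w l) :
    |G4 L w| ≤ Gh L w 0 1 := by
  have h1 := pair_nonneg (L := L) (i := 0) (t := 1) (i' := 0) (by omega) (by omega) (by omega)
    (Nat.zero_le _) (Nat.zero_le _) hw (fun _ => 0) (fun e => 1 - e 2 * e 3)
    (fun e he => by
      rcases he.1 2 (by omega) with h | h <;> rcases he.1 3 (by omega) with h' | h' <;>
        simp only [h, h'] <;> norm_num)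
    (fun e c => by simp) (fun e c => by simp)
  have h2 := pair_nonneg (L := L) (i := 0) (t := 1) (i' := 0) (by omega) (by omega) (by omega)
    (Nat.zero_le _) (Nat.zero_le _) hw (fun _ => 0) (fun e => 1 + e 2 * e 3)
    (fun e he => by
      rcases he.1 2 (by omega) with h | h <;> rcases he.1 3 (by omega) with h' | h' <;>
        simp only [h, h'] <;> norm_num)
    (fun e c => by simp) (fun e c => by simp)
  simp only [mix_zero] at h1 h2
  have h3 : av L (fun e => e 0 * e 1 * (1 - e 2 * e 3) * Fw L w e) = Gh L w 0 1 - G4 L w := by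
    unfold Gh G4
    rw [← av_sub]
    congr 1; funext e; ring
  have h4 : av L (fun e => e 0 * e 1 * (1 + e 2 * e 3) * Fw L w e) = Gh L w 0 1 + G4 L w := by
    unfold Gh G4
    rw [← av_add]
    congr 1; funext e; ring
  rw [h3] at h1
  rw [h4] at h2
  rw [abs_le]
  constructor <;> linarith

lemma abs_G4_le_right {L : ℕ} (hL : 3 < L) {w : ℕ → ℝ} (hw : ∀ l < L, 0 ≤ w l) :
    |G4 L w| ≤ Gh L w 2 3 := by
  have h1 := pair_nonneg (L := L) (i := 2) (t := 3) (i' := 0) (by omega) (by omega) (by omega)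
    (Nat.zero_le _) (Nat.zero_le _) hw (fun _ => 0) (fun e => 1 - e 0 * e 1)
    (fun e he => by
      rcases he.1 0 (by omega) with h | h <;> rcases he.1 1 (by omega) with h' | h' <;>
        simp only [h, h'] <;> norm_num)
    (fun e c => by simp) (fun e c => by simp)
  have h2 := pair_nonneg (L := L) (i := 2) (t := 3) (i' := 0) (by omega) (by omega) (by omega)
    (Nat.zero_le _) (Nat.zero_le _) hw (fun _ => 0) (fun e => 1 + e 0 * e 1)
    (fun e he => by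
      rcases he.1 0 (by omega) with h | h <;> rcases he.1 1 (by omega) with h' | h' <;>
        simp only [h, h'] <;> norm_num)
    (fun e c => by simp) (fun e c => by simp)
  simp only [mix_zero] at h1 h2
  have h3 : av L (fun e => e 2 * e 3 * (1 - e 0 * e 1) * Fw L w e) = Gh L w 2 3 - G4 L w := by
    unfold Gh G4
    rw [← av_sub]
    congr 1; funext e; ring
  have h4 : av L (fun e => e 2 * e 3 * (1 + e 0 * e 1) * Fw L w e) = Gh L w 2 3 + G4 L w := by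
    unfold Gh G4
    rw [← av_add]
    congr 1; funext e; ring
  rw [h3] at h1
  rw [h4] at h2
  rw [abs_le]
  constructor <;> linarith

lemma Hw_zero (L : ℕ) (w : ℕ → ℝ) (t : ℕ) (y : ℕ → ℝ) : Hw L w 0 t y = Gh L w 0 t := by
  unfold Hw Gh
  simp [mix_zero]

lemma Hw_one {L : ℕ} (hL : 1 ≤ L) (w : ℕ → ℝ) {t : ℕ} (ht : 1 ≤ t) {y : ℕ → ℝ}
    (hy : ∀ l < L, y l = 1 ∨ y l = -1) : Hw L w 1 t y = Gh L w 1 t := by
  have h1 := av_prod hy 1 hL (fun e => e 1 * e t * Fw L w e)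
  have h2 : (fun e : ℕ → ℝ => (fun e => e 1 * e t * Fw L w e) (mix 1 y e)) =
      fun e => e 1 * e t * Fw L w (mix 1 y e) := by
    funext e
    have : ¬ (t < 1) := by omega
    simp [mix, this]
  rw [h2] at h1
  unfold Hw
  rw [← h1]
  have h3 : (fun e : ℕ → ℝ => (∏ l ∈ range 1, (1 + y l * e l)) * (e 1 * e t * Fw L w e)) =
      fun e => e 1 * e t * Fw L w e + y 0 * (e 0 * (e 1 * e t * Fw L w e)) := by
    funext e; simp; ring
  rw [h3, av_add, av_mul_left]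
  have h4 : av L (fun e => e 0 * (e 1 * e t * Fw L w e)) = 0 := by
    apply av_odd
    intro e _
    rw [Fw_neg]; ring
  rw [h4, mul_zero, add_zero]
  rfl

lemma Hw_two {L : ℕ} (hL : 2 ≤ L) (w : ℕ → ℝ) {y : ℕ → ℝ}
    (hy : ∀ l < L, y l = 1 ∨ y l = -1) :
    Hw L w 2 3 y = Gh L w 2 3 + y 0 * y 1 * G4 L w := by
  have h1 := av_prod hy 2 hL (fun e => e 2 * e 3 * Fw L w e)
  have h2 : (fun e : ℕ → ℝ => (fun e => e 2 * e 3 * Fw L w e) (mix 2 y e)) =
      fun e => e 2 * e 3 * Fw L w (mix 2 y e) := by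
    funext e
    simp [mix]
  rw [h2] at h1
  unfold Hw
  rw [← h1]
  have h3 : (fun e : ℕ → ℝ => (∏ l ∈ range 2, (1 + y l * e l)) * (e 2 * e 3 * Fw L w e)) =
      fun e => (e 2 * e 3 * Fw L w e + (y 0 * y 1) * (e 0 * e 1 * e 2 * e 3 * Fw L w e)) +
        (y 0 * (e 0 * (e 2 * e 3 * Fw L w e)) + y 1 * (e 1 * (e 2 * e 3 * Fw L w e))) := by
    funext e; simp [prod_range_succ]; ring
  rw [h3, av_add, av_add, av_add, av_mul_left, av_mul_left, av_mul_left]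
  have h4 : av L (fun e => e 0 * (e 2 * e 3 * Fw L w e)) = 0 := by
    apply av_odd
    intro e _
    rw [Fw_neg]; ring
  have h5 : av L (fun e => e 1 * (e 2 * e 3 * Fw L w e)) = 0 := by
    apply av_odd
    intro e _
    rw [Fw_neg]; ring
  rw [h4, h5, mul_zero, mul_zero, add_zero, add_zero]
  rfl

section prob

variable {Ω : Type} [Fintype Ω]

lemma Tm_zero (L : ℕ) (w : ℕ → ℝ) (y : ℕ → Ω → ℝ) (t : ℕ) :
    Tm L w y 0 t = Gh L w 0 t * ex (fun j => y 0 j * y t j) := by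
  unfold Tm
  rw [← ex_mul_left]
  congr 1; funext j
  rw [Hw_zero]; ring

lemma Tm_one {L : ℕ} (hL : 1 ≤ L) (w : ℕ → ℝ) {t : ℕ} (ht : 1 ≤ t) {y : ℕ → Ω → ℝ}
    (hy : ∀ l < L, ∀ j, y l j = 1 ∨ y l j = -1) :
    Tm L w y 1 t = Gh L w 1 t * ex (fun j => y 1 j * y t j) := by
  unfold Tm
  rw [← ex_mul_left]
  congr 1; funext j
  rw [Hw_one hL w ht (fun l hl => hy l hl j)]; ring

lemma Tm_two {L : ℕ} (hL : 2 ≤ L) (w : ℕ → ℝ) {y : ℕ → Ω → ℝ}
    (hy : ∀ l < L, ∀ j, y l j = 1 ∨ y l j = -1) :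
    Tm L w y 2 3 = Gh L w 2 3 * ex (fun j => y 2 j * y 3 j) +
      G4 L w * ex (fun j => y 0 j * y 1 j * y 2 j * y 3 j) := by
  unfold Tm
  rw [← ex_mul_left, ← ex_mul_left, ← ex_add]
  congr 1; funext j
  rw [Hw_two hL w (fun l hl => hy l hl j)]; ring

lemma FL0 {L : ℕ} {w : ℕ → ℝ} (hw : ∀ l < L, 0 ≤ w l)
    (hw1 : ∑ l ∈ range L, w l = 1) {y : ℕ → Ω → ℝ} [Nonempty Ω]
    (hy : ∀ l < L, ∀ j, y l j = 1 ∨ y l j = -1)
    {E1 : ℝ} (hE : 0 ≤ E1) (hC : ∀ t < L, ∀ i < t, Cond L i t y E1) :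
    av L (Fw L w) - (L:ℝ)^2 * E1 ≤ ex (fun j => Fw L w (fun l => y l j)) := by
  have := FL_general (n := 0) (Nat.zero_le L) hw hw1 hy hE (fun t ht _ i hi => hC t ht i hi)
  simpa using this

lemma FL1 {L : ℕ} (hL : 3 ≤ L) {w : ℕ → ℝ} (hw : ∀ l < L, 0 ≤ w l)
    (hw1 : ∑ l ∈ range L, w l = 1) {y : ℕ → Ω → ℝ} [Nonempty Ω]
    (hy : ∀ l < L, ∀ j, y l j = 1 ∨ y l j = -1)
    {E1 : ℝ} (hE : 0 ≤ E1) (hC : ∀ t < L, 3 ≤ t → ∀ i < t, Cond L i t y E1)
    {q : ℝ} (h01 : q ≤ ex (fun j => y 0 j * y 1 j)) (h02 : q ≤ ex (fun j => y 0 j * y 2 j))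
    (h12 : q ≤ ex (fun j => y 1 j * y 2 j)) :
    av L (Fw L w) + q * (Gh L w 0 1 + Gh L w 0 2 + Gh L w 1 2) - (L:ℝ)^2 * E1 ≤
      ex (fun j => Fw L w (fun l => y l j)) := by
  have h := FL_general (n := 3) hL hw hw1 hy hE hC
  simp only [sum_range_succ, sum_range_zero, zero_add] at h
  rw [Tm_zero, Tm_zero, Tm_one (by omega) w (by omega) hy] at h
  have g01 := Gh_nonneg (L := L) (a := 0) (b := 1) (by omega) (by omega) (by omega) hw
  have g02 := Gh_nonneg (L := L) (a := 0) (b := 2) (by omega) (by omega) (by omega) hw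
  have g12 := Gh_nonneg (L := L) (a := 1) (b := 2) (by omega) (by omega) (by omega) hw
  have k1 := mul_le_mul_of_nonneg_left h01 g01
  have k2 := mul_le_mul_of_nonneg_left h02 g02
  have k3 := mul_le_mul_of_nonneg_left h12 g12
  linarith

lemma FL2 {L : ℕ} (hL : 4 ≤ L) {w : ℕ → ℝ} (hw : ∀ l < L, 0 ≤ w l)
    (hw1 : ∑ l ∈ range L, w l = 1) {y : ℕ → Ω → ℝ} [Nonempty Ω]
    (hy : ∀ l < L, ∀ j, y l j = 1 ∨ y l j = -1)
    {E1 : ℝ} (hE : 0 ≤ E1)
    (hC : ∀ t < L, ∀ i < t, ¬ (i = 0 ∧ t = 1) → ¬ (i = 2 ∧ t = 3) → Cond L i t y E1)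
    {q : ℝ} (hq : 0 ≤ q) (hu : q ≤ ex (fun j => y 0 j * y 1 j)) (hu' : q ≤ ex (fun j => y 2 j * y 3 j))
    (hm : |ex (fun j => y 0 j * y 1 j * y 2 j * y 3 j)| ≤
      ex (fun j => y 0 j * y 1 j) + ex (fun j => y 2 j * y 3 j) - q) :
    av L (Fw L w) + q * Gh L w 0 1 - (L:ℝ)^2 * E1 ≤ ex (fun j => Fw L w (fun l => y l j)) ∧
    av L (Fw L w) + q * Gh L w 2 3 - (L:ℝ)^2 * E1 ≤ ex (fun j => Fw L w (fun l => y l j)) := by
  have h := FL_general (n := 4) hL hw hw1 hy hE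
    (fun t ht ht' i hi => hC t ht i hi (by omega) (by omega))
  simp only [sum_range_succ, sum_range_zero, zero_add] at h
  have t02 := Tm_lower (L := L) (i := 0) (t := 2) (by omega) (by omega) hw hw1 hy hE
    (hC 2 (by omega) 0 (by omega) (by omega) (by omega))
  have t12 := Tm_lower (L := L) (i := 1) (t := 2) (by omega) (by omega) hw hw1 hy hE
    (hC 2 (by omega) 1 (by omega) (by omega) (by omega))
  have t03 := Tm_lower (L := L) (i := 0) (t := 3) (by omega) (by omega) hw hw1 hy hE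
    (hC 3 (by omega) 0 (by omega) (by omega) (by omega))
  have t13 := Tm_lower (L := L) (i := 1) (t := 3) (by omega) (by omega) hw hw1 hy hE
    (hC 3 (by omega) 1 (by omega) (by omega) (by omega))
  have e1 := Tm_zero L w y 1
  have e2 := Tm_two (L := L) (by omega) w hy
  have g1 := abs_G4_le_left (L := L) (by omega) hw
  have g2 := abs_G4_le_right (L := L) (by omega) hw
  set u := ex (fun j => y 0 j * y 1 j)
  set u' := ex (fun j => y 2 j * y 3 j)
  set m := ex (fun j => y 0 j * y 1 j * y 2 j * y 3 j)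
  have hG4 : -(|G4 L w| * |m|) ≤ G4 L w * m := by
    rw [← abs_mul]; exact neg_abs_le _
  have hG0 := abs_nonneg (G4 L w)
  have hprod : |G4 L w| * |m| ≤ |G4 L w| * (u + u' - q) := mul_le_mul_of_nonneg_left hm hG0
  have key1 : q * Gh L w 0 1 ≤ Tm L w y 0 1 + Tm L w y 2 3 := by
    rw [e1, e2]
    nlinarith [mul_nonneg (sub_nonneg.mpr g1) (sub_nonneg.mpr hu),
      mul_nonneg (sub_nonneg.mpr g2) (sub_nonneg.mpr hu'), mul_nonneg (sub_nonneg.mpr g2) hq]
  have key2 : q * Gh L w 2 3 ≤ Tm L w y 0 1 + Tm L w y 2 3 := by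
    rw [e1, e2]
    nlinarith [mul_nonneg (sub_nonneg.mpr g1) (sub_nonneg.mpr hu),
      mul_nonneg (sub_nonneg.mpr g2) (sub_nonneg.mpr hu'), mul_nonneg (sub_nonneg.mpr g1) hq]
  constructor <;> linarith

end prob

end Pool.Agent.LibMP92436f
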