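import Pool.Agent.Lib_MP_92436f_lc.Gram
import Pool.Agent.Lib_MP_92436f_lc.FL

set_option autoImplicit false

namespace Pool.Agent.LibMP92436f

open Finset

set_option linter.unusedSectionVars false

variable {Ω : Type} [Fintype Ω] {ι : Type}

/-- product of the chosen points with index in `S` -/
noncomputable def xs (x : ι → Ω → ℝ) (a : ℕ → ι) (S : Finset ℕ) (j : Ω) : ℝ := ∏ l ∈ S, x (a l) j

noncomputable def Vs (x : ι → Ω → ℝ) (Y : Finset ι) (h : Ω → ℝ) : ℝ :=
  ∑ p ∈ Y, (ex (fun j => h j * x p j)) ^ 2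

/-- the invariant of the extension procedure -/
def Inv (x : ι → Ω → ℝ) (Y : Finset ι) (D : ℝ) (Ex : Finset (Finset ℕ)) (t : ℕ) (K : ℝ) (a : ℕ → ι) : Prop :=
  (∀ S ⊆ range t, Odd S.card → Vs x Y (xs x a S) ≤ K ^ 2 * D ^ 2 * Y.card) ∧
  (∀ S ⊆ range t, Even S.card → S ≠ ∅ → S ∉ Ex → |ex (xs x a S)| ≤ K * D)

lemma xs_sign {x : ι → Ω → ℝ} (hx : Signs x) (a : ℕ → ι) (S : Finset ℕ) (j : Ω) :
    xs x a S j = 1 ∨ xs x a S j = -1 := by
  classical
  unfold xs
  induction S using Finset.induction_on with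
  | empty => simp
  | insert l S hl ih => rw [prod_insert hl]; exact sign_mul (hx _ _) ih

lemma xs_congr (x : ι → Ω → ℝ) {a a' : ℕ → ι} {S : Finset ℕ} (h : ∀ l ∈ S, a l = a' l) :
    xs x a S = xs x a' S := by
  funext j
  unfold xs
  exact prod_congr rfl fun l hl => by rw [h l hl]

lemma xs_insert [DecidableEq ι] (x : ι → Ω → ℝ) (a : ℕ → ι) {S : Finset ℕ} {l : ℕ} (h : l ∉ S) :
    xs x a (insert l S) = fun j => xs x a S j * x (a l) j := by
  funext j
  unfold xs
  rw [prod_insert h, mul_comm]

lemma sum_Vs_le {x : ι → Ω → ℝ} {Y : Finset ι} {D : ℝ}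
    (hD : ∑ a ∈ Y, ∑ b ∈ Y, phi x a b ^ 2 ≤ D ^ 2 * (Y.card:ℝ) ^ 2) {h : Ω → ℝ}
    (hh : ∀ j, |h j| ≤ 1) :
    ∑ q ∈ Y, Vs x Y (fun j => h j * x q j) ≤ D ^ 2 * (Y.card:ℝ) ^ 2 := by
  refine le_trans (le_of_eq ?_) ((dom x hh 2 Y).trans hD)
  apply sum_congr rfl
  intro q _
  unfold Vs
  apply sum_congr rfl
  intro p _
  unfold ker
  congr 2
  funext j
  ring

lemma Vs_nonneg (x : ι → Ω → ℝ) (Y : Finset ι) (h : Ω → ℝ) : 0 ≤ Vs x Y h :=
  sum_nonneg fun _ _ => sq_nonneg _

lemma EL_step [DecidableEq ι] {x : ι → Ω → ℝ} (hx : Signs x) {Y : Finset ι} (hY : Y.Nonempty)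
    {D : ℝ} (hD0 : 0 ≤ D)
    (hD : ∑ a ∈ Y, ∑ b ∈ Y, phi x a b ^ 2 ≤ D ^ 2 * (Y.card:ℝ) ^ 2) {Ex : Finset (Finset ℕ)}
    {t : ℕ} {K : ℝ} (hK : 0 ≤ K) {a : ℕ → ι} (h : Inv x Y D Ex t K a) :
    ∃ q ∈ Y, Inv x Y D Ex (t+1) (2 ^ t * (K + 1)) (Function.update a t q) := by
  set f : Finset ℕ → ι → ℝ := fun S q =>
    if Odd S.card then (ex (fun j => xs x a S j * x q j)) ^ 2 * Y.card
    else Vs x Y (fun j => xs x a S j * x q j) with hf
  have hYc : (0:ℝ) < Y.card := by exact_mod_cast hY.card_pos
  have hf0 : ∀ S q, 0 ≤ f S q := by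
    intro S q
    simp only [hf]
    split_ifs
    · positivity
    · exact Vs_nonneg _ _ _
  have hfS : ∀ S ∈ (range t).powerset, ∑ q ∈ Y, f S q ≤ (K^2 + 1) * D ^ 2 * (Y.card:ℝ) ^ 2 := by
    intro S hS
    rw [mem_powerset] at hS
    by_cases ho : Odd S.card
    · have h1 : ∑ q ∈ Y, f S q = Vs x Y (xs x a S) * Y.card := by
        simp only [hf, ho, if_true]
        rw [← sum_mul]
        rfl
      rw [h1]
      have h2 := h.1 S hS ho
      have : 0 ≤ D^2 * (Y.card:ℝ)^2 := by positivity
      nlinarith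
    · have h1 : ∑ q ∈ Y, f S q = ∑ q ∈ Y, Vs x Y (fun j => xs x a S j * x q j) := by
        simp only [hf, ho, if_false]
      rw [h1]
      have h2 := sum_Vs_le hD (h := xs x a S) (fun j => sign_abs (xs_sign hx a S j))
      have : 0 ≤ K^2 * D^2 * (Y.card:ℝ)^2 := by positivity
      linarith
  have htot : ∑ q ∈ Y, ∑ S ∈ (range t).powerset, f S q ≤
      ∑ q ∈ Y, (2^t * ((K^2 + 1) * D ^ 2 * (Y.card:ℝ))) := by
    rw [sum_comm]
    calc ∑ S ∈ (range t).powerset, ∑ q ∈ Y, f S q ≤
        ∑ S ∈ (range t).powerset, (K^2 + 1) * D ^ 2 * (Y.card:ℝ) ^ 2 := sum_le_sum hfS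
      _ = ∑ q ∈ Y, (2^t * ((K^2 + 1) * D ^ 2 * (Y.card:ℝ))) := by
        rw [sum_const, sum_const, card_powerset, card_range, nsmul_eq_mul, nsmul_eq_mul]
        push_cast
        ring
  obtain ⟨q, hq, hqle⟩ := exists_le_of_sum_le hY htot
  refine ⟨q, hq, ?_, ?_⟩
  all_goals
    have hbd : ∀ S ∈ (range t).powerset, f S q ≤ (2 ^ t * (K+1))^2 * D^2 * Y.card := by
      intro S hS
      have h1 : f S q ≤ ∑ S ∈ (range t).powerset, f S q :=
        single_le_sum (f := fun S => f S q) (fun S _ => hf0 S q) hS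
      have h2 : (2:ℝ)^t ≤ (2^t)^2 := by
        have : (1:ℝ) ≤ 2^t := one_le_pow₀ (by norm_num)
        nlinarith
      have h3 : K^2 + 1 ≤ (K+1)^2 := by nlinarith
      have h4 : (2:ℝ)^t * ((K^2 + 1) * D ^ 2 * (Y.card:ℝ)) ≤ (2 ^ t * (K+1))^2 * D^2 * Y.card := by
        have e1 : (2:ℝ)^t * ((K^2 + 1) * D ^ 2 * (Y.card:ℝ)) = (2^t * (K^2+1)) * (D^2 * Y.card) := by ring
        have e2 : (2 ^ t * (K+1))^2 * D^2 * Y.card = ((2^t)^2 * (K+1)^2) * (D^2 * Y.card) := by ring
        rw [e1, e2]
        apply mul_le_mul_of_nonneg_right _ (by positivity)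
        exact mul_le_mul h2 h3 (by positivity) (by positivity)
      linarith
    have hK1 : K ≤ 2^t * (K+1) := by
      have : (1:ℝ) ≤ 2^t := one_le_pow₀ (by norm_num)
      nlinarith
    have hK2 : 0 ≤ 2^t * (K+1) := by positivity
  · intro S hS ho
    by_cases ht : t ∈ S
    · have hS' : S.erase t ⊆ range t := by
        intro l hl
        have h1 := hS (mem_of_mem_erase hl)
        have h2 := ne_of_mem_erase hl
        rw [mem_range] at *
        omega
      have hne : ¬ Odd (S.erase t).card := by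
        rw [card_erase_of_mem ht]
        rcases ho with ⟨m, hm⟩
        rw [hm]
        simp
      have h1 := hbd (S.erase t) (mem_powerset.mpr hS')
      simp only [hf, hne, if_false] at h1
      have h2 : xs x (Function.update a t q) S = fun j => xs x a (S.erase t) j * x q j := by
        conv_lhs => rw [← insert_erase ht]
        rw [xs_insert x _ (notMem_erase t S), Function.update_self]
        rw [xs_congr x (a := Function.update a t q) (a' := a)]
        intro l hl
        rw [Function.update_of_ne (ne_of_mem_erase hl)]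
      rw [h2]
      exact h1
    · have hS' : S ⊆ range t := by
        intro l hl
        have h1 := hS hl
        have h2 : l ≠ t := fun h => ht (h ▸ hl)
        rw [mem_range] at *
        omega
      rw [xs_congr x (a := Function.update a t q) (a' := a) (fun l hl =>
        Function.update_of_ne (show l ≠ t from fun h => ht (h ▸ hl)) _ _)]
      refine (h.1 S hS' ho).trans ?_
      gcongr
  · intro S hS ho hne hEx
    by_cases ht : t ∈ S
    · have hS' : S.erase t ⊆ range t := by
        intro l hl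
        have h1 := hS (mem_of_mem_erase hl)
        have h2 := ne_of_mem_erase hl
        rw [mem_range] at *
        omega
      have hod : Odd (S.erase t).card := by
        rw [card_erase_of_mem ht]
        have hpos : 0 < S.card := card_pos.mpr ⟨t, ht⟩
        rcases ho with ⟨m, hm⟩
        exact ⟨m - 1, by omega⟩
      have h1 := hbd (S.erase t) (mem_powerset.mpr hS')
      simp only [hf, hod, if_true] at h1
      have h2 : xs x (Function.update a t q) S = fun j => xs x a (S.erase t) j * x q j := by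
        conv_lhs => rw [← insert_erase ht]
        rw [xs_insert x _ (notMem_erase t S), Function.update_self]
        rw [xs_congr x (a := Function.update a t q) (a' := a)]
        intro l hl
        rw [Function.update_of_ne (ne_of_mem_erase hl)]
      rw [h2]
      have h3 : (ex (fun j => xs x a (S.erase t) j * x q j)) ^ 2 ≤ (2^t * (K+1) * D)^2 := by
        have := le_of_mul_le_mul_right h1 hYc
        calc _ ≤ _ := this
          _ = _ := by ring
      exact abs_le_of_sq_le_sq h3 (by positivity)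
    · have hS' : S ⊆ range t := by
        intro l hl
        have h1 := hS hl
        have h2 : l ≠ t := fun h => ht (h ▸ hl)
        rw [mem_range] at *
        omega
      rw [xs_congr x (a := Function.update a t q) (a' := a) (fun l hl =>
        Function.update_of_ne (show l ≠ t from fun h => ht (h ▸ hl)) _ _)]
      refine (h.2 S hS' ho hne hEx).trans ?_
      gcongr

noncomputable def KK (t0 : ℕ) (K : ℝ) : ℕ → ℝ
  | 0 => K
  | (m+1) => 2 ^ (t0 + m) * (KK t0 K m + 1)

lemma KK_nonneg (t0 : ℕ) {K : ℝ} (hK : 0 ≤ K) (m : ℕ) : 0 ≤ KK t0 K m := by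
  induction m with
  | zero => exact hK
  | succ m ih => unfold KK; positivity

lemma EL_iter [DecidableEq ι] {x : ι → Ω → ℝ} (hx : Signs x) {Y : Finset ι} (hY : Y.Nonempty)
    {D : ℝ} (hD0 : 0 ≤ D)
    (hD : ∑ a ∈ Y, ∑ b ∈ Y, phi x a b ^ 2 ≤ D ^ 2 * (Y.card:ℝ) ^ 2) {Ex : Finset (Finset ℕ)}
    {t0 : ℕ} {K : ℝ} (hK : 0 ≤ K) {a : ℕ → ι} (h : Inv x Y D Ex t0 K a) (m : ℕ) :
    ∃ a' : ℕ → ι, Inv x Y D Ex (t0+m) (KK t0 K m) a' ∧ (∀ l < t0, a' l = a l) ∧
      ∀ l, t0 ≤ l → l < t0 + m → a' l ∈ Y := by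
  induction m with
  | zero => exact ⟨a, h, fun _ _ => rfl, fun l h1 h2 => by omega⟩
  | succ m ih =>
    obtain ⟨a', h1, h2, h3⟩ := ih
    obtain ⟨q, hq, h4⟩ := EL_step hx hY hD0 hD (KK_nonneg t0 hK m) h1
    refine ⟨Function.update a' (t0+m) q, h4, fun l hl => ?_, fun l hl hl' => ?_⟩
    · rw [Function.update_of_ne (by omega), h2 l hl]
    · by_cases hl'' : l = t0 + m
      · rw [hl'', Function.update_self]; exact hq
      · rw [Function.update_of_ne hl'']
        exact h3 l hl (by omega)

lemma Qs_eq (i : ℕ) (e z : ℕ → ℝ) : Qs i e z =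
    ∑ S ∈ (range i).powerset, if Even S.card then (∏ l ∈ S, z l) * ∏ l ∈ S, e l else 0 := by
  unfold Qs
  have h1 : ∏ l ∈ range i, (1 + z l * e l) = ∑ S ∈ (range i).powerset, (∏ l ∈ S, z l) * ∏ l ∈ S, e l := by
    rw [prod_one_add]
    exact sum_congr rfl fun S _ => by rw [prod_mul_distrib]
  have h2 : ∏ l ∈ range i, (1 - z l * e l) =
      ∑ S ∈ (range i).powerset, (-1) ^ S.card * ((∏ l ∈ S, z l) * ∏ l ∈ S, e l) := by
    have : ∏ l ∈ range i, (1 - z l * e l) = ∏ l ∈ range i, (1 + (-1) * (z l * e l)) :=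
      prod_congr rfl fun l _ => by ring
    rw [this, prod_one_add]
    exact sum_congr rfl fun S _ => by rw [prod_mul_distrib, prod_const, prod_mul_distrib]
  rw [h1, h2, ← sum_add_distrib, sum_div]
  apply sum_congr rfl
  intro S _
  by_cases hS : Even S.card
  · rw [if_pos hS, hS.neg_one_pow]; ring
  · rw [if_neg hS, (Nat.not_even_iff_odd.mp hS).neg_one_pow]; ring

lemma cond_of_inv {x : ι → Ω → ℝ} {Y : Finset ι} {D : ℝ}
    (hD0 : 0 ≤ D) {Ex : Finset (Finset ℕ)} {L : ℕ} {K : ℝ} (hK : 0 ≤ K) {a : ℕ → ι}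
    (h : Inv x Y D Ex L K a) {i t : ℕ} (hit : i < t) (ht : t < L)
    (hEx : ∀ S ⊆ range i, Even S.card → insert t (insert i S) ∉ Ex) :
    Cond L i t (fun l => x (a l)) (2^L * (K * D)) := by
  intro e he
  have h1 : (fun j => Qs i e (fun l => x (a l) j) * (x (a i) j * x (a t) j)) =
      fun j => ∑ S ∈ (range i).powerset, (if Even S.card then
        (∏ l ∈ S, e l) * xs x a (insert t (insert i S)) j else 0) := by
    funext j
    rw [Qs_eq, sum_mul]
    apply sum_congr rfl
    intro S hS
    rw [mem_powerset] at hS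
    have hiS : i ∉ S := fun h => by have := hS h; simp at this
    have htS : t ∉ insert i S := by
      rw [mem_insert]
      rintro (h | h)
      · omega
      · have := hS h
        rw [mem_range] at this
        omega
    split_ifs
    · unfold xs
      rw [prod_insert htS, prod_insert hiS]
      ring
    · ring
  rw [h1, ex_sum]
  have h2 : ∀ S ∈ (range i).powerset, -(K * D) ≤ ex (fun j => if Even S.card then
        (∏ l ∈ S, e l) * xs x a (insert t (insert i S)) j else 0) := by
    intro S hS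
    rw [mem_powerset] at hS
    by_cases hev : Even S.card
    · simp only [hev, if_true]
      rw [ex_mul_left]
      have hiS : i ∉ S := fun h => by have := hS h; simp at this
      have htS : t ∉ insert i S := by
        rw [mem_insert]
        rintro (h | h)
        · omega
        · have := hS h
          rw [mem_range] at this
          omega
      have h3 := h.2 (insert t (insert i S)) (by
        intro l hl
        rw [mem_insert, mem_insert] at hl
        rw [mem_range]
        rcases hl with rfl | rfl | hl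
        · exact ht
        · omega
        · have := hS hl
          rw [mem_range] at this
          omega) (by
        rw [card_insert_of_notMem htS, card_insert_of_notMem hiS]
        obtain ⟨m, hm⟩ := hev
        exact ⟨m+1, by omega⟩) (insert_ne_empty _ _) (hEx S hS hev)
      have h4 : |∏ l ∈ S, e l| ≤ 1 := by
        rw [abs_prod]
        apply prod_le_one (fun _ _ => abs_nonneg _)
        intro l hl
        have := hS hl
        rw [mem_range] at this
        exact sign_abs (he.1 l (by omega))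
      have h5 : |(∏ l ∈ S, e l) * ex (fun j => xs x a (insert t (insert i S)) j)| ≤ K * D := by
        rw [abs_mul]
        have := abs_nonneg (ex (fun j => xs x a (insert t (insert i S)) j))
        calc |∏ l ∈ S, e l| * |ex (fun j => xs x a (insert t (insert i S)) j)| ≤
            1 * |ex (fun j => xs x a (insert t (insert i S)) j)| := by gcongr
          _ ≤ K * D := by rw [one_mul]; exact h3
      exact (abs_le.mp h5).1
    · simp only [hev, if_false]
      have : ex (fun _ : Ω => (0:ℝ)) = 0 := by unfold ex; simp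
      rw [this]
      have : 0 ≤ K * D := by positivity
      linarith
  have h3 := sum_le_sum h2
  rw [sum_const, card_powerset, card_range, nsmul_eq_mul] at h3
  refine le_trans ?_ h3
  push_cast
  have h4 : (2:ℝ)^i ≤ 2^L := pow_le_pow_right₀ (by norm_num) (by omega)
  have h5 : 0 ≤ K * D := by positivity
  nlinarith

lemma distinct_of_inv [Nonempty Ω] {x : ι → Ω → ℝ} (hx : Signs x) {Y : Finset ι} {D : ℝ}
    {Ex : Finset (Finset ℕ)} {L : ℕ} {K : ℝ} {a : ℕ → ι}
    (h : Inv x Y D Ex L K a) (hKD : K * D < 1) {i t : ℕ} (hit : i < t) (ht : t < L)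
    (hEx : ({i, t} : Finset ℕ) ∉ Ex) : a i ≠ a t := by
  intro hc
  have hne : i ∉ ({t} : Finset ℕ) := by simp; omega
  have h1 := h.2 {i, t} (by
    intro l hl
    rw [mem_insert, mem_singleton] at hl
    rw [mem_range]
    rcases hl with rfl | rfl <;> omega) (by
    rw [card_pair (by omega)]; exact ⟨1, rfl⟩) (insert_ne_empty _ _) hEx
  have h2 : ex (xs x a {i, t}) = 1 := by
    have : xs x a {i, t} = fun j => x (a i) j * x (a t) j := by
      funext j
      unfold xs
      rw [prod_pair (by omega)]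
    rw [this, hc]
    exact phi_self hx (a t)
  rw [h2] at h1
  simp at h1
  linarith

end Pool.Agent.LibMP92436f
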