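import Pool.Agent.Lib_MP_92436f_lc.Simplex

set_option autoImplicit false

namespace Pool.Agent.LibMP92436f

open Finset

variable {Ω : Type} [Fintype Ω]

lemma minimax {L : ℕ} (y : ℕ → Ω → ℝ) (v : ℝ)
    (h : ∀ w, Simp L w → v ≤ ex (fun j => Fw L w (fun l => y l j))) :
    ∃ s : Ω → ℝ, (∀ j, |s j| ≤ 1) ∧ ∀ l < L, v ≤ ex (fun j => s j * y l j) := by
  classical
  set I : Set (Ω → ℝ) := Set.pi Set.univ (fun _ : Ω => Set.Icc (-1:ℝ) 1) with hI
  let Φ : (Ω → ℝ) →ₗ[ℝ] (Fin L → ℝ) :=
    { toFun := fun s l => ex (fun j => s j * y l j)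
      map_add' := by
        intro s s'
        funext l
        show ex (fun j => (s j + s' j) * y l j) = ex (fun j => s j * y l j) + ex (fun j => s' j * y l j)
        rw [← ex_add]
        congr 1; funext j; ring
      map_smul' := by
        intro c s
        funext l
        show ex (fun j => (c * s j) * y l j) = c * ex (fun j => s j * y l j)
        rw [← ex_mul_left]
        congr 1; funext j; ring }
  set K : Set (Fin L → ℝ) := Φ '' I with hK
  set Q : Set (Fin L → ℝ) := {z | ∀ l, v ≤ z l} with hQ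
  by_cases hdis : Disjoint K Q
  · exfalso
    have hIc : IsCompact I := isCompact_univ_pi fun _ => isCompact_Icc
    have hIconv : Convex ℝ I := convex_pi fun _ _ => convex_Icc _ _
    have hKc : IsCompact K := hIc.image Φ.continuous_of_finiteDimensional
    have hKconv : Convex ℝ K := hIconv.linear_image Φ
    have hQe : Q = Set.pi Set.univ (fun _ : Fin L => Set.Ici v) := by
      ext z; simp [hQ, Pi.le_def]
    have hQc : IsClosed Q := by
      rw [hQe]; exact isClosed_set_pi fun _ _ => isClosed_Ici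
    have hQconv : Convex ℝ Q := by
      rw [hQe]; exact convex_pi fun _ _ => convex_Ici _
    obtain ⟨f, u, v', hf1, huv, hf2⟩ := geometric_hahn_banach_compact_closed hKconv hKc hQconv hQc hdis
    set lam : Fin L → ℝ := fun i => f (Pi.single i 1) with hlam
    have hfeq : ∀ z : Fin L → ℝ, f z = ∑ i, z i * lam i := by
      intro z
      have h1 := LinearMap.pi_apply_eq_sum_univ (f : (Fin L → ℝ) →ₗ[ℝ] ℝ) z
      have h2 : (f : (Fin L → ℝ) →ₗ[ℝ] ℝ) z = f z := rfl
      rw [h2] at h1
      rw [h1]
      apply sum_congr rfl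
      intro i _
      rw [smul_eq_mul, hlam]
      congr 1
      show f _ = f _
      congr 1
      funext j
      simp [Pi.single_apply, eq_comm]
    have hlam0 : ∀ i, 0 ≤ lam i := by
      intro i
      by_contra hneg
      rw [not_le] at hneg
      set s : ℝ := (v' - f (fun _ => v)) / lam i with hs
      have hcst : v' < f (fun _ => v) := hf2 _ (fun l => le_rfl)
      have hs0 : 0 ≤ s := div_nonneg_of_nonpos (by linarith) hneg.le
      have h3 := hf2 ((fun _ => v) + s • Pi.single i (1:ℝ)) (by
        intro l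
        simp only [Pi.add_apply, Pi.smul_apply, Pi.single_apply, smul_eq_mul]
        split_ifs
        · linarith
        · linarith)
      rw [map_add, map_smul, smul_eq_mul] at h3
      have h4 : s * f (Pi.single i 1) = v' - f (fun _ => v) := by
        rw [hs]; exact div_mul_cancel₀ _ hneg.ne
      rw [h4] at h3
      linarith
    set Lam : ℝ := ∑ i, lam i with hLam
    have hLam0 : 0 ≤ Lam := sum_nonneg fun i _ => hlam0 i
    have hcst : v' < f (fun _ => v) := hf2 _ (fun l => le_rfl)
    have hcst2 : f (fun _ => v) = v * Lam := by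
      rw [hfeq, ← mul_sum]
    have hLampos : 0 < Lam := by
      rcases hLam0.lt_or_eq with h1 | h1
      · exact h1
      · exfalso
        have h2 : ∀ i, lam i = 0 := fun i =>
          (sum_eq_zero_iff_of_nonneg (fun i _ => hlam0 i)).mp h1.symm i (mem_univ i)
        have h3 : ∀ z, f z = 0 := fun z => by rw [hfeq]; simp [h2]
        have h4 := hf1 (Φ 0) ⟨0, fun j _ => ⟨by simp, by simp⟩, rfl⟩
        rw [h3] at h4 hcst
        linarith
    set w : ℕ → ℝ := fun l => if h : l < L then lam ⟨l, h⟩ / Lam else 0 with hw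
    have hwF : ∀ i : Fin L, w i = lam i / Lam := by
      intro i; simp [hw]
    have hS : Simp L w := by
      refine ⟨fun l => ?_, fun l hl => ?_, ?_⟩
      · simp only [hw]
        split_ifs with h1
        · exact div_nonneg (hlam0 _) hLam0
        · exact le_rfl
      · simp only [hw]
        rw [dif_neg (not_lt.mpr hl)]
      · rw [Finset.sum_range]
        simp_rw [hwF]
        rw [← sum_div, div_self hLampos.ne']
    have h5 := h w hS
    set s : Ω → ℝ := fun j => if 0 ≤ ∑ l ∈ range L, w l * y l j then 1 else -1 with hs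
    have hsI : s ∈ I := by
      intro j _
      simp only [hs]
      split_ifs <;> norm_num
    have h6 : ex (fun j => Fw L w (fun l => y l j)) = ∑ l ∈ range L, w l * ex (fun j => s j * y l j) := by
      simp_rw [← ex_mul_left]
      rw [← ex_sum]
      congr 1
      funext j
      unfold Fw
      have : ∑ l ∈ range L, w l * (s j * y l j) = s j * ∑ l ∈ range L, w l * y l j := by
        rw [mul_sum]; exact sum_congr rfl fun l _ => by ring
      rw [this]
      simp only [hs]
      split_ifs with h7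
      · rw [abs_of_nonneg h7]; ring
      · rw [abs_of_neg (not_le.mp h7)]; ring
    have h8 : f (Φ s) = Lam * ∑ l ∈ range L, w l * ex (fun j => s j * y l j) := by
      rw [hfeq, Finset.sum_range, mul_sum]
      apply sum_congr rfl
      intro i _
      rw [hwF]
      show ex (fun j => s j * y i j) * lam i = _
      field_simp
    have h9 := hf1 (Φ s) ⟨s, hsI, rfl⟩
    rw [h8, ← h6] at h9
    rw [hcst2] at hcst
    nlinarith
  · rw [Set.not_disjoint_iff] at hdis
    obtain ⟨z, ⟨s, hs, rfl⟩, hz⟩ := hdis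
    refine ⟨s, fun j => ?_, fun l hl => hz ⟨l, hl⟩⟩
    have := hs j (Set.mem_univ j)
    rw [abs_le]
    exact ⟨this.1, this.2⟩

lemma rounding {L : ℕ} {y : ℕ → Ω → ℝ} (hy : ∀ l < L, ∀ j, y l j = 1 ∨ y l j = -1)
    (s : Ω → ℝ) (hs : ∀ j, |s j| ≤ 1) :
    ∃ z : Ω → ℝ, (∀ j, z j = 1 ∨ z j = -1) ∧
      ∀ l < L, ∑ j, s j * y l j - 2 ^ (L+1) ≤ ∑ j, z j * y l j := by
  classical
  set P : Ω → Finset ℕ := fun j => (range L).filter (fun l => y l j = 1) with hP
  set C : Finset ℕ → Finset Ω := fun T => univ.filter (fun j => P j = T) with hC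
  have hyP : ∀ l < L, ∀ j, y l j = sg L (P j) l := by
    intro l hl j
    unfold sg
    by_cases h1 : y l j = 1
    · have : l ∈ P j := by simp [hP, hl, h1]
      rw [if_pos this, h1]
    · have : l ∉ P j := by simp [hP, h1]
      rw [if_neg this, if_pos hl]
      exact (hy l hl j).resolve_left h1
  have hbound : ∀ T, 0 ≤ ((C T).card + ∑ j ∈ C T, s j) / 2 ∧
      ((C T).card + ∑ j ∈ C T, s j) / 2 ≤ (C T).card := by
    intro T
    have h1 : |∑ j ∈ C T, s j| ≤ (C T).card := by
      calc |∑ j ∈ C T, s j| ≤ ∑ j ∈ C T, |s j| := abs_sum_le_sum_abs _ _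
        _ ≤ ∑ j ∈ C T, (1:ℝ) := sum_le_sum fun j _ => hs j
        _ = (C T).card := by simp
    rw [abs_le] at h1
    constructor <;> linarith
  have hex : ∀ T, ∃ A ⊆ C T, A.card = ⌊((C T).card + ∑ j ∈ C T, s j) / 2⌋₊ := by
    intro T
    apply exists_subset_card_eq
    apply Nat.floor_le_of_le
    exact (hbound T).2
  choose A hA1 hA2 using hex
  set z : Ω → ℝ := fun j => if j ∈ A (P j) then 1 else -1 with hz
  have hzsum : ∀ T, ∑ j ∈ C T, z j = 2 * (A T).card - (C T).card := by
    intro T
    have h1 : ∀ j ∈ C T, z j = 2 * (if j ∈ A T then 1 else 0) - 1 := by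
      intro j hj
      have hPj : P j = T := by simpa [hC] using hj
      simp only [hz, hPj]
      split_ifs <;> norm_num
    rw [sum_congr rfl h1, sum_sub_distrib, ← mul_sum, sum_ite_mem, inter_eq_right.mpr (hA1 T)]
    simp
  have hdiff : ∀ T, |∑ j ∈ C T, z j - ∑ j ∈ C T, s j| ≤ 2 := by
    intro T
    rw [hzsum, hA2]
    have h1 := Nat.floor_le (hbound T).1
    have h2 := Nat.lt_floor_add_one (((C T).card + ∑ j ∈ C T, s j) / 2)
    rw [abs_le]
    constructor <;> linarith
  refine ⟨z, fun j => ?_, fun l hl => ?_⟩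
  · simp only [hz]
    split_ifs <;> simp
  · have hfib : ∀ g : Ω → ℝ, ∑ j, g j * y l j =
        ∑ T ∈ (range L).powerset, sg L T l * ∑ j ∈ C T, g j := by
      intro g
      rw [← sum_fiberwise_of_maps_to (s := univ) (t := (range L).powerset) (g := P)
        (fun j _ => by rw [mem_powerset]; exact filter_subset _ _)]
      apply sum_congr rfl
      intro T _
      rw [mul_sum]
      apply sum_congr rfl
      intro j hj
      have hPj : P j = T := by simpa using hj
      rw [hyP l hl j, hPj]; ring
    rw [hfib s, hfib z, ← sub_nonneg]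
    have : ∑ T ∈ (range L).powerset, sg L T l * ∑ j ∈ C T, z j -
        (∑ T ∈ (range L).powerset, sg L T l * ∑ j ∈ C T, s j - 2 ^ (L+1)) =
        ∑ T ∈ (range L).powerset, (sg L T l * (∑ j ∈ C T, z j - ∑ j ∈ C T, s j) + 2) := by
      rw [sum_add_distrib, sum_const, card_powerset, card_range, nsmul_eq_mul]
      simp_rw [mul_sub]
      rw [sum_sub_distrib]
      push_cast
      ring
    rw [this]
    apply sum_nonneg
    intro T hT
    have h1 := hdiff T
    rw [abs_le] at h1
    rcases (isSg_sg hT).1 l hl with h2 | h2 <;> rw [h2] <;> linarith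

lemma conclude {L : ℕ} {y : ℕ → Ω → ℝ} [Nonempty Ω] (hy : ∀ l < L, ∀ j, y l j = 1 ∨ y l j = -1) (v : ℝ)
    (h : ∀ w, Simp L w → v ≤ ex (fun j => Fw L w (fun l => y l j))) :
    ∃ z : Ω → ℝ, (∀ j, z j = 1 ∨ z j = -1) ∧
      ∀ l < L, v * Fintype.card Ω - 2 ^ (L+1) ≤ ∑ j, z j * y l j := by
  obtain ⟨s, hs, h1⟩ := minimax y v h
  obtain ⟨z, hz, h2⟩ := rounding hy s hs
  refine ⟨z, hz, fun l hl => ?_⟩
  have h3 := h1 l hl
  have h4 := h2 l hl
  unfold ex at h3
  rw [le_div_iff₀ (by exact_mod_cast Fintype.card_pos)] at h3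
  linarith

end Pool.Agent.LibMP92436f
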