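import Pool.Agent.Lib_MP_92436f_lc.NoGrowth

set_option autoImplicit false
set_option linter.unusedSectionVars false

namespace Pool.Agent.LibMP92436f

open Finset

lemma Qs_one_of_le {t : ℕ} (ht : t ≤ 1) (e z : ℕ → ℝ) : Qs t e z = 1 := by
  unfold Qs
  interval_cases t
  · simp
  · simp

lemma cond3 {Ω : Type} [Fintype Ω] {y : ℕ → Ω → ℝ} {E : ℝ} {i t : ℕ} (hi : i ≤ 1)
    (h : -E ≤ ex (fun j => y i j * y t j)) : Cond 3 i t y E := by
  intro e _
  have : (fun j => Qs i e (fun l => y l j) * (y i j * y t j)) = fun j => y i j * y t j := by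
    funext j
    rw [Qs_one_of_le hi, one_mul]
  rw [this]
  exact h

theorem select1 : ∃ (C : ℝ) (K n0 : ℕ), 0 < C ∧
    ∀ (Ω ι : Type) [Fintype Ω] [Nonempty Ω] (x : ι → Ω → ℝ), Signs x →
      n0 ≤ Fintype.card Ω → ∀ ε : ℝ, 0 < ε → ε < 1 → ∀ X : Finset ι,
      C * (1/ε)^K ≤ X.card →
      Tuple 1 x X (ck 1 - 2 * ε + 2 ^ (2*1+2) / Fintype.card Ω) := by
  classical
  obtain ⟨c, hc, hcomp⟩ := comp1 (k := 1) le_rfl
  obtain ⟨n0, hn0⟩ := exists_nat_ge ((64/c)^2)
  refine ⟨16 * (4 * 16^2)^4 + 1, 8, n0, by positivity, ?_⟩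
  intro Ω ι _ _ x hx hn ε hε0 hε1 X hX
  set n : ℝ := (Fintype.card Ω : ℝ) with hn'
  have hn1 : 1 ≤ n := by rw [hn']; exact_mod_cast Fintype.card_pos
  have hnpos : 0 < n := by linarith
  have hXpos : (0:ℝ) < X.card := lt_of_lt_of_le (by positivity) hX
  have hXn : X.Nonempty := card_pos.mp (by exact_mod_cast hXpos)
  set s : ℝ := (ε/16)^2 with hs
  have hs0 : 0 < s := by positivity
  have hs1 : s ≤ 1 := by
    rw [hs]
    have : ε/16 ≤ 1 := by linarith
    have h0 : 0 ≤ ε/16 := by positivity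
    nlinarith
  have hXs : 16 * 4^4 ≤ s^4 * (X.card:ℝ) := by
    have h1 : (4 * 16^2)^4 * (1/ε)^8 * s^4 = 4^4 := by
      rw [hs]; field_simp
    have h2 : 16 * (4 * 16^2)^4 * (1/ε)^8 ≤ (X.card:ℝ) := by
      have : (0:ℝ) ≤ 1 * (1/ε)^8 := by positivity
      linarith
    calc (16:ℝ) * 4^4 = 16 * ((4 * 16^2)^4 * (1/ε)^8 * s^4) := by rw [h1]
      _ = (16 * (4 * 16^2)^4 * (1/ε)^8) * s^4 := by ring
      _ ≤ X.card * s^4 := by gcongr
      _ = _ := by ring
  -- the density in both cases is at least s/4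
  set p : ℝ := s/4 with hp
  have hp0 : 0 < p := by positivity
  have hp1 : p ≤ 1 := by linarith
  have hcard : 2/p ≤ (p/2)^3 * (X.card:ℝ) := by
    rw [div_le_iff₀ hp0]
    have : (p/2)^3 * (X.card:ℝ) * p = s^4 * X.card / (8 * 4^4) := by rw [hp]; ring
    rw [this, le_div_iff₀ (by norm_num)]
    linarith
  by_cases hcase : 16 / n ≤ ε
  · -- slack case
    set θ := ε/9 with hθ
    have hθ0 : 0 < θ := by positivity
    set Rl : (ℕ → ι) → ℕ → ι → Prop := fun y t b => -θ ≤ phi x (y t) b with hRl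
    obtain ⟨y, hyX, hyR⟩ := greedy 3 hp0 hp1 X hXn Rl
      (by
        intro y y' t b hyy' h
        simp only [hRl] at h ⊢
        rw [← hyy' t le_rfl]; exact h)
      (by
        intro t _ y Z _ _
        have h1 := (phi_gram x).sum_nonneg Z
        have h2 : ∑ a ∈ Z, ∑ b ∈ Z, phi x a b ≤ ∑ a ∈ Z, ∑ b ∈ Z,
            ((1 + θ) * (if Rl (Function.update y t a) t b then (1:ℝ) else 0) - θ) := by
          apply sum_le_sum; intro a _
          apply sum_le_sum; intro b _
          have h3 := (abs_le.mp (abs_phi_le hx a b)).2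
          by_cases hg : Rl (Function.update y t a) t b
          · rw [if_pos hg]; linarith
          · rw [if_neg hg]
            simp only [hRl, Function.update_self, not_le] at hg
            linarith
        have h3 : ∑ a ∈ Z, ∑ b ∈ Z,
            ((1 + θ) * (if Rl (Function.update y t a) t b then (1:ℝ) else 0) - θ) =
            (1 + θ) * (∑ a ∈ Z, ∑ b ∈ Z, if Rl (Function.update y t a) t b then (1:ℝ) else 0)
              - θ * (Z.card:ℝ)^2 := by
          simp_rw [sum_sub_distrib, ← mul_sum]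
          congr 1
          simp only [sum_const, nsmul_eq_mul]; ring
        rw [h3] at h2
        set G := ∑ a ∈ Z, ∑ b ∈ Z, if Rl (Function.update y t a) t b then (1:ℝ) else 0 with hG
        have hG0 : 0 ≤ G := sum_nonneg fun _ _ => sum_nonneg fun _ _ => by split_ifs <;> norm_num
        have h4 : θ * (Z.card:ℝ)^2 ≤ 2 * G := by
          have : θ * G ≤ 1 * G := mul_le_mul_of_nonneg_right (by linarith) hG0
          linarith
        have h5 : 2 * p ≤ θ := by
          rw [hp, hs, hθ]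
          have : ε^2 ≤ ε := by nlinarith
          nlinarith
        have h6 : 2 * p * (Z.card:ℝ)^2 ≤ θ * (Z.card:ℝ)^2 := by gcongr
        linarith) hcard
    refine ⟨y, fun l hl => hyX l (by omega), fun i j hij hj => (hyR i j hij (by omega)).2, ?_⟩
    intro w hw
    have hw' : Simp 3 w := hw
    have hf := FL0 (L := 3) (y := fun l => x (y l)) (E1 := θ) (fun l _ => hw'.1 l) hw'.2.2
      (fun l _ j => hx _ _) hθ0.le
      (fun t ht i hi => cond3 (by omega) (hyR i t hi (by omega)).1)
    have h3 : ck 1 ≤ av 3 (Fw 3 w) := ck_le_av (k := 1) hw.2.2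
    change ck 1 - 2 * ε + 2 ^ (2*1+2) / n ≤ ex (fun j => Fw 3 w (fun l => x (y l) j))
    have h4 : (2:ℝ)^(2*1+2) / n = 16 / n := by norm_num
    rw [h4]
    have h5 : ((3:ℕ):ℝ)^2 * θ = ε := by rw [hθ]; push_cast; ring
    rw [h5] at hf
    linarith
  · -- no slack
    rw [not_le] at hcase
    set τ := 1 / Real.sqrt n with hτ
    have hsq : 0 < Real.sqrt n := Real.sqrt_pos.mpr hnpos
    have hτ0 : 0 < τ := by positivity
    have hτ2 : τ^2 = 1/n := by rw [hτ, div_pow, one_pow, Real.sq_sqrt hnpos.le]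
    have hτ1 : τ ≤ 1 := by
      have : τ^2 ≤ 1^2 := by rw [hτ2, one_pow, div_le_one hnpos]; exact hn1
      exact le_of_sq_le_sq this zero_le_one
    have hτε : ε / 16 ≤ τ^2 := by
      rw [hτ2]
      have : ε < 16 * (1/n) := by rw [mul_one_div]; exact hcase
      linarith
    have hτ3 : s ≤ τ^3 := by
      have h1 : (ε/16)^2 ≤ (τ^2)^2 := pow_le_pow_left₀ (by positivity) hτε 2
      calc s ≤ (τ^2)^2 := h1
        _ = τ^4 := by ring
        _ ≤ τ^3 := pow_le_pow_of_le_one hτ0.le hτ1 (by norm_num)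
    set Rl : (ℕ → ι) → ℕ → ι → Prop := fun y t b => τ/4 ≤ phi x (y t) b with hRl
    obtain ⟨y, hyX, hyR⟩ := greedy 3 hp0 hp1 X hXn Rl
      (by
        intro y y' t b hyy' h
        simp only [hRl] at h ⊢
        rw [← hyy' t le_rfl]; exact h)
      (by
        intro t _ y Z _ _
        have h1 := (phi_gram x).sum_nonneg Z
        have h3 := ((phi_gram x).pow 3).sum_nonneg Z
        have h2 := sum_phi_sq_ge hx Z
        set Q := ∑ a ∈ Z, ∑ b ∈ Z, phi x a b ^ 2 with hQ
        set G := ∑ a ∈ Z, ∑ b ∈ Z, if Rl (Function.update y t a) t b then (1:ℝ) else 0 with hG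
        have hG0 : 0 ≤ G := sum_nonneg fun _ _ => sum_nonneg fun _ _ => by split_ifs <;> norm_num
        have h4 : ∑ a ∈ Z, ∑ b ∈ Z, (phi x a b ^ 3 + 2 * τ * phi x a b ^ 2 + τ^2 * phi x a b) ≤
            ∑ a ∈ Z, ∑ b ∈ Z,
              (4 * (if Rl (Function.update y t a) t b then (1:ℝ) else 0) + τ^3/2) := by
          apply sum_le_sum; intro a _
          apply sum_le_sum; intro b _
          have h5 := (abs_le.mp (abs_phi_le hx a b)).2
          have e1 : phi x a b ^ 3 + 2 * τ * phi x a b ^ 2 + τ^2 * phi x a b =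
            phi x a b * (phi x a b + τ)^2 := by ring
          rw [e1]
          by_cases hg : Rl (Function.update y t a) t b
          · rw [if_pos hg]
            simp only [hRl, Function.update_self] at hg
            have h6 : 0 ≤ phi x a b := by linarith
            have h7 : (phi x a b + τ)^2 ≤ 4 := by nlinarith
            have h8 : phi x a b * (phi x a b + τ)^2 ≤ 1 * 4 :=
              mul_le_mul h5 h7 (sq_nonneg _) zero_le_one
            have : 0 < τ^3 := by positivity
            linarith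
          · rw [if_neg hg]
            simp only [hRl, Function.update_self, not_le] at hg
            rcases le_total (phi x a b) 0 with h6 | h6
            · have h7 : phi x a b * (phi x a b + τ)^2 ≤ 0 :=
                mul_nonpos_of_nonpos_of_nonneg h6 (sq_nonneg _)
              have : 0 < τ^3 := by positivity
              linarith
            · have h7 : (phi x a b + τ)^2 ≤ (5/4*τ)^2 := pow_le_pow_left₀ (by linarith) (by linarith) 2
              have h8 : phi x a b * (phi x a b + τ)^2 ≤ (τ/4) * (5/4*τ)^2 :=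
                mul_le_mul hg.le h7 (sq_nonneg _) (by positivity)
              have h9 : (τ/4) * (5/4*τ)^2 = 25/64 * τ^3 := by ring
              have : 0 < τ^3 := by positivity
              linarith
        simp_rw [sum_add_distrib, ← mul_sum] at h4
        have h5 : ∑ _a ∈ Z, ∑ _b ∈ Z, τ^3/2 = τ^3/2 * (Z.card:ℝ)^2 := by
          simp only [sum_const, nsmul_eq_mul]; ring
        rw [h5] at h4
        have h6 : τ^2 * (Z.card:ℝ)^2 ≤ Q := by
          rw [hτ2, one_div, inv_mul_le_iff₀ hnpos]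
          exact h2
        have h7 : 2 * τ * (τ^2 * (Z.card:ℝ)^2) ≤ 2 * τ * Q := by gcongr
        have h8 : 0 ≤ τ^2 * ∑ a ∈ Z, ∑ b ∈ Z, phi x a b := mul_nonneg (by positivity) h1
        have h9 : τ^3 * (Z.card:ℝ)^2 ≤ 4 * G := by
          have e1 : 2 * τ * (τ^2 * (Z.card:ℝ)^2) = 2 * (τ^3 * (Z.card:ℝ)^2) := by ring
          have e2 : 0 ≤ τ^3 * (Z.card:ℝ)^2 := by positivity
          linarith
        have h10 : s * (Z.card:ℝ)^2 ≤ τ^3 * (Z.card:ℝ)^2 := by gcongr
        have h11 : p * (Z.card:ℝ)^2 = s * (Z.card:ℝ)^2 / 4 := by rw [hp]; ring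
        linarith) hcard
    refine ⟨y, fun l hl => hyX l (by omega), fun i j hij hj => (hyR i j hij (by omega)).2, ?_⟩
    intro w hw
    have hw' : Simp 3 w := hw
    have hf := FL1 (L := 3) (y := fun l => x (y l)) (E1 := 0) (q := τ/4) le_rfl
      (fun l _ => hw'.1 l) hw'.2.2
      (fun l _ j => hx _ _) le_rfl
      (fun t ht ht' i hi => by omega)
      (hyR 0 1 (by omega) (by omega)).1 (hyR 0 2 (by omega) (by omega)).1
      (hyR 1 2 (by omega) (by omega)).1
    have h3 : ck 1 ≤ av 3 (Fw 3 w) := ck_le_av (k := 1) hw.2.2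
    change ck 1 - 2 * ε + 2 ^ (2*1+2) / n ≤ ex (fun j => Fw 3 w (fun l => x (y l) j))
    have h4 : (2:ℝ)^(2*1+2) / n = 16 * τ^2 := by rw [hτ2]; ring
    rw [h4]
    have hw0 : ∀ l < 3, 0 ≤ w l := fun l _ => hw'.1 l
    have g01 := Gh_nonneg (L := 3) (a := 0) (b := 1) (by omega) (by omega) (by omega) hw0
    have g02 := Gh_nonneg (L := 3) (a := 0) (b := 2) (by omega) (by omega) (by omega) hw0
    have g12 := Gh_nonneg (L := 3) (a := 1) (b := 2) (by omega) (by omega) (by omega) hw0
    have hτc : 16 * τ^2 ≤ τ/4 * c := by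
      have h5 : (64/c)^2 ≤ n := hn0.trans (by rw [hn']; exact_mod_cast hn)
      have h6 : 64/c ≤ Real.sqrt n := Real.le_sqrt_of_sq_le h5
      have h7 : τ ≤ c/64 := by
        rw [hτ, div_le_div_iff₀ hsq (by norm_num)]
        rw [div_le_iff₀ hc] at h6
        linarith
      have h8 : τ * τ ≤ τ * (c/64) := by gcongr
      linarith
    have hmain : ck 1 + τ/4 * c ≤ ex (fun j => Fw 3 w (fun l => x (y l) j)) := by
      rcases hcomp w hw with h5 | h5
      · have h6 : 0 ≤ τ/4 * (Gh 3 w 0 1 + Gh 3 w 0 2 + Gh 3 w 1 2) :=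
          mul_nonneg (by positivity) (by linarith)
        have h7 : τ/4 * c ≤ 1 * c := mul_le_mul_of_nonneg_right (by linarith) hc.le
        have h8 : ck 1 + c ≤ av 3 (Fw 3 w) := h5
        linarith
      · have h6 : τ/4 * c ≤ τ/4 * (Gh 3 w 0 1 + Gh 3 w 0 2 + Gh 3 w 1 2) :=
          mul_le_mul_of_nonneg_left h5 (by positivity)
        linarith
    linarith

end Pool.Agent.LibMP92436f
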