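import Pool.Agent.Lib_MP_92436f_lc.Select
import Pool.Agent.Lib_MP_92436f_lc.Select1
import Pool.Agent.Lib_MP_92436f_lc.Minimax

set_option autoImplicit false

namespace Pool.Agent.LibMP92436f

open Finset

theorem select_all (k : ℕ) (hk : 1 ≤ k) : ∃ (C : ℝ) (K n0 : ℕ), 0 < C ∧
    ∀ (Ω ι : Type) [Fintype Ω] [Nonempty Ω] (x : ι → Ω → ℝ), Signs x →
      n0 ≤ Fintype.card Ω → ∀ ε : ℝ, 0 < ε → ε < 1 → ∀ X : Finset ι,
      C * (1/ε)^K ≤ X.card →
      Tuple k x X (ck k - 2 * ε + 2 ^ (2*k+2) / Fintype.card Ω) := by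
  rcases Nat.eq_or_lt_of_le hk with h | h
  · rw [← h]; exact select1
  · exact select k h

/-- the sign vector of a binary word -/
def bs (b : Bool) : ℝ := if b then 1 else -1

lemma bs_sign (b : Bool) : bs b = 1 ∨ bs b = -1 := by
  cases b <;> simp [bs]

lemma sum_bs (n : ℕ) (z c : Fin n → Bool) :
    ∑ j, bs (z j) * bs (c j) = n - 2 * (hammingDist z c : ℝ) := by
  have h1 : ∀ j, bs (z j) * bs (c j) = 1 - 2 * (if z j ≠ c j then 1 else 0) := by
    intro j
    cases hz : z j <;> cases hc : c j <;> simp [bs] <;> norm_num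
  simp_rw [h1]
  rw [sum_sub_distrib, ← mul_sum, sum_boole]
  simp only [sum_const, card_univ, Fintype.card_fin, nsmul_eq_mul, mul_one]
  rfl

theorem ball_of_large (k : ℕ) (hk : 1 ≤ k) : ∃ (C : ℝ) (K : ℕ), 0 ≤ C ∧
    ∀ ε : ℝ, 0 < ε → ε < 1 → ∀ n : ℕ, ∀ code : Finset (Fin n → Bool),
      C * (1/ε)^K < code.card →
      ∃ z : Fin n → Bool, 2 * k + 1 ≤ (code.filter (fun c => (hammingDist z c : ℝ) ≤
        ((1:ℝ)/2 - (Nat.choose (2*k) k : ℝ) / (2:ℝ)^(2*k+1) + ε) * (n:ℝ))).card := by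
  obtain ⟨C, K, n0, hC, hsel⟩ := select_all k hk
  refine ⟨C + 2^(n0+1), K, by positivity, ?_⟩
  intro ε hε0 hε1 n code hcode
  have h1e : 1 ≤ (1/ε)^K := one_le_pow₀ (by rw [le_div_iff₀ hε0]; linarith)
  have hcardle : (code.card : ℝ) ≤ 2^n := by
    have h1 : code.card ≤ Fintype.card (Fin n → Bool) := card_le_univ code
    rw [Fintype.card_fun, Fintype.card_bool, Fintype.card_fin] at h1
    exact_mod_cast h1
  have hn : n0 + 1 < n := by
    by_contra hcon
    rw [not_lt] at hcon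
    have h2 : (2:ℝ)^n ≤ 2^(n0+1) := pow_le_pow_right₀ (by norm_num) hcon
    have h3 : (C + 2^(n0+1)) * 1 ≤ (C + 2^(n0+1)) * (1/ε)^K := by gcongr
    linarith
  have hne : Nonempty (Fin n) := ⟨⟨0, by omega⟩⟩
  set x : (Fin n → Bool) → Fin n → ℝ := fun c j => bs (c j) with hx
  have hxs : Signs x := fun c j => bs_sign _
  have hX : C * (1/ε)^K ≤ code.card := by
    have : 0 ≤ 2^(n0+1) * (1/ε)^K := by positivity
    linarith
  obtain ⟨a, haX, hane, haw⟩ := hsel (Fin n) (Fin n → Bool) x hxs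
    (by rw [Fintype.card_fin]; omega) ε hε0 hε1 code hX
  obtain ⟨z, hz, hzl⟩ := conclude (L := 2*k+1) (y := fun l => x (a l)) (fun l _ j => hxs _ _) _ haw
  set z' : Fin n → Bool := fun j => decide (z j = 1) with hz'
  have hzz : ∀ j, z j = bs (z' j) := by
    intro j
    rcases hz j with h | h
    · simp [hz', bs, h]
    · have : ¬ ((-1:ℝ) = 1) := by norm_num
      simp [hz', bs, h, this]
  refine ⟨z', ?_⟩
  have hnpos : (0:ℝ) < n := by exact_mod_cast (by omega : 0 < n)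
  have hmem : ∀ l < 2*k+1, a l ∈ code.filter (fun c => (hammingDist z' c : ℝ) ≤
        ((1:ℝ)/2 - (Nat.choose (2*k) k : ℝ) / (2:ℝ)^(2*k+1) + ε) * (n:ℝ)) := by
    intro l hl
    rw [mem_filter]
    refine ⟨haX l hl, ?_⟩
    have h1 := hzl l hl
    have h2 : ∑ j, z j * x (a l) j = n - 2 * (hammingDist z' (a l) : ℝ) := by
      rw [← sum_bs]
      exact sum_congr rfl fun j _ => by rw [hzz j]
    rw [h2, Fintype.card_fin] at h1
    have h3 : (ck k - 2 * ε + 2 ^ (2*k+2) / (n:ℝ)) * n - 2^(2*k+1+1) = (ck k - 2 * ε) * n := by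
      have : (2:ℝ) ^ (2*k+2) / (n:ℝ) * n = 2^(2*k+2) := by field_simp
      rw [add_mul, this]; ring
    rw [h3] at h1
    have h4 : (Nat.choose (2*k) k : ℝ) / (2:ℝ)^(2*k+1) = ck k / 2 := by
      unfold ck
      rw [pow_succ]; field_simp
    rw [h4]
    linarith
  have hinj : Set.InjOn a (range (2*k+1) : Set ℕ) := by
    intro i hi j hj hij
    rw [mem_coe, mem_range] at hi hj
    by_contra hne'
    rcases lt_or_gt_of_ne hne' with h | h
    · exact hane i j h hj hij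
    · exact hane j i h hi hij.symm
  have h5 : ((range (2*k+1)).image a).card = 2*k+1 := by
    rw [card_image_of_injOn hinj, card_range]
  refine h5.symm.le.trans (card_le_card ?_)
  intro c hc
  rw [mem_image] at hc
  obtain ⟨l, hl, rfl⟩ := hc
  exact hmem l (mem_range.mp hl)

end Pool.Agent.LibMP92436f
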