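import Pool.Agent.Lib_MP_92436f_lc.EL

set_option autoImplicit false
set_option linter.unusedSectionVars false

namespace Pool.Agent.LibMP92436f

open Finset

/-- pointwise inequality behind the selection lemma -/
lemma gs_point {α : Type} [DecidableEq α] (R0 : Finset α) (s : α → ℝ) {R δ C s0 : ℝ} {N0 m : ℕ}
    (hN : Even N0) (hδ : 0 < δ) (hδR : δ < R) (hC : 0 ≤ C)
    (hm : N0 * R0.card + 2 ≤ 2 * m)
    (hs0 : ((C + R0.card) * δ) ^ 2 * (1 + (C + R0.card) * δ / R) ^ (N0 * R0.card) ≤ s0) :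
    (∑ ρ ∈ R0, s ρ) ^ 2 * ∏ ρ ∈ R0, (1 + s ρ / R) ^ N0 ≤
      (R0.card * R) ^ 2 * 2 ^ (N0 * R0.card) *
        (if (∀ ρ ∈ R0, -δ ≤ s ρ) ∧ C * δ ≤ ∑ ρ ∈ R0, s ρ then (1:ℝ) else 0)
      + (1 - δ / R) ^ N0 *
        ∑ ρ ∈ R0, ((∑ ρ ∈ R0, s ρ) ^ 2 * ∏ ρ' ∈ R0.erase ρ, (1 + s ρ' / R) ^ N0)
      + s0 + (R0.card * R) ^ 2 * 2 ^ (N0 * R0.card) * ∑ ρ ∈ R0, (s ρ / R) ^ (2 * m) := by
  have hR : 0 < R := hδ.trans hδR
  set g := ∑ ρ ∈ R0, s ρ with hg
  set M0 : ℝ := (R0.card * R) ^ 2 * 2 ^ (N0 * R0.card) with hM0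
  have hM0n : 0 ≤ M0 := by positivity
  have hfac : ∀ (S : Finset α), 0 ≤ ∏ ρ' ∈ S, (1 + s ρ' / R) ^ N0 := fun S =>
    prod_nonneg fun _ _ => hN.pow_nonneg _
  have hpow : 0 ≤ (1 - δ / R) ^ N0 := hN.pow_nonneg _
  have ht2 : 0 ≤ (1 - δ / R) ^ N0 *
        ∑ ρ ∈ R0, (g ^ 2 * ∏ ρ' ∈ R0.erase ρ, (1 + s ρ' / R) ^ N0) :=
    mul_nonneg hpow (sum_nonneg fun ρ _ => mul_nonneg (sq_nonneg _) (hfac _))
  have hs0n : 0 ≤ s0 := by
    refine le_trans ?_ hs0
    have : 0 ≤ (1 + (C + R0.card) * δ / R) := by positivity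
    positivity
  have ht4' : ∀ ρ, 0 ≤ (s ρ / R) ^ (2 * m) := fun ρ => (even_two_mul m).pow_nonneg _
  have ht4 : 0 ≤ M0 * ∑ ρ ∈ R0, (s ρ / R) ^ (2 * m) :=
    mul_nonneg hM0n (sum_nonneg fun ρ _ => ht4' ρ)
  have ht1 : 0 ≤ M0 * (if (∀ ρ ∈ R0, -δ ≤ s ρ) ∧ C * δ ≤ g then (1:ℝ) else 0) := by
    apply mul_nonneg hM0n; split_ifs <;> norm_num
  by_cases htail : ∃ ρ ∈ R0, R < |s ρ|
  · -- tail
    obtain ⟨ρ1, hρ1, hρ1R⟩ := htail
    obtain ⟨ρ0, hρ0, hmax⟩ := exists_max_image R0 (fun ρ => |s ρ|) ⟨ρ1, hρ1⟩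
    have hbig : R < |s ρ0| := lt_of_lt_of_le hρ1R (hmax ρ1 hρ1)
    set yy := |s ρ0| / R with hyy
    have hyy1 : 1 ≤ yy := by rw [hyy, le_div_iff₀ hR]; linarith
    have hsle : ∀ ρ ∈ R0, |s ρ| ≤ R * yy := by
      intro ρ hρ
      rw [hyy, mul_div_cancel₀ _ hR.ne']
      exact hmax ρ hρ
    have hg2 : g ^ 2 ≤ (R0.card * R) ^ 2 * yy ^ 2 := by
      have : |g| ≤ R0.card * (R * yy) := by
        calc |g| ≤ ∑ ρ ∈ R0, |s ρ| := abs_sum_le_sum_abs _ _
          _ ≤ ∑ ρ ∈ R0, R * yy := sum_le_sum hsle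
          _ = R0.card * (R * yy) := by rw [sum_const, nsmul_eq_mul]
      calc g ^ 2 = |g| ^ 2 := (sq_abs g).symm
        _ ≤ (R0.card * (R * yy)) ^ 2 := by gcongr
        _ = _ := by ring
    have hprod : ∏ ρ ∈ R0, (1 + s ρ / R) ^ N0 ≤ (2 * yy) ^ (N0 * R0.card) := by
      calc ∏ ρ ∈ R0, (1 + s ρ / R) ^ N0 ≤ ∏ ρ ∈ R0, (2 * yy) ^ N0 := by
            apply prod_le_prod (fun ρ _ => hN.pow_nonneg _)
            intro ρ hρ
            rw [← hN.pow_abs]
            apply pow_le_pow_left₀ (abs_nonneg _)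
            have h1 := hsle ρ hρ
            have h2 : |s ρ / R| ≤ yy := by
              rw [abs_div, abs_of_pos hR, div_le_iff₀ hR]; linarith
            calc |1 + s ρ / R| ≤ |1| + |s ρ / R| := abs_add_le _ _
              _ ≤ 1 + yy := by rw [abs_one]; linarith
              _ ≤ 2 * yy := by linarith
        _ = (2 * yy) ^ (N0 * R0.card) := by rw [prod_const, ← pow_mul]
    have hW : g ^ 2 * ∏ ρ ∈ R0, (1 + s ρ / R) ^ N0 ≤ M0 * (s ρ0 / R) ^ (2 * m) := by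
      have h1 : (s ρ0 / R) ^ (2 * m) = yy ^ (2 * m) := by
        rw [← (even_two_mul m).pow_abs, abs_div, abs_of_pos hR]
      rw [h1]
      calc g ^ 2 * ∏ ρ ∈ R0, (1 + s ρ / R) ^ N0 ≤
          ((R0.card * R) ^ 2 * yy ^ 2) * (2 * yy) ^ (N0 * R0.card) :=
            mul_le_mul hg2 hprod (hfac _) (by positivity)
        _ = M0 * yy ^ (N0 * R0.card + 2) := by rw [hM0, mul_pow, pow_add]; ring
        _ ≤ M0 * yy ^ (2 * m) := by
          apply mul_le_mul_of_nonneg_left _ hM0n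
          exact pow_le_pow_right₀ hyy1 hm
    have h5 : M0 * (s ρ0 / R) ^ (2 * m) ≤ M0 * ∑ ρ ∈ R0, (s ρ / R) ^ (2 * m) := by
      apply mul_le_mul_of_nonneg_left _ hM0n
      exact single_le_sum (f := fun ρ => (s ρ / R) ^ (2 * m)) (fun ρ _ => ht4' ρ) hρ0
    linarith
  · push Not at htail
    by_cases hneg : ∃ ρ ∈ R0, s ρ < -δ
    · obtain ⟨ρ, hρ, hρδ⟩ := hneg
      have h1 : (1 + s ρ / R) ^ N0 ≤ (1 - δ / R) ^ N0 := by
        have h2 : 0 ≤ 1 + s ρ / R := by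
          have := (abs_le.mp (htail ρ hρ)).1
          have : -1 ≤ s ρ / R := by rw [le_div_iff₀ hR]; linarith
          linarith
        apply pow_le_pow_left₀ h2
        have : s ρ / R ≤ -δ / R := by gcongr
        rw [neg_div] at this
        linarith
      have h3 : g ^ 2 * ∏ ρ ∈ R0, (1 + s ρ / R) ^ N0 ≤
          (1 - δ / R) ^ N0 * (g ^ 2 * ∏ ρ' ∈ R0.erase ρ, (1 + s ρ' / R) ^ N0) := by
        rw [← mul_prod_erase R0 _ hρ]
        have h4 : 0 ≤ g ^ 2 * ∏ ρ' ∈ R0.erase ρ, (1 + s ρ' / R) ^ N0 :=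
          mul_nonneg (sq_nonneg _) (hfac _)
        calc g ^ 2 * ((1 + s ρ / R) ^ N0 * ∏ x ∈ R0.erase ρ, (1 + s x / R) ^ N0)
            = (1 + s ρ / R) ^ N0 * (g ^ 2 * ∏ ρ' ∈ R0.erase ρ, (1 + s ρ' / R) ^ N0) := by ring
          _ ≤ _ := mul_le_mul_of_nonneg_right h1 h4
      have h5 : (1 - δ / R) ^ N0 * (g ^ 2 * ∏ ρ' ∈ R0.erase ρ, (1 + s ρ' / R) ^ N0) ≤
          (1 - δ / R) ^ N0 * ∑ ρ ∈ R0, (g ^ 2 * ∏ ρ' ∈ R0.erase ρ, (1 + s ρ' / R) ^ N0) := by
        apply mul_le_mul_of_nonneg_left _ hpow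
        exact single_le_sum (f := fun ρ => g ^ 2 * ∏ ρ' ∈ R0.erase ρ, (1 + s ρ' / R) ^ N0)
          (fun ρ _ => mul_nonneg (sq_nonneg _) (hfac _)) hρ
      linarith
    · push Not at hneg
      by_cases hgood : C * δ ≤ g
      · have h1 : g ^ 2 * ∏ ρ ∈ R0, (1 + s ρ / R) ^ N0 ≤ M0 := by
          have hg2 : g ^ 2 ≤ (R0.card * R) ^ 2 := by
            have : |g| ≤ R0.card * R := by
              calc |g| ≤ ∑ ρ ∈ R0, |s ρ| := abs_sum_le_sum_abs _ _
                _ ≤ ∑ ρ ∈ R0, R := sum_le_sum htail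
                _ = R0.card * R := by rw [sum_const, nsmul_eq_mul]
            calc g ^ 2 = |g| ^ 2 := (sq_abs g).symm
              _ ≤ (R0.card * R) ^ 2 := by gcongr
          have hprod : ∏ ρ ∈ R0, (1 + s ρ / R) ^ N0 ≤ 2 ^ (N0 * R0.card) := by
            calc ∏ ρ ∈ R0, (1 + s ρ / R) ^ N0 ≤ ∏ ρ ∈ R0, (2:ℝ) ^ N0 := by
                  apply prod_le_prod (fun ρ _ => hN.pow_nonneg _)
                  intro ρ hρ
                  rw [← hN.pow_abs]
                  apply pow_le_pow_left₀ (abs_nonneg _)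
                  have h1 := htail ρ hρ
                  have h2 : |s ρ / R| ≤ 1 := by
                    rw [abs_div, abs_of_pos hR, div_le_iff₀ hR]; linarith
                  calc |1 + s ρ / R| ≤ |1| + |s ρ / R| := abs_add_le _ _
                    _ ≤ 2 := by rw [abs_one]; linarith
              _ = 2 ^ (N0 * R0.card) := by rw [prod_const, ← pow_mul]
          exact mul_le_mul hg2 hprod (hfac _) (by positivity)
        rw [if_pos ⟨hneg, hgood⟩, mul_one]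
        linarith
      · push Not at hgood
        have hr : (1:ℝ) ≤ R0.card ∨ R0 = ∅ := by
          rcases R0.eq_empty_or_nonempty with h | h
          · right; exact h
          · left; exact_mod_cast h.card_pos
        have hgl : -(R0.card * δ) ≤ g := by
          calc -(R0.card * δ) = ∑ ρ ∈ R0, (-δ) := by rw [sum_const, nsmul_eq_mul]; ring
            _ ≤ g := sum_le_sum hneg
        have hgabs : |g| ≤ (C + R0.card) * δ := by
          rw [abs_le]
          have : 0 ≤ (R0.card : ℝ) * δ := by positivity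
          have : 0 ≤ C * δ := by positivity
          constructor <;> nlinarith
        have hsup : ∀ ρ ∈ R0, s ρ ≤ (C + R0.card) * δ := by
          intro ρ hρ
          have h1 : s ρ + ∑ ρ' ∈ R0.erase ρ, s ρ' = g := add_sum_erase R0 s hρ
          have h2 : ∑ ρ' ∈ R0.erase ρ, (-δ) ≤ ∑ ρ' ∈ R0.erase ρ, s ρ' :=
            sum_le_sum fun ρ' h' => hneg ρ' (mem_of_mem_erase h')
          rw [sum_const, card_erase_of_mem hρ, nsmul_eq_mul] at h2
          have h3 : ((R0.card - 1 : ℕ) : ℝ) ≤ R0.card := by exact_mod_cast Nat.sub_le _ _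
          nlinarith
        have h1 : g ^ 2 * ∏ ρ ∈ R0, (1 + s ρ / R) ^ N0 ≤ s0 := by
          refine le_trans ?_ hs0
          have hg2 : g ^ 2 ≤ ((C + R0.card) * δ) ^ 2 := by
            calc g ^ 2 = |g| ^ 2 := (sq_abs g).symm
              _ ≤ _ := by gcongr
          have hprod : ∏ ρ ∈ R0, (1 + s ρ / R) ^ N0 ≤ (1 + (C + R0.card) * δ / R) ^ (N0 * R0.card) := by
            calc ∏ ρ ∈ R0, (1 + s ρ / R) ^ N0 ≤ ∏ ρ ∈ R0, (1 + (C + R0.card) * δ / R) ^ N0 := by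
                  apply prod_le_prod (fun ρ _ => hN.pow_nonneg _)
                  intro ρ hρ
                  have h2 := (abs_le.mp (htail ρ hρ)).1
                  have h3 : -1 ≤ s ρ / R := by rw [le_div_iff₀ hR]; linarith
                  have h4 : s ρ / R ≤ (C + R0.card) * δ / R := by
                    have := hsup ρ hρ; gcongr
                  exact pow_le_pow_left₀ (by linarith) (by linarith) _
              _ = _ := by rw [prod_const, ← pow_mul]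
          exact mul_le_mul hg2 hprod (hfac _) (by positivity)
        linarith

end Pool.Agent.LibMP92436f
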