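import Pool.Agent.Lib_MP_92436f_lc.GS

set_option autoImplicit false
set_option linter.unusedSectionVars false

namespace Pool.Agent.LibMP92436f

open Finset

variable {Ω : Type} [Fintype Ω] {ι : Type}

/-- kernels dominating the constant one -/
def Ge1 (P : ι → ι → ℝ) : Prop := Gram (fun a b => P a b - 1)

lemma Ge1.gram {P : ι → ι → ℝ} (h : Ge1 P) : Gram P :=
  (Gram.add h (Gram.const zero_le_one)).congr fun a b => by ring

lemma Ge1.mul {P Q : ι → ι → ℝ} (h : Ge1 P) (h' : Ge1 Q) : Ge1 (fun a b => P a b * Q a b) :=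
  ((Gram.mul h h'.gram).add h').congr fun a b => by ring

lemma Ge1.one : Ge1 (fun _ _ : ι => (1:ℝ)) :=
  (Gram.const le_rfl).congr fun a b => by ring

lemma Ge1.pow {P : ι → ι → ℝ} (h : Ge1 P) (r : ℕ) : Ge1 (fun a b => P a b ^ r) := by
  induction r with
  | zero => simpa using (Ge1.one (ι := ι))
  | succ r ih =>
    have := ih.mul h
    unfold Ge1 at *
    exact this.congr fun a b => by dsimp only; rw [pow_succ]

lemma Ge1.finprod {α : Type} [DecidableEq α] (s : Finset α) {K : α → ι → ι → ℝ}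
    (h : ∀ i ∈ s, Ge1 (K i)) : Ge1 (fun a b => ∏ i ∈ s, K i a b) := by
  induction s using Finset.induction_on with
  | empty => simpa using (Ge1.one (ι := ι))
  | insert i s hi ih =>
    have h1 := h i (mem_insert_self _ _)
    have h2 := ih (fun j hj => h j (mem_insert_of_mem hj))
    have := h1.mul h2
    unfold Ge1 at *
    exact this.congr fun a b => by dsimp only; rw [prod_insert hi]

lemma gs {α : Type} [DecidableEq α] (R0 : Finset α) (x : ι → Ω → ℝ) (h : α → Ω → ℝ)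
    (h0 : ∀ ρ ∈ R0, ∀ j, 0 ≤ h ρ j) (h1 : ∀ ρ ∈ R0, ∀ j, |h ρ j| ≤ 1)
    (hsum : ∀ j, ∑ ρ ∈ R0, h ρ j = 1)
    {D R δ C B : ℝ} {N0 m : ℕ} (hD : 0 < D) (hN : Even N0) (hδ : 0 < δ) (hδR : δ < R) (hC : 0 ≤ C)
    (hm : N0 * R0.card + 2 ≤ 2 * m)
    (hs0 : ((C + R0.card) * δ) ^ 2 * (1 + (C + R0.card) * δ / R) ^ (N0 * R0.card) ≤ 1/32)
    (hq : R0.card * (1 - δ/R)^N0 ≤ 1/4)
    (Z : Finset ι) (hZ2 : D^2/4 * (Z.card:ℝ)^2 ≤ ∑ a ∈ Z, ∑ b ∈ Z, phi x a b ^ 2)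
    (hZm : ∑ a ∈ Z, ∑ b ∈ Z, phi x a b ^ (2*m) ≤ B * D^(2*m) * (Z.card:ℝ)^2)
    (hB : (R0.card * R) ^ 2 * 2 ^ (N0 * R0.card) * R0.card * (B / R^(2*m)) ≤ 1/32) :
    (Z.card:ℝ)^2 / 8 ≤ (R0.card * R) ^ 2 * 2 ^ (N0 * R0.card) * ∑ a ∈ Z, ∑ b ∈ Z,
      (if (∀ ρ ∈ R0, -(δ*D) ≤ ker x (h ρ) a b) ∧ C*δ*D ≤ phi x a b then (1:ℝ) else 0) := by
  classical
  have hR : 0 < R := hδ.trans hδR
  set M0 : ℝ := (R0.card * R) ^ 2 * 2 ^ (N0 * R0.card) with hM0
  have hM0n : 0 ≤ M0 := by positivity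
  set s : α → ι → ι → ℝ := fun ρ a b => ker x (h ρ) a b / D with hs
  have hsumk : ∀ a b, ∑ ρ ∈ R0, s ρ a b = phi x a b / D := by
    intro a b
    simp only [hs]
    rw [← sum_div]
    congr 1
    unfold ker phi
    rw [← ex_sum]
    congr 1; funext j
    rw [← sum_mul, hsum, one_mul]
  have hphiD : Gram (fun a b => phi x a b / D) :=
    ((phi_gram x).smul (by positivity : 0 ≤ 1/D)).congr fun a b => by ring
  have hfacG : ∀ ρ ∈ R0, Ge1 (fun a b => (1 + s ρ a b / R) ^ N0) := by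
    intro ρ hρ
    apply Ge1.pow
    unfold Ge1
    refine ((ker_gram x (h0 ρ hρ)).smul (by positivity : 0 ≤ 1/(D*R))).congr fun a b => ?_
    simp only [hs]
    field_simp
    ring
  set W : ι → ι → ℝ := fun a b => (phi x a b / D)^2 * ∏ ρ ∈ R0, (1 + s ρ a b / R) ^ N0 with hW
  set Wr : α → ι → ι → ℝ := fun ρ a b =>
    (phi x a b / D)^2 * ∏ ρ' ∈ R0.erase ρ, (1 + s ρ' a b / R) ^ N0 with hWr
  set SW := ∑ a ∈ Z, ∑ b ∈ Z, W a b with hSW
  -- F1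
  have F1 : (Z.card:ℝ)^2 / 4 ≤ SW := by
    have g1 : Gram (fun a b => W a b - (phi x a b / D)^2) := by
      have := (hphiD.pow 2).mul (Ge1.finprod R0 hfacG)
      exact this.congr fun a b => by simp only [hW]; ring
    have g2 := g1.sum_nonneg Z
    simp_rw [sum_sub_distrib] at g2
    have g3 : ∑ a ∈ Z, ∑ b ∈ Z, (phi x a b / D)^2 = (∑ a ∈ Z, ∑ b ∈ Z, phi x a b ^ 2) / D^2 := by
      simp_rw [div_pow, ← sum_div]
    rw [g3] at g2
    have g4 : (Z.card:ℝ)^2 / 4 ≤ (∑ a ∈ Z, ∑ b ∈ Z, phi x a b ^ 2) / D^2 := by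
      rw [le_div_iff₀ (by positivity)]
      linarith
    linarith
  -- F2
  have F2 : ∀ ρ ∈ R0, ∑ a ∈ Z, ∑ b ∈ Z, Wr ρ a b ≤ SW := by
    intro ρ hρ
    have g0 : Ge1 (fun a b => ∏ ρ' ∈ R0.erase ρ, (1 + s ρ' a b / R) ^ N0) :=
      Ge1.finprod (R0.erase ρ) (K := fun ρ' a b => (1 + s ρ' a b / R) ^ N0)
        (fun ρ' h' => hfacG ρ' (mem_of_mem_erase h'))
    have g1 : Gram (fun a b => W a b - Wr ρ a b) := by
      have := ((hphiD.pow 2).mul g0.gram).mul (hfacG ρ hρ)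
      refine this.congr fun a b => ?_
      simp only [hW, hWr]
      rw [← mul_prod_erase R0 _ hρ]
      ring
    have g2 := g1.sum_nonneg Z
    simp_rw [sum_sub_distrib] at g2
    linarith
  -- F4
  have F4 : ∀ ρ ∈ R0, ∑ a ∈ Z, ∑ b ∈ Z, (s ρ a b / R) ^ (2*m) ≤ B / R^(2*m) * (Z.card:ℝ)^2 := by
    intro ρ hρ
    have g1 := dom x (h1 ρ hρ) (2*m) Z
    have g2 : ∑ a ∈ Z, ∑ b ∈ Z, (s ρ a b / R) ^ (2*m) =
        (∑ a ∈ Z, ∑ b ∈ Z, ker x (h ρ) a b ^ (2*m)) / (D * R)^(2*m) := by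
      simp only [hs]
      simp_rw [div_div, div_pow, ← sum_div]
    rw [g2, div_le_iff₀ (by positivity)]
    refine (g1.trans hZm).trans (le_of_eq ?_)
    rw [mul_pow]
    field_simp
  -- pointwise
  have F3 : ∀ a b, W a b ≤
      M0 * (if (∀ ρ ∈ R0, -(δ*D) ≤ ker x (h ρ) a b) ∧ C*δ*D ≤ phi x a b then (1:ℝ) else 0)
      + (1 - δ / R) ^ N0 * ∑ ρ ∈ R0, Wr ρ a b + 1/32 + M0 * ∑ ρ ∈ R0, (s ρ a b / R) ^ (2 * m) := by
    intro a b
    have := gs_point R0 (fun ρ => s ρ a b) hN hδ hδR hC hm hs0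
    rw [hsumk] at this
    have hiff : ((∀ ρ ∈ R0, -δ ≤ s ρ a b) ∧ C * δ ≤ phi x a b / D) ↔
        ((∀ ρ ∈ R0, -(δ*D) ≤ ker x (h ρ) a b) ∧ C*δ*D ≤ phi x a b) := by
      constructor
      · rintro ⟨i1, i2⟩
        refine ⟨fun ρ hρ => ?_, ?_⟩
        · have := i1 ρ hρ
          simp only [hs] at this
          rw [le_div_iff₀ hD] at this
          linarith
        · rw [le_div_iff₀ hD] at i2
          linarith
      · rintro ⟨i1, i2⟩
        refine ⟨fun ρ hρ => ?_, ?_⟩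
        · have := i1 ρ hρ
          simp only [hs]
          rw [le_div_iff₀ hD]
          linarith
        · rw [le_div_iff₀ hD]
          linarith
    have hite : (if (∀ ρ ∈ R0, -δ ≤ s ρ a b) ∧ C * δ ≤ phi x a b / D then (1:ℝ) else 0) =
        (if (∀ ρ ∈ R0, -(δ*D) ≤ ker x (h ρ) a b) ∧ C*δ*D ≤ phi x a b then (1:ℝ) else 0) := by
      by_cases hc : ((∀ ρ ∈ R0, -(δ*D) ≤ ker x (h ρ) a b) ∧ C*δ*D ≤ phi x a b)
      · rw [if_pos hc, if_pos (hiff.mpr hc)]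
      · rw [if_neg hc, if_neg (fun hh => hc (hiff.mp hh))]
    rw [hite] at this
    exact this
  set G := ∑ a ∈ Z, ∑ b ∈ Z,
      (if (∀ ρ ∈ R0, -(δ*D) ≤ ker x (h ρ) a b) ∧ C*δ*D ≤ phi x a b then (1:ℝ) else 0) with hG
  have F5 : SW ≤ M0 * G + (1 - δ / R) ^ N0 * ∑ ρ ∈ R0, ∑ a ∈ Z, ∑ b ∈ Z, Wr ρ a b +
      1/32 * (Z.card:ℝ)^2 + M0 * ∑ ρ ∈ R0, ∑ a ∈ Z, ∑ b ∈ Z, (s ρ a b / R) ^ (2 * m) := by
    have g1 : SW ≤ ∑ a ∈ Z, ∑ b ∈ Z,
      (M0 * (if (∀ ρ ∈ R0, -(δ*D) ≤ ker x (h ρ) a b) ∧ C*δ*D ≤ phi x a b then (1:ℝ) else 0)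
      + (1 - δ / R) ^ N0 * ∑ ρ ∈ R0, Wr ρ a b + 1/32 + M0 * ∑ ρ ∈ R0, (s ρ a b / R) ^ (2 * m)) :=
      sum_le_sum fun a _ => sum_le_sum fun b _ => F3 a b
    refine g1.trans (le_of_eq ?_)
    have e1 : ∀ (f : α → ι → ι → ℝ), ∑ ρ ∈ R0, ∑ a ∈ Z, ∑ b ∈ Z, f ρ a b =
        ∑ a ∈ Z, ∑ b ∈ Z, ∑ ρ ∈ R0, f ρ a b := by
      intro f
      rw [sum_comm]
      apply sum_congr rfl; intro a _
      rw [sum_comm]
    rw [e1, e1]
    simp_rw [sum_add_distrib, ← mul_sum]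
    simp only [sum_const, nsmul_eq_mul]
    ring
  have hpow : 0 ≤ (1 - δ / R) ^ N0 := hN.pow_nonneg _
  have F6 : (1 - δ / R) ^ N0 * ∑ ρ ∈ R0, ∑ a ∈ Z, ∑ b ∈ Z, Wr ρ a b ≤ 1/4 * SW := by
    have g1 : ∑ ρ ∈ R0, ∑ a ∈ Z, ∑ b ∈ Z, Wr ρ a b ≤ R0.card * SW := by
      have := sum_le_sum F2
      rwa [sum_const, nsmul_eq_mul] at this
    have hSW0 : 0 ≤ SW := le_trans (by positivity) F1
    calc _ ≤ (1 - δ / R) ^ N0 * (R0.card * SW) := mul_le_mul_of_nonneg_left g1 hpow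
      _ = (R0.card * (1 - δ / R) ^ N0) * SW := by ring
      _ ≤ 1/4 * SW := mul_le_mul_of_nonneg_right hq hSW0
  have F7 : M0 * ∑ ρ ∈ R0, ∑ a ∈ Z, ∑ b ∈ Z, (s ρ a b / R) ^ (2 * m) ≤ 1/32 * (Z.card:ℝ)^2 := by
    have g1 := sum_le_sum F4
    rw [sum_const, nsmul_eq_mul] at g1
    calc _ ≤ M0 * (R0.card * (B / R^(2*m) * (Z.card:ℝ)^2)) := mul_le_mul_of_nonneg_left g1 hM0n
      _ = (M0 * R0.card * (B / R^(2*m))) * (Z.card:ℝ)^2 := by ring
      _ ≤ _ := mul_le_mul_of_nonneg_right hB (by positivity)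
  linarith

/-- choice of the parameters of the selection lemma -/
lemma gs_params (r : ℕ) (hr : 1 ≤ r) {R C : ℝ} (hR : 0 < R) (hC : 0 ≤ C) :
    ∃ (δ : ℝ) (N0 : ℕ), 0 < δ ∧ δ < R ∧ Even N0 ∧ (r:ℝ) * (1 - δ/R)^N0 ≤ 1/4 ∧
      ((C + r) * δ) ^ 2 * (1 + (C + r) * δ / R) ^ (N0 * r) ≤ 1/32 := by
  set lam : ℝ := 2 * r with hlam
  have hr' : (1:ℝ) ≤ r := by exact_mod_cast hr
  have hlam0 : 0 < lam := by positivity
  set E : ℝ := Real.exp (2 * r * ((C + r) * lam)) with hE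
  have hE0 : 0 < E := Real.exp_pos _
  obtain ⟨M, hM⟩ := exists_nat_gt (max (max lam 1) (32 * E * ((C + r) * (R * lam))^2))
  have hM1 : lam < M := lt_of_le_of_lt ((le_max_left _ _).trans (le_max_left _ _)) hM
  have hM2 : (1:ℝ) < M := lt_of_le_of_lt ((le_max_right _ _).trans (le_max_left _ _)) hM
  have hM3 : 32 * E * ((C + r) * (R * lam))^2 < M := lt_of_le_of_lt (le_max_right _ _) hM
  have hMpos : (0:ℝ) < M := by linarith
  refine ⟨R * lam / M, 2 * M, by positivity, ?_, even_two_mul M, ?_, ?_⟩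
  · rw [div_lt_iff₀ hMpos]
    exact mul_lt_mul_of_pos_left hM1 hR
  · have e1 : 1 - R * lam / M / R = 1 - lam / M := by field_simp
    rw [e1]
    have h1 : 1 - lam / M ≤ Real.exp (-(lam / M)) := by
      have := Real.add_one_le_exp (-(lam / M)); linarith
    have h2 : 0 ≤ 1 - lam / M := by
      rw [sub_nonneg, div_le_one hMpos]; exact hM1.le
    have h3 : (1 - lam / M) ^ (2 * M) ≤ Real.exp (-(2 * lam)) := by
      calc (1 - lam / M) ^ (2 * M) ≤ Real.exp (-(lam / M)) ^ (2 * M) := pow_le_pow_left₀ h2 h1 _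
        _ = Real.exp (-(2 * lam)) := by
          rw [← Real.exp_nat_mul]
          congr 1
          push_cast
          field_simp
    have h4 : Real.exp (-(2 * lam)) ≤ 1 / (4 * r) := by
      rw [Real.exp_neg, ← one_div]
      apply one_div_le_one_div_of_le (by positivity)
      have := Real.add_one_le_exp (2 * lam)
      rw [hlam] at *
      linarith
    calc (r:ℝ) * (1 - lam / M) ^ (2 * M) ≤ r * (1 / (4 * r)) := by gcongr; exact h3.trans h4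
      _ = 1/4 := by field_simp
  · have e1 : (C + r) * (R * lam / M) / R = (C + r) * lam / M := by field_simp
    rw [e1]
    have h1 : 1 + (C + r) * lam / M ≤ Real.exp ((C + r) * lam / M) := by
      have := Real.add_one_le_exp ((C + r) * lam / M); linarith
    have h2 : (0:ℝ) ≤ 1 + (C + r) * lam / M := by positivity
    have h3 : (1 + (C + r) * lam / M) ^ (2 * M * r) ≤ E := by
      calc (1 + (C + r) * lam / M) ^ (2 * M * r) ≤ Real.exp ((C + r) * lam / M) ^ (2 * M * r) :=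
            pow_le_pow_left₀ h2 h1 _
        _ = E := by
          rw [← Real.exp_nat_mul, hE]
          congr 1
          push_cast
          field_simp
    calc ((C + r) * (R * lam / M)) ^ 2 * (1 + (C + r) * lam / M) ^ (2 * M * r)
        ≤ ((C + r) * (R * lam / M)) ^ 2 * E := by gcongr
      _ = (E * ((C + r) * (R * lam))^2) / M ^ 2 := by field_simp
      _ ≤ (M / 32) / M ^ 2 := by
          gcongr
          linarith
      _ = 1 / (32 * M) := by field_simp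
      _ ≤ 1/32 := by
          apply one_div_le_one_div_of_le (by norm_num)
          linarith

end Pool.Agent.LibMP92436f
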