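import Pool.Agent.Lib_MP_92436f_lc.Hybrid

set_option autoImplicit false

namespace Pool.Agent.LibMP92436f

open Finset

/-- positive semidefinite kernels given by a finite family of feature functions -/
def Gram {ι : Type} (K : ι → ι → ℝ) : Prop :=
  ∃ (κ : Type) (_ : Fintype κ) (v : ι → κ → ℝ), ∀ a b, K a b = ∑ t, v a t * v b t

section gram

variable {ι : Type}

lemma Gram.congr {K K' : ι → ι → ℝ} (h : Gram K) (he : ∀ a b, K' a b = K a b) : Gram K' := by
  obtain ⟨κ, i, v, hv⟩ := h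
  exact ⟨κ, i, v, fun a b => by rw [he, hv]⟩

lemma Gram.add {K K' : ι → ι → ℝ} (h : Gram K) (h' : Gram K') : Gram (fun a b => K a b + K' a b) := by
  obtain ⟨κ, i, v, hv⟩ := h
  obtain ⟨κ', i', v', hv'⟩ := h'
  refine ⟨κ ⊕ κ', inferInstance, fun a => Sum.elim (v a) (v' a), fun a b => ?_⟩
  rw [Fintype.sum_sum_type]
  simp [hv, hv']

lemma Gram.mul {K K' : ι → ι → ℝ} (h : Gram K) (h' : Gram K') : Gram (fun a b => K a b * K' a b) := by
  obtain ⟨κ, i, v, hv⟩ := h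
  obtain ⟨κ', i', v', hv'⟩ := h'
  refine ⟨κ × κ', inferInstance, fun a t => v a t.1 * v' a t.2, fun a b => ?_⟩
  dsimp only
  rw [Fintype.sum_prod_type, hv, hv', sum_mul_sum]
  apply sum_congr rfl
  intro t _
  apply sum_congr rfl
  intro t' _
  ring

lemma Gram.const {c : ℝ} (hc : 0 ≤ c) : Gram (fun _ _ : ι => c) := by
  refine ⟨Unit, inferInstance, fun _ _ => Real.sqrt c, fun a b => ?_⟩
  simp [Real.mul_self_sqrt hc]

lemma Gram.smul {K : ι → ι → ℝ} (h : Gram K) {c : ℝ} (hc : 0 ≤ c) : Gram (fun a b => c * K a b) :=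
  (Gram.const hc).mul h

lemma Gram.pow {K : ι → ι → ℝ} (h : Gram K) (r : ℕ) : Gram (fun a b => K a b ^ r) := by
  induction r with
  | zero => simpa using (Gram.const (ι := ι) zero_le_one)
  | succ r ih => exact (ih.mul h).congr fun a b => by rw [pow_succ]

lemma Gram.finsum {α : Type*} (s : Finset α) {K : α → ι → ι → ℝ} (h : ∀ i ∈ s, Gram (K i)) :
    Gram (fun a b => ∑ i ∈ s, K i a b) := by
  classical
  induction s using Finset.induction_on with
  | empty => simpa using (Gram.const (ι := ι) le_rfl)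
  | insert i s hi ih =>
    have h1 := h i (mem_insert_self _ _)
    have h2 := ih (fun j hj => h j (mem_insert_of_mem hj))
    exact (h1.add h2).congr fun a b => by rw [sum_insert hi]

lemma Gram.finprod {α : Type*} (s : Finset α) {K : α → ι → ι → ℝ} (h : ∀ i ∈ s, Gram (K i)) :
    Gram (fun a b => ∏ i ∈ s, K i a b) := by
  classical
  induction s using Finset.induction_on with
  | empty => simpa using (Gram.const (ι := ι) zero_le_one)
  | insert i s hi ih =>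
    have h1 := h i (mem_insert_self _ _)
    have h2 := ih (fun j hj => h j (mem_insert_of_mem hj))
    exact (h1.mul h2).congr fun a b => by rw [prod_insert hi]

lemma gram_sum_eq {κ : Type} [Fintype κ] (v : ι → κ → ℝ) (Z W : Finset ι) :
    ∑ a ∈ Z, ∑ b ∈ W, ∑ t, v a t * v b t = ∑ t, (∑ a ∈ Z, v a t) * (∑ b ∈ W, v b t) := by
  have h1 : ∀ t, (∑ a ∈ Z, v a t) * (∑ b ∈ W, v b t) = ∑ a ∈ Z, ∑ b ∈ W, v a t * v b t := by
    intro t; rw [sum_mul_sum]
  simp_rw [h1]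
  rw [sum_comm (s := univ)]
  apply sum_congr rfl
  intro a _
  rw [sum_comm]

lemma Gram.sum_nonneg {K : ι → ι → ℝ} (h : Gram K) (Y : Finset ι) :
    0 ≤ ∑ a ∈ Y, ∑ b ∈ Y, K a b := by
  obtain ⟨κ, i, v, hv⟩ := h
  simp_rw [hv]
  rw [gram_sum_eq]
  exact Finset.sum_nonneg fun t _ => mul_self_nonneg _

lemma Gram.cs {K : ι → ι → ℝ} (h : Gram K) (Z W : Finset ι) :
    (∑ a ∈ Z, ∑ b ∈ W, K a b) ^ 2 ≤ (∑ a ∈ Z, ∑ b ∈ Z, K a b) * (∑ a ∈ W, ∑ b ∈ W, K a b) := by
  obtain ⟨κ, i, v, hv⟩ := h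
  simp_rw [hv]
  rw [gram_sum_eq, gram_sum_eq, gram_sum_eq]
  have := sum_mul_sq_le_sq_mul_sq univ (fun t => ∑ a ∈ Z, v a t) (fun t => ∑ b ∈ W, v b t)
  simpa [pow_two] using this

lemma dom_aux {p q : ι → ι → ℝ} (hp : Gram p) (hq : Gram q) (r : ℕ) :
    Gram (fun a b => (p a b + q a b) ^ r - (p a b - q a b) ^ r) ∧
    Gram (fun a b => (p a b + q a b) ^ r + (p a b - q a b) ^ r) := by
  induction r with
  | zero =>
    constructor
    · simpa using (Gram.const (ι := ι) le_rfl)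
    · exact (Gram.const (ι := ι) (by norm_num : (0:ℝ) ≤ 2)).congr fun a b => by norm_num
  | succ r ih =>
    constructor
    · exact ((ih.1.mul hp).add (ih.2.mul hq)).congr fun a b => by rw [pow_succ, pow_succ]; ring
    · exact ((ih.2.mul hp).add (ih.1.mul hq)).congr fun a b => by rw [pow_succ, pow_succ]; ring

end gram

section kernels

variable {Ω : Type} [Fintype Ω] {ι : Type}

noncomputable def ker (x : ι → Ω → ℝ) (h : Ω → ℝ) (a b : ι) : ℝ := ex (fun j => h j * (x a j * x b j))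

noncomputable def phi (x : ι → Ω → ℝ) (a b : ι) : ℝ := ex (fun j => x a j * x b j)

lemma ker_one (x : ι → Ω → ℝ) (a b : ι) : ker x (fun _ => 1) a b = phi x a b := by
  unfold ker phi; simp

lemma phi_comm (x : ι → Ω → ℝ) (a b : ι) : phi x a b = phi x b a := by
  unfold phi; congr 1; funext j; ring

lemma ker_gram (x : ι → Ω → ℝ) {h : Ω → ℝ} (hh : ∀ j, 0 ≤ h j) : Gram (ker x h) := by
  refine ⟨Ω, inferInstance, fun a j => Real.sqrt (h j / Fintype.card Ω) * x a j, fun a b => ?_⟩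
  unfold ker ex
  rw [sum_div]
  apply sum_congr rfl
  intro j _
  have h1 : Real.sqrt (h j / Fintype.card Ω) * Real.sqrt (h j / Fintype.card Ω) =
      h j / Fintype.card Ω := Real.mul_self_sqrt (div_nonneg (hh j) (by positivity))
  calc h j * (x a j * x b j) / Fintype.card Ω = (h j / Fintype.card Ω) * (x a j * x b j) := by ring
    _ = _ := by rw [← h1]; ring

lemma phi_gram (x : ι → Ω → ℝ) : Gram (phi x) :=
  (ker_gram x (h := fun _ => 1) (fun _ => zero_le_one)).congr fun a b => (ker_one x a b).symm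

lemma ker_dom (x : ι → Ω → ℝ) {h : Ω → ℝ} (hh : ∀ j, |h j| ≤ 1) (r : ℕ) :
    Gram (fun a b => phi x a b ^ r - ker x h a b ^ r) := by
  have hp : Gram (ker x (fun j => (1 + h j) / 2)) := ker_gram x fun j => by
    have := (abs_le.mp (hh j)).1; linarith
  have hq : Gram (ker x (fun j => (1 - h j) / 2)) := ker_gram x fun j => by
    have := (abs_le.mp (hh j)).2; linarith
  refine (dom_aux hp hq r).1.congr fun a b => ?_
  have h1 : ker x (fun j => (1 + h j) / 2) a b + ker x (fun j => (1 - h j) / 2) a b = phi x a b := by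
    unfold ker phi
    rw [← ex_add]
    congr 1; funext j; ring
  have h2 : ker x (fun j => (1 + h j) / 2) a b - ker x (fun j => (1 - h j) / 2) a b = ker x h a b := by
    unfold ker
    rw [← ex_sub]
    congr 1; funext j; ring
  rw [h1, h2]

lemma dom (x : ι → Ω → ℝ) {h : Ω → ℝ} (hh : ∀ j, |h j| ≤ 1) (r : ℕ) (Y : Finset ι) :
    ∑ a ∈ Y, ∑ b ∈ Y, ker x h a b ^ r ≤ ∑ a ∈ Y, ∑ b ∈ Y, phi x a b ^ r := by
  have := (ker_dom x hh r).sum_nonneg Y
  simp_rw [sum_sub_distrib] at this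
  linarith

lemma abs_pow_odd {e : ℕ} (he : Odd e) (t : ℝ) : |t| ^ e = 2 * (max t 0) ^ e - t ^ e := by
  rcases le_total 0 t with h | h
  · rw [abs_of_nonneg h, max_eq_left h]; ring
  · rw [abs_of_nonpos h, max_eq_right h, he.neg_pow, zero_pow (Nat.ne_of_gt he.pos)]; ring

lemma sum_abs_le (x : ι → Ω → ℝ) {e : ℕ} (he : Odd e) (Y : Finset ι) :
    ∑ a ∈ Y, ∑ b ∈ Y, |phi x a b| ^ e ≤ 2 * ∑ a ∈ Y, ∑ b ∈ Y, (max (phi x a b) 0) ^ e := by
  have h1 := ((phi_gram x).pow e).sum_nonneg Y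
  simp_rw [abs_pow_odd he, sum_sub_distrib, ← mul_sum]
  linarith

def Signs (x : ι → Ω → ℝ) : Prop := ∀ a j, x a j = 1 ∨ x a j = -1

lemma abs_ex_le_one {f : Ω → ℝ} (h : ∀ j, |f j| ≤ 1) : |ex f| ≤ 1 := by
  rcases isEmpty_or_nonempty Ω with hO | hO
  · unfold ex; simp
  · rw [abs_le]
    constructor
    · rw [← ex_const (Ω := Ω) (-1)]; exact ex_mono fun j => (abs_le.mp (h j)).1
    · rw [← ex_const (Ω := Ω) 1]; exact ex_mono fun j => (abs_le.mp (h j)).2

lemma sign_mul {a b : ℝ} (ha : a = 1 ∨ a = -1) (hb : b = 1 ∨ b = -1) : a * b = 1 ∨ a * b = -1 := by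
  rcases ha with rfl | rfl <;> rcases hb with rfl | rfl <;> norm_num

lemma sign_abs {a : ℝ} (ha : a = 1 ∨ a = -1) : |a| ≤ 1 := by
  rcases ha with rfl | rfl <;> norm_num

lemma abs_phi_le {x : ι → Ω → ℝ} (hx : Signs x) (a b : ι) : |phi x a b| ≤ 1 :=
  abs_ex_le_one fun j => sign_abs (sign_mul (hx a j) (hx b j))

lemma phi_self [Nonempty Ω] {x : ι → Ω → ℝ} (hx : Signs x) (a : ι) : phi x a a = 1 := by
  unfold phi
  have : (fun j => x a j * x a j) = fun _ => (1:ℝ) := by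
    funext j; rcases hx a j with h | h <;> rw [h] <;> norm_num
  rw [this, ex_const]

lemma sum_phi_sq_ge [Nonempty Ω] {x : ι → Ω → ℝ} (hx : Signs x) (Y : Finset ι) :
    (Y.card : ℝ) ^ 2 ≤ Fintype.card Ω * ∑ a ∈ Y, ∑ b ∈ Y, phi x a b ^ 2 := by
  set n : ℝ := (Fintype.card Ω : ℝ) with hn
  have hn0 : 0 < n := by rw [hn]; exact_mod_cast Fintype.card_pos
  have h1 : ∀ a b, phi x a b ^ 2 = (∑ j, ∑ j', (x a j * x a j') * (x b j * x b j')) / n ^ 2 := by
    intro a b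
    unfold phi ex
    rw [div_pow, pow_two (∑ j, _), sum_mul_sum]
    congr 1
    apply sum_congr rfl; intro j _
    apply sum_congr rfl; intro j' _
    ring
  have h2 : ∑ a ∈ Y, ∑ b ∈ Y, phi x a b ^ 2 = (∑ j, ∑ j', (∑ a ∈ Y, x a j * x a j') ^ 2) / n ^ 2 := by
    simp_rw [h1]
    simp_rw [← sum_div]
    congr 1
    have h3 : ∀ j j', (∑ a ∈ Y, x a j * x a j') ^ 2 =
        ∑ a ∈ Y, ∑ b ∈ Y, (x a j * x a j') * (x b j * x b j') := by
      intro j j'
      rw [pow_two, sum_mul_sum]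
    simp_rw [h3]
    calc ∑ a ∈ Y, ∑ b ∈ Y, ∑ j, ∑ j', (x a j * x a j') * (x b j * x b j')
        = ∑ a ∈ Y, ∑ j, ∑ b ∈ Y, ∑ j', (x a j * x a j') * (x b j * x b j') := by
          apply sum_congr rfl; intro a _; rw [sum_comm]
      _ = ∑ j, ∑ a ∈ Y, ∑ b ∈ Y, ∑ j', (x a j * x a j') * (x b j * x b j') := by rw [sum_comm]
      _ = ∑ j, ∑ a ∈ Y, ∑ j', ∑ b ∈ Y, (x a j * x a j') * (x b j * x b j') := by
          apply sum_congr rfl; intro j _; apply sum_congr rfl; intro a _; rw [sum_comm]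
      _ = ∑ j, ∑ j', ∑ a ∈ Y, ∑ b ∈ Y, (x a j * x a j') * (x b j * x b j') := by
          apply sum_congr rfl; intro j _; rw [sum_comm]
  have h4 : n * (Y.card:ℝ) ^ 2 ≤ ∑ j, ∑ j', (∑ a ∈ Y, x a j * x a j') ^ 2 := by
    have h5 : ∀ j, (Y.card : ℝ)^2 ≤ ∑ j', (∑ a ∈ Y, x a j * x a j') ^ 2 := by
      intro j
      have h6 : (∑ a ∈ Y, x a j * x a j) = Y.card := by
        have : ∀ a ∈ Y, x a j * x a j = 1 := fun a _ => by
          rcases hx a j with h | h <;> rw [h] <;> norm_num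
        rw [sum_congr rfl this]; simp
      calc (Y.card : ℝ)^2 = (∑ a ∈ Y, x a j * x a j) ^ 2 := by rw [h6]
        _ ≤ ∑ j', (∑ a ∈ Y, x a j * x a j') ^ 2 :=
          single_le_sum (f := fun j' => (∑ a ∈ Y, x a j * x a j') ^ 2) (fun _ _ => sq_nonneg _) (mem_univ j)
    calc n * (Y.card:ℝ)^2 = ∑ j : Ω, (Y.card:ℝ)^2 := by rw [sum_const, card_univ, nsmul_eq_mul]
      _ ≤ _ := sum_le_sum fun j _ => h5 j
  rw [h2]
  rw [mul_div_assoc', le_div_iff₀ (by positivity)]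
  nlinarith

end kernels

end Pool.Agent.LibMP92436f
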