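import Pool.Agent.Lib_MP_92436f_lc.GS2

set_option autoImplicit false
set_option linter.unusedSectionVars false

namespace Pool.Agent.LibMP92436f

open Finset

open Classical in
lemma greedy {ι : Type} (L : ℕ) {p : ℝ} (hp : 0 < p) (hp1 : p ≤ 1) (Y : Finset ι)
    (hY : Y.Nonempty)
    (Rl : (ℕ → ι) → ℕ → ι → Prop)
    (hR : ∀ y y' t b, (∀ l ≤ t, y l = y' l) → Rl y t b → Rl y' t b)
    (hdens : ∀ t < L, ∀ y : ℕ → ι, ∀ Z ⊆ Y, (p/2)^L * (Y.card:ℝ) ≤ Z.card →
      p * (Z.card:ℝ)^2 ≤ ∑ a ∈ Z, ∑ b ∈ Z, if Rl (Function.update y t a) t b then (1:ℝ) else 0)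
    (hcard : 2/p ≤ (p/2)^L * (Y.card:ℝ)) :
    ∃ y : ℕ → ι, (∀ t < L, y t ∈ Y) ∧ ∀ i j, i < j → j < L → Rl y i (y j) ∧ y i ≠ y j := by
  have key : ∀ t ≤ L, ∃ (y : ℕ → ι) (Z : Finset ι), Z ⊆ Y ∧ (p/2)^t * (Y.card:ℝ) ≤ Z.card ∧
      (∀ i < t, y i ∈ Y) ∧ (∀ i < t, ∀ b ∈ Z, Rl y i b ∧ y i ≠ b) ∧
      (∀ i j, i < j → j < t → Rl y i (y j) ∧ y i ≠ y j) := by
    intro t
    induction t with
    | zero =>
      intro _
      obtain ⟨y0, _⟩ := hY
      exact ⟨fun _ => y0, Y, Subset.refl _, by simp, fun i hi => by omega, fun i hi => by omega,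
        fun i j _ hj => by omega⟩
    | succ t ih =>
      intro ht
      obtain ⟨y, Z, hZY, hZc, h1, h2, h3⟩ := ih (by omega)
      have hYc : (0:ℝ) < Y.card := by exact_mod_cast hY.card_pos
      have hZc2 : (p/2)^L * (Y.card:ℝ) ≤ Z.card := by
        refine le_trans ?_ hZc
        apply mul_le_mul_of_nonneg_right _ hYc.le
        exact pow_le_pow_of_le_one (by positivity) (by linarith) (by omega)
      have hZbig : 2/p ≤ Z.card := hcard.trans hZc2
      have hZpos : (0:ℝ) < Z.card := lt_of_lt_of_le (by positivity) hZbig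
      have hZne : Z.Nonempty := card_pos.mp (by exact_mod_cast hZpos)
      have hd := hdens t (by omega) y Z hZY hZc2
      have hd' : ∑ a ∈ Z, p * (Z.card:ℝ) ≤
          ∑ a ∈ Z, ∑ b ∈ Z, if Rl (Function.update y t a) t b then (1:ℝ) else 0 := by
        rw [sum_const, nsmul_eq_mul]
        refine le_trans (le_of_eq ?_) hd
        ring
      obtain ⟨a, haZ, ha⟩ := exists_le_of_sum_le hZne hd'
      set y' := Function.update y t a with hy'
      set Z' := Z.filter (fun b => Rl y' t b ∧ a ≠ b) with hZ'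
      have hy't : y' t = a := by rw [hy', Function.update_self]
      have hy'l : ∀ l, l ≠ t → y' l = y l := fun l hl => by rw [hy', Function.update_of_ne hl]
      have hcount : p * (Z.card:ℝ) ≤ (Z.filter (fun b => Rl y' t b)).card := by
        refine ha.trans (le_of_eq ?_)
        rw [sum_boole]
      have hcount2 : ((Z.filter (fun b => Rl y' t b)).card : ℝ) ≤ Z'.card + 1 := by
        have : Z.filter (fun b => Rl y' t b) ⊆ insert a Z' := by
          intro b hb
          rw [mem_filter] at hb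
          by_cases hab : a = b
          · rw [hab]; exact mem_insert_self _ _
          · apply mem_insert_of_mem
            rw [hZ', mem_filter]
            exact ⟨hb.1, hb.2, hab⟩
        have h5 := (card_le_card this).trans (card_insert_le _ _)
        exact_mod_cast h5
      refine ⟨y', Z', (filter_subset _ _).trans hZY, ?_, ?_, ?_, ?_⟩
      · have h6 : 1 ≤ p / 2 * Z.card := by
          rw [div_le_iff₀ hp] at hZbig
          linarith
        rw [pow_succ]
        calc (p/2)^t * (p/2) * (Y.card:ℝ) = (p/2) * ((p/2)^t * (Y.card:ℝ)) := by ring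
          _ ≤ (p/2) * Z.card := by gcongr
          _ ≤ Z'.card := by linarith
      · intro i hi
        by_cases hit : i = t
        · rw [hit, hy't]; exact hZY haZ
        · rw [hy'l i hit]; exact h1 i (by omega)
      · intro i hi b hb
        rw [hZ', mem_filter] at hb
        by_cases hit : i = t
        · rw [hit]
          exact ⟨hb.2.1, by rw [hy't]; exact hb.2.2⟩
        · obtain ⟨h7, h8⟩ := h2 i (by omega) b hb.1
          refine ⟨hR y y' i b (fun l hl => (hy'l l (by omega)).symm) h7, ?_⟩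
          rw [hy'l i hit]; exact h8
      · intro i j hij hj
        have hit : i ≠ t := by omega
        by_cases hjt : j = t
        · rw [hjt, hy't]
          obtain ⟨h7, h8⟩ := h2 i (by omega) a haZ
          refine ⟨hR y y' i a (fun l hl => (hy'l l (by omega)).symm) h7, ?_⟩
          rw [hy'l i hit]; exact h8
        · obtain ⟨h7, h8⟩ := h3 i j hij (by omega)
          rw [hy'l j hjt, hy'l i hit]
          exact ⟨hR y y' i _ (fun l hl => (hy'l l (by omega)).symm) h7, h8⟩
  obtain ⟨y, Z, _, _, h1, _, h3⟩ := key L le_rfl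
  exact ⟨y, h1, h3⟩

section sub

variable {Ω : Type} [Fintype Ω] {ι : Type}

/-- robust subset: every subset keeps a quarter of the second moment -/
lemma robust_subset (x : ι → Ω → ℝ) {Y : Finset ι} (hY : Y.Nonempty) {D : ℝ} (hD : 0 < D)
    (hQ : ∑ a ∈ Y, ∑ b ∈ Y, phi x a b ^ 2 = D^2 * (Y.card:ℝ)^2) {B : ℝ}
    (h6 : ∑ a ∈ Y, ∑ b ∈ Y, phi x a b ^ 6 ≤ B * D^6 * (Y.card:ℝ)^2) :
    ∃ Y2 ⊆ Y, Y2.Nonempty ∧ (Y.card:ℝ) ≤ B * Y2.card ∧
      ∀ Z ⊆ Y2, D^2/4 * (Z.card:ℝ)^2 ≤ ∑ a ∈ Z, ∑ b ∈ Z, phi x a b ^ 2 := by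
  classical
  set Q : Finset ι → ℝ := fun Z => ∑ a ∈ Z, ∑ b ∈ Z, phi x a b ^ 2 with hQd
  have hQn : ∀ Z, 0 ≤ Q Z := fun Z => sum_nonneg fun _ _ => sum_nonneg fun _ _ => sq_nonneg _
  obtain ⟨Y2, hY2m, hmax⟩ := exists_max_image (Y.powerset.filter Finset.Nonempty)
    (fun Z => Q Z / Z.card) ⟨Y, by simp [hY]⟩
  rw [mem_filter, mem_powerset] at hY2m
  obtain ⟨hY2, hY2n⟩ := hY2m
  have hYc : (0:ℝ) < Y.card := by exact_mod_cast hY.card_pos
  have hY2c : (0:ℝ) < Y2.card := by exact_mod_cast hY2n.card_pos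
  have hmax' : ∀ Z ⊆ Y2, Z.Nonempty → Q Z * Y2.card ≤ Q Y2 * Z.card := by
    intro Z hZ hZn
    have h1 := hmax Z (by rw [mem_filter, mem_powerset]; exact ⟨hZ.trans hY2, hZn⟩)
    have hZc : (0:ℝ) < Z.card := by exact_mod_cast hZn.card_pos
    rwa [div_le_div_iff₀ hZc hY2c] at h1
  have h1 : D^2 * Y.card * Y2.card ≤ Q Y2 := by
    have h2 := hmax Y (by rw [mem_filter, mem_powerset]; exact ⟨Subset.refl _, hY⟩)
    have h3 : Q Y / Y.card = D^2 * Y.card := by
      rw [hQd]; dsimp only; rw [hQ]; field_simp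
    rw [h3, le_div_iff₀ hY2c] at h2
    exact h2
  have hle : (Y2.card:ℝ) ≤ Y.card := by exact_mod_cast card_le_card hY2
  refine ⟨Y2, hY2, hY2n, ?_, ?_⟩
  · -- power mean
    have h2 : Q Y2 ^ 3 / ((Y2.card:ℝ)^2)^2 ≤ ∑ a ∈ Y2, ∑ b ∈ Y2, phi x a b ^ 6 := by
      have h3 := pow_sum_div_card_le_sum_pow (s := Y2 ×ˢ Y2) (f := fun p => phi x p.1 p.2 ^ 2)
        (fun _ _ => sq_nonneg _) 2
      rw [sum_product, sum_product, card_product] at h3
      push_cast at h3
      have e1 : ((Y2.card:ℝ) * Y2.card)^2 = ((Y2.card:ℝ)^2)^2 := by ring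
      rw [e1] at h3
      refine h3.trans (le_of_eq ?_)
      apply sum_congr rfl; intro a _
      apply sum_congr rfl; intro b _
      ring
    have h4 : ∑ a ∈ Y2, ∑ b ∈ Y2, phi x a b ^ 6 ≤ ∑ a ∈ Y, ∑ b ∈ Y, phi x a b ^ 6 := by
      have hnn : ∀ a b, 0 ≤ phi x a b ^ 6 := fun a b => Even.pow_nonneg (by decide) _
      calc _ ≤ ∑ a ∈ Y2, ∑ b ∈ Y, phi x a b ^ 6 :=
            sum_le_sum fun a _ => sum_le_sum_of_subset_of_nonneg hY2 fun b _ _ => hnn a b
        _ ≤ _ := sum_le_sum_of_subset_of_nonneg hY2 fun a _ _ => sum_nonneg fun b _ => hnn a b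
    rw [div_le_iff₀ (by positivity)] at h2
    have h5 : Q Y2 ^ 3 ≤ B * D^6 * (Y.card:ℝ)^2 * ((Y2.card:ℝ)^2)^2 :=
      h2.trans (mul_le_mul_of_nonneg_right (h4.trans h6) (by positivity))
    have h7 : (D^2 * Y.card * Y2.card)^3 ≤ Q Y2 ^ 3 := pow_le_pow_left₀ (by positivity) h1 3
    have h8 : (D^6 * (Y.card:ℝ)^2 * (Y2.card:ℝ)^3) * Y.card ≤
        (D^6 * (Y.card:ℝ)^2 * (Y2.card:ℝ)^3) * (B * Y2.card) := by
      calc _ = (D^2 * Y.card * Y2.card)^3 := by ring
        _ ≤ _ := h7.trans h5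
        _ = _ := by ring
    exact le_of_mul_le_mul_left h8 (by positivity)
  · intro Z hZ
    rcases Z.eq_empty_or_nonempty with rfl | hZn
    · simp
    have hZc : (0:ℝ) < Z.card := by exact_mod_cast hZn.card_pos
    have hZle : (Z.card:ℝ) ≤ Y2.card := by exact_mod_cast card_le_card hZ
    have hQ2pos : 0 < Q Y2 := lt_of_lt_of_le (by positivity) h1
    -- quarter bound
    have key : Q Y2 * (Z.card:ℝ)^2 ≤ 4 * Q Z * (Y2.card:ℝ)^2 := by
      set W := Y2 \ Z with hW
      have hcs := ((phi_gram x).pow 2).cs Z W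
      have hsplit : Q Y2 = Q Z + 2 * (∑ a ∈ Z, ∑ b ∈ W, phi x a b ^ 2) + Q W := by
        have e0 : ∀ f : ι → ℝ, ∑ a ∈ Y2, f a = ∑ a ∈ Z, f a + ∑ a ∈ W, f a := by
          intro f
          rw [hW, add_comm, sum_sdiff hZ]
        have e1 : ∑ a ∈ W, ∑ b ∈ Z, phi x a b ^ 2 = ∑ a ∈ Z, ∑ b ∈ W, phi x a b ^ 2 := by
          rw [sum_comm]
          apply sum_congr rfl; intro a _
          apply sum_congr rfl; intro b _
          rw [phi_comm]
        simp only [hQd]
        rw [e0]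
        simp_rw [e0]
        rw [sum_add_distrib, sum_add_distrib, e1]
        ring
      set T := ∑ a ∈ Z, ∑ b ∈ W, phi x a b ^ 2 with hT
      have hT0 : 0 ≤ T := sum_nonneg fun _ _ => sum_nonneg fun _ _ => sq_nonneg _
      have hcs' : T^2 ≤ Q Z * Q W := hcs
      have hWc : (W.card:ℝ) = Y2.card - Z.card := by
        rw [hW, card_sdiff_of_subset hZ, Nat.cast_sub (card_le_card hZ)]
      have hWle : Q W * Y2.card ≤ Q Y2 * (Y2.card - Z.card) := by
        rcases W.eq_empty_or_nonempty with hWe | hWn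
        · have : Q W = 0 := by rw [hWe]; simp [hQd]
          rw [this, zero_mul]
          exact mul_nonneg hQ2pos.le (by linarith)
        · have := hmax' W sdiff_subset hWn
          rwa [hWc] at this
      -- square roots
      set z := Real.sqrt (Q Z) with hz
      set ww := Real.sqrt (Q W) with hww
      set s := Real.sqrt (Q Y2) with hs
      have z2 : z^2 = Q Z := Real.sq_sqrt (hQn _)
      have w2 : ww^2 = Q W := Real.sq_sqrt (hQn _)
      have s2 : s^2 = Q Y2 := Real.sq_sqrt (hQn _)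
      have z0 : 0 ≤ z := Real.sqrt_nonneg _
      have w0 : 0 ≤ ww := Real.sqrt_nonneg _
      have s0 : 0 < s := Real.sqrt_pos.mpr hQ2pos
      have hTle : T ≤ z * ww := by
        apply le_of_sq_le_sq _ (by positivity) |> fun h => h
        calc T^2 ≤ Q Z * Q W := hcs'
          _ = (z*ww)^2 := by rw [mul_pow, z2, w2]
      have hsle : s ≤ z + ww := by
        apply le_of_sq_le_sq _ (by positivity) |> fun h => h
        calc s^2 = Q Z + 2 * T + Q W := by rw [s2, hsplit]
          _ ≤ z^2 + 2 * (z*ww) + ww^2 := by rw [z2, w2]; linarith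
          _ = (z+ww)^2 := by ring
      -- let ze = |Z|/|Y2|
      set ze := (Z.card:ℝ) / Y2.card with hze
      have hze0 : 0 ≤ ze := by positivity
      have hze1 : ze ≤ 1 := by rw [hze, div_le_one hY2c]; exact hZle
      have hw3 : ww^2 ≤ s^2 * (1 - ze) := by
        rw [w2, s2]
        have : Q Y2 * (1 - ze) = Q Y2 * (Y2.card - Z.card) / Y2.card := by
          rw [hze]; field_simp
        rw [this, le_div_iff₀ hY2c]
        exact hWle
      have hzle : s * ze / 2 ≤ z := by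
        by_contra hcon
        rw [not_le] at hcon
        have h9 : s * (1 - ze/2) < ww := by linarith
        have h10 : (s * (1 - ze/2))^2 < ww^2 := by
          apply pow_lt_pow_left₀ h9 _ two_ne_zero
          apply mul_nonneg s0.le; linarith
        have h11 : s^2 * (1 - ze) ≤ (s * (1 - ze/2))^2 := by
          have : (s * (1 - ze/2))^2 = s^2 * (1 - ze) + s^2 * (ze^2/4) := by ring
          rw [this]
          have : 0 ≤ s^2 * (ze^2/4) := by positivity
          linarith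
        linarith
      have h12 : s^2 * ze^2 ≤ 4 * z^2 := by
        have : (s * ze / 2)^2 ≤ z^2 := pow_le_pow_left₀ (by positivity) hzle 2
        nlinarith
      rw [s2, z2, hze, div_pow, mul_div_assoc', div_le_iff₀ (by positivity)] at h12
      exact h12
    have h13 : D^2 * Y2.card * Y2.card ≤ Q Y2 := by
      refine le_trans ?_ h1
      gcongr
    have h14 : (D^2/4 * (Z.card:ℝ)^2) * (4 * (Y2.card:ℝ)^2) ≤ Q Z * (4 * (Y2.card:ℝ)^2) := by
      calc (D^2/4 * (Z.card:ℝ)^2) * (4 * (Y2.card:ℝ)^2) = (D^2 * Y2.card * Y2.card) * (Z.card:ℝ)^2 := by ring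
        _ ≤ Q Y2 * (Z.card:ℝ)^2 := by gcongr
        _ ≤ 4 * Q Z * (Y2.card:ℝ)^2 := key
        _ = _ := by ring
    exact le_of_mul_le_mul_right h14 (by positivity)

end sub

end Pool.Agent.LibMP92436f
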