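import Pool.Agent.Lib_MP_92436f_lc.EL

set_option autoImplicit false
set_option linter.unusedSectionVars false

namespace Pool.Agent.LibMP92436f

open Finset

lemma markov {ι : Type} (Y : Finset ι) (f : ι → ℝ) (hf : ∀ a ∈ Y, 0 ≤ f a) (T : ℝ)
    (p : ι → Prop) [DecidablePred p] (hp : ∀ a ∈ Y, p a → T ≤ f a) :
    T * ((Y.filter p).card : ℝ) ≤ ∑ a ∈ Y, f a := by
  calc T * ((Y.filter p).card : ℝ) = ∑ a ∈ Y.filter p, T := by rw [sum_const, nsmul_eq_mul]; ring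
    _ ≤ ∑ a ∈ Y.filter p, f a := sum_le_sum fun a ha => by
        rw [mem_filter] at ha; exact hp a ha.1 ha.2
    _ ≤ ∑ a ∈ Y, f a := sum_le_sum_of_subset_of_nonneg (filter_subset _ _) fun a ha _ => hf a ha

section

variable {Ω : Type} [Fintype Ω] {ι : Type}

noncomputable def gg (x : ι → Ω → ℝ) (e : ℕ) (a b : ι) : ℝ := (max (phi x a b) 0) ^ e

noncomputable def SS (x : ι → Ω → ℝ) (e : ℕ) (Y : Finset ι) : ℝ := ∑ a ∈ Y, ∑ b ∈ Y, gg x e a b

noncomputable def ms (x : ι → Ω → ℝ) (e : ℕ) (H Y : Finset ι) : ℝ := ∑ a ∈ H, ∑ b ∈ Y, gg x e a b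

noncomputable def V3 (x : ι → Ω → ℝ) (Y : Finset ι) (a b c : ι) : ℝ :=
  Vs x Y (fun j => x a j * x b j * x c j)

noncomputable def t4 (x : ι → Ω → ℝ) (a b c d : ι) : ℝ := ex (fun j => x a j * x b j * x c j * x d j)

lemma gg_nonneg (x : ι → Ω → ℝ) (e : ℕ) (a b : ι) : 0 ≤ gg x e a b :=
  pow_nonneg (le_max_right _ _) _

lemma gg_comm (x : ι → Ω → ℝ) (e : ℕ) (a b : ι) : gg x e a b = gg x e b a := by
  unfold gg; rw [phi_comm]

lemma gg_le_one {x : ι → Ω → ℝ} (hx : Signs x) (e : ℕ) (a b : ι) : gg x e a b ≤ 1 :=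
  pow_le_one₀ (le_max_right _ _) (max_le (abs_le.mp (abs_phi_le hx a b)).2 zero_le_one)

lemma ms_nonneg (x : ι → Ω → ℝ) (e : ℕ) (H Y : Finset ι) : 0 ≤ ms x e H Y :=
  sum_nonneg fun _ _ => sum_nonneg fun _ _ => gg_nonneg _ _ _ _

lemma V3_nonneg (x : ι → Ω → ℝ) (Y : Finset ι) (a b c : ι) : 0 ≤ V3 x Y a b c := Vs_nonneg _ _ _

lemma sum_V3_le {x : ι → Ω → ℝ} (hx : Signs x) {Y : Finset ι} {D : ℝ}
    (hD : ∑ a ∈ Y, ∑ b ∈ Y, phi x a b ^ 2 ≤ D ^ 2 * (Y.card:ℝ) ^ 2) (b c : ι) :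
    ∑ a ∈ Y, V3 x Y a b c ≤ D ^ 2 * (Y.card:ℝ) ^ 2 := by
  have h := sum_Vs_le hD (h := fun j => x b j * x c j) (fun j => sign_abs (sign_mul (hx b j) (hx c j)))
  refine le_trans (le_of_eq ?_) h
  apply sum_congr rfl
  intro a _
  unfold V3
  congr 1
  funext j
  ring

lemma sum_t4_le {x : ι → Ω → ℝ} (hx : Signs x) (a b : ι) (r : ℕ) (Z : Finset ι) :
    ∑ c ∈ Z, ∑ d ∈ Z, t4 x a b c d ^ r ≤ ∑ c ∈ Z, ∑ d ∈ Z, phi x c d ^ r := by
  have h := dom x (h := fun j => x a j * x b j) (fun j => sign_abs (sign_mul (hx a j) (hx b j))) r Z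
  refine le_trans (le_of_eq ?_) h
  apply sum_congr rfl; intro c _
  apply sum_congr rfl; intro d _
  unfold t4 ker
  congr 2; funext j; ring

/-- small sets carry little mass, given the maximality property -/
lemma mass_small {x : ι → Ω → ℝ} {e : ℕ} {Y H : Finset ι} (hY : Y.Nonempty)
    (hP : (ms x e H Y)^2 * (Y.card:ℝ) ≤ 8 * H.card * (SS x e Y)^2)
    (hS : 0 ≤ SS x e Y)
    (hH : 2048 * (H.card:ℝ) ≤ Y.card) : 16 * ms x e H Y ≤ SS x e Y := by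
  have hYc : (0:ℝ) < Y.card := by exact_mod_cast hY.card_pos
  have h1 : (16 * ms x e H Y)^2 * (Y.card:ℝ) ≤ (SS x e Y)^2 * Y.card := by
    calc (16 * ms x e H Y)^2 * (Y.card:ℝ) = 256 * ((ms x e H Y)^2 * (Y.card:ℝ)) := by ring
      _ ≤ 256 * (8 * H.card * (SS x e Y)^2) := by gcongr
      _ = (2048 * (H.card:ℝ)) * (SS x e Y)^2 := by ring
      _ ≤ Y.card * (SS x e Y)^2 := by gcongr
      _ = _ := by ring
  have h2 := le_of_mul_le_mul_right h1 hYc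
  exact le_of_sq_le_sq h2 hS

/-- existence of the first pair -/
lemma first_pair [Nonempty Ω] [DecidableEq ι] {x : ι → Ω → ℝ} (hx : Signs x) {Y : Finset ι} (hY : Y.Nonempty)
    {D : ℝ} (hD0 : 0 < D) (hD : ∑ a ∈ Y, ∑ b ∈ Y, phi x a b ^ 2 = D ^ 2 * (Y.card:ℝ) ^ 2)
    {e : ℕ} (he : Odd e) (he9 : 9 ≤ e) {κ : ℝ} (hκ0 : 0 < κ) (hκ1 : κ ≤ 1)
    (hSκ : κ^(e+1) * (Y.card:ℝ)^2 ≤ 2 * SS x e Y) (hYκ : 128 ≤ κ^(e+5) * Y.card)
    (hP : ∀ H ⊆ Y, (ms x e H Y)^2 * (Y.card:ℝ) ≤ 8 * H.card * (SS x e Y)^2)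
    {A : ℝ} (hA : 0 < A) (hG : (A*D)^e * (Y.card:ℝ)^2 ≤ 2 * SS x e Y) :
    ∃ Ys ⊆ Y, ∃ a0 ∈ Ys, ∃ a1 ∈ Ys, a0 ≠ a1 ∧
      (∀ b ∈ Ys, ∀ c ∈ Ys, b ≠ c → phi x b c ≤ phi x a0 a1) ∧
      (∀ a ∈ Ys, Vs x Y (x a) ≤ 128^2 * D^2 * Y.card) ∧
      (∀ a ∈ Ys, ∑ b ∈ Y, ∑ c ∈ Y, gg x e b c * V3 x Y a b c ≤ 128^2 * D^2 * Y.card * SS x e Y) ∧
      8192 * ((Y \ Ys).card : ℝ) ≤ Y.card ∧
      A * D / 2 ≤ phi x a0 a1 ∧ (Y.card:ℝ) ≤ (phi x a0 a1)^2 * SS x e Y ∧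
      64 * (Y.card:ℝ) ≤ SS x e Y := by
  have hYc : (0:ℝ) < Y.card := by exact_mod_cast hY.card_pos
  set S := SS x e Y with hS
  have hSpos : 0 < S := by
    have : 0 < κ^(e+1) * (Y.card:ℝ)^2 := by positivity
    linarith
  have hY64 : 64 * (Y.card:ℝ) ≤ S := by
    have h1 : κ^(e+5) ≤ κ^(e+1) := pow_le_pow_of_le_one hκ0.le hκ1 (by omega)
    have h2 : 128 * (Y.card:ℝ) ≤ κ^(e+1) * (Y.card:ℝ)^2 := by
      calc 128 * (Y.card:ℝ) ≤ (κ^(e+5) * Y.card) * Y.card := by gcongr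
        _ ≤ (κ^(e+1) * Y.card) * Y.card := by gcongr
        _ = _ := by ring
    linarith
  set B1 := Y.filter (fun a => 128^2 * D^2 * (Y.card:ℝ) < Vs x Y (x a)) with hB1
  set B2 := Y.filter (fun a => 128^2 * D^2 * (Y.card:ℝ) * S <
    ∑ b ∈ Y, ∑ c ∈ Y, gg x e b c * V3 x Y a b c) with hB2
  have hB1c : 16384 * (B1.card:ℝ) ≤ Y.card := by
    have h1 := markov Y (fun a => Vs x Y (x a)) (fun a _ => Vs_nonneg _ _ _)
      (128^2 * D^2 * (Y.card:ℝ)) (fun a => 128^2 * D^2 * (Y.card:ℝ) < Vs x Y (x a))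
      (fun a _ h => h.le)
    have h2 : ∑ a ∈ Y, Vs x Y (x a) = D^2 * (Y.card:ℝ)^2 := hD
    rw [h2] at h1
    have h3 : (16384 * (B1.card:ℝ)) * (D^2 * Y.card) ≤ Y.card * (D^2 * Y.card) := by
      calc (16384 * (B1.card:ℝ)) * (D^2 * Y.card) = 128^2 * D^2 * (Y.card:ℝ) * B1.card := by ring
        _ ≤ D^2 * (Y.card:ℝ)^2 := h1
        _ = _ := by ring
    exact le_of_mul_le_mul_right h3 (by positivity)
  have hB2c : 16384 * (B2.card:ℝ) ≤ Y.card := by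
    have h1 := markov Y (fun a => ∑ b ∈ Y, ∑ c ∈ Y, gg x e b c * V3 x Y a b c)
      (fun a _ => sum_nonneg fun b _ => sum_nonneg fun c _ =>
        mul_nonneg (gg_nonneg _ _ _ _) (V3_nonneg _ _ _ _ _))
      (128^2 * D^2 * (Y.card:ℝ) * S) (fun a => 128^2 * D^2 * (Y.card:ℝ) * S <
        ∑ b ∈ Y, ∑ c ∈ Y, gg x e b c * V3 x Y a b c)
      (fun a _ h => h.le)
    have h2 : ∑ a ∈ Y, ∑ b ∈ Y, ∑ c ∈ Y, gg x e b c * V3 x Y a b c ≤ S * (D^2 * (Y.card:ℝ)^2) := by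
      rw [sum_comm]
      have : S * (D^2 * (Y.card:ℝ)^2) = ∑ b ∈ Y, ∑ c ∈ Y, gg x e b c * (D^2 * (Y.card:ℝ)^2) := by
        rw [hS]; unfold SS; rw [sum_mul]; apply sum_congr rfl; intro b _; rw [sum_mul]
      rw [this]
      apply sum_le_sum; intro b _
      rw [sum_comm]
      apply sum_le_sum; intro c _
      rw [← mul_sum]
      exact mul_le_mul_of_nonneg_left (sum_V3_le hx hD.le b c) (gg_nonneg _ _ _ _)
    have h3 : (16384 * (B2.card:ℝ)) * (D^2 * Y.card * S) ≤ Y.card * (D^2 * Y.card * S) := by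
      calc (16384 * (B2.card:ℝ)) * (D^2 * Y.card * S) = 128^2 * D^2 * (Y.card:ℝ) * S * B2.card := by ring
        _ ≤ S * (D^2 * (Y.card:ℝ)^2) := h1.trans h2
        _ = _ := by ring
    exact le_of_mul_le_mul_right h3 (by positivity)
  set H := B1 ∪ B2 with hH
  have hHY : H ⊆ Y := union_subset (filter_subset _ _) (filter_subset _ _)
  have hHc : 8192 * (H.card:ℝ) ≤ Y.card := by
    have h1 : (H.card:ℝ) ≤ B1.card + B2.card := by exact_mod_cast card_union_le _ _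
    linarith
  set Ys := Y \ H with hYs
  have hYsY : Ys ⊆ Y := sdiff_subset
  have hYH : Y \ Ys = H := Finset.sdiff_sdiff_eq_self hHY
  have hmass : 16 * ms x e H Y ≤ S := mass_small hY (hP H hHY) hSpos.le (by
    have : (0:ℝ) ≤ H.card := by positivity
    linarith)
  set Ss := ∑ a ∈ Ys, ∑ b ∈ Ys, gg x e a b with hSs
  have hSsS : Ss ≤ S := by
    calc Ss ≤ ∑ a ∈ Ys, ∑ b ∈ Y, gg x e a b :=
          sum_le_sum fun a _ => sum_le_sum_of_subset_of_nonneg hYsY fun b _ _ => gg_nonneg _ _ _ _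
      _ ≤ S := sum_le_sum_of_subset_of_nonneg hYsY fun a _ _ => sum_nonneg fun b _ => gg_nonneg _ _ _ _
  have hSsge : 7 / 8 * S ≤ Ss := by
    have e0 : ∀ f : ι → ℝ, ∑ a ∈ Y, f a = ∑ a ∈ Ys, f a + ∑ a ∈ H, f a := by
      intro f
      rw [hYs, sum_sdiff hHY]
    have h1 : S = Ss + ∑ a ∈ Ys, ∑ b ∈ H, gg x e a b + ms x e H Y := by
      rw [hS]
      unfold SS
      rw [e0]
      have : ∑ a ∈ Ys, ∑ b ∈ Y, gg x e a b = ∑ a ∈ Ys, (∑ b ∈ Ys, gg x e a b + ∑ b ∈ H, gg x e a b) :=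
        sum_congr rfl fun a _ => e0 _
      rw [this, sum_add_distrib]
      rfl
    have h2 : ∑ a ∈ Ys, ∑ b ∈ H, gg x e a b ≤ ms x e H Y := by
      rw [sum_comm]
      unfold ms
      apply sum_le_sum; intro b _
      calc ∑ a ∈ Ys, gg x e a b ≤ ∑ a ∈ Y, gg x e a b :=
            sum_le_sum_of_subset_of_nonneg hYsY fun a _ _ => gg_nonneg _ _ _ _
        _ = ∑ a ∈ Y, gg x e b a := sum_congr rfl fun a _ => gg_comm _ _ _ _
    linarith
  -- diagonal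
  have hdiagsum : ∑ a ∈ Ys, ∑ b ∈ Ys, (if a = b then (1:ℝ) else 0) ≤ Y.card := by
    have : ∑ a ∈ Ys, ∑ b ∈ Ys, (if a = b then (1:ℝ) else 0) = Ys.card := by
      rw [card_eq_sum_ones, Nat.cast_sum]
      apply sum_congr rfl; intro a ha
      rw [sum_ite_eq]; simp [ha]
    rw [this]
    exact_mod_cast card_le_card hYsY
  have hne : Ys.offDiag.Nonempty := by
    by_contra hcon
    rw [not_nonempty_iff_eq_empty] at hcon
    have h1 : Ss ≤ Y.card := by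
      refine le_trans ?_ hdiagsum
      apply sum_le_sum; intro a ha
      apply sum_le_sum; intro b hb
      by_cases hab : a = b
      · rw [if_pos hab]; exact gg_le_one hx e a b
      · exfalso
        have : (a, b) ∈ Ys.offDiag := by rw [mem_offDiag]; exact ⟨ha, hb, hab⟩
        rw [hcon] at this
        simp at this
    linarith
  obtain ⟨⟨a0, a1⟩, hpair, hmax⟩ := exists_max_image Ys.offDiag (fun p => phi x p.1 p.2) hne
  rw [mem_offDiag] at hpair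
  obtain ⟨ha0, ha1, hne01⟩ := hpair
  have hmax' : ∀ b ∈ Ys, ∀ c ∈ Ys, b ≠ c → phi x b c ≤ phi x a0 a1 := fun b hb c hc hbc =>
    hmax (b, c) (by rw [mem_offDiag]; exact ⟨hb, hc, hbc⟩)
  set u := phi x a0 a1 with hu
  have hSsle : Ss ≤ Y.card + (max u 0)^e * (Y.card:ℝ)^2 := by
    have h1 : Ss ≤ ∑ a ∈ Ys, ∑ b ∈ Ys, ((if a = b then (1:ℝ) else 0) + (max u 0)^e) := by
      apply sum_le_sum; intro a ha
      apply sum_le_sum; intro b hb
      by_cases hab : a = b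
      · rw [if_pos hab]
        have := gg_le_one hx e a b
        have : 0 ≤ (max u 0)^e := pow_nonneg (le_max_right _ _) _
        linarith
      · rw [if_neg hab, zero_add]
        unfold gg
        apply pow_le_pow_left₀ (le_max_right _ _)
        exact max_le_max (hmax' a ha b hb hab) le_rfl
    refine h1.trans ?_
    simp_rw [sum_add_distrib]
    have h2 : ∑ _a ∈ Ys, ∑ _b ∈ Ys, (max u 0)^e ≤ (max u 0)^e * (Y.card:ℝ)^2 := by
      simp only [sum_const, nsmul_eq_mul]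
      have h3 : (Ys.card:ℝ) ≤ Y.card := by exact_mod_cast card_le_card hYsY
      have : 0 ≤ (max u 0)^e := pow_nonneg (le_max_right _ _) _
      calc (Ys.card:ℝ) * (Ys.card * (max u 0)^e) = (max u 0)^e * (Ys.card:ℝ)^2 := by ring
        _ ≤ _ := by gcongr
    linarith
  have hukey : 3/4 * S ≤ (max u 0)^e * (Y.card:ℝ)^2 := by linarith
  have hupos : 0 < u := by
    by_contra hcon
    rw [not_lt] at hcon
    rw [max_eq_right hcon, zero_pow (by omega)] at hukey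
    linarith
  rw [max_eq_left hupos.le] at hukey
  have hhalf : (1/2:ℝ)^e ≤ 3/8 := by
    calc (1/2:ℝ)^e ≤ (1/2)^2 := pow_le_pow_of_le_one (by norm_num) (by norm_num) (by omega)
      _ ≤ 3/8 := by norm_num
  have hY2pos : 0 < (Y.card:ℝ)^2 := by positivity
  have huAD : A * D / 2 ≤ u := by
    have h1 : (A * D / 2)^e * (Y.card:ℝ)^2 ≤ u^e * (Y.card:ℝ)^2 := by
      calc (A * D / 2)^e * (Y.card:ℝ)^2 = (1/2)^e * ((A*D)^e * (Y.card:ℝ)^2) := by
            rw [div_eq_mul_one_div, mul_pow (A*D)]; ring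
        _ ≤ 3/8 * (2 * S) := by
            apply mul_le_mul hhalf hG (by positivity) (by norm_num)
        _ = 3/4 * S := by ring
        _ ≤ _ := hukey
    exact le_of_pow_le_pow_left₀ (by omega) hupos.le (le_of_mul_le_mul_right h1 hY2pos)
  have huκ : κ^2 / 2 ≤ u := by
    have h1 : (κ^2 / 2)^e * (Y.card:ℝ)^2 ≤ u^e * (Y.card:ℝ)^2 := by
      have h2 : (κ^2)^e ≤ κ^(e+1) := by
        rw [← pow_mul]
        exact pow_le_pow_of_le_one hκ0.le hκ1 (by omega)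
      calc (κ^2 / 2)^e * (Y.card:ℝ)^2 = (1/2)^e * ((κ^2)^e * (Y.card:ℝ)^2) := by
            rw [div_eq_mul_one_div, mul_pow (κ^2)]; ring
        _ ≤ 3/8 * (κ^(e+1) * (Y.card:ℝ)^2) := by
            apply mul_le_mul hhalf _ (by positivity) (by norm_num)
            gcongr
        _ ≤ 3/8 * (2 * S) := by gcongr
        _ = 3/4 * S := by ring
        _ ≤ _ := hukey
    exact le_of_pow_le_pow_left₀ (by omega) hupos.le (le_of_mul_le_mul_right h1 hY2pos)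
  refine ⟨Ys, hYsY, a0, ha0, a1, ha1, hne01, hmax', ?_, ?_, ?_, huAD, ?_, hY64⟩
  · intro a ha
    by_contra hcon
    rw [not_le] at hcon
    rw [hYs, mem_sdiff] at ha
    apply ha.2
    rw [hH, mem_union]; left
    rw [hB1, mem_filter]
    exact ⟨ha.1, hcon⟩
  · intro a ha
    by_contra hcon
    rw [not_le] at hcon
    rw [hYs, mem_sdiff] at ha
    apply ha.2
    rw [hH, mem_union]; right
    rw [hB2, mem_filter]
    exact ⟨ha.1, hcon⟩
  · rw [hYH]; exact hHc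
  · have h1 : (κ^2/2)^2 ≤ u^2 := pow_le_pow_left₀ (by positivity) huκ 2
    have h2 : (Y.card:ℝ) * 8 ≤ κ^(e+5) * (Y.card:ℝ)^2 := by
      calc (Y.card:ℝ) * 8 ≤ (Y.card:ℝ) * (κ^(e+5) * Y.card) := by gcongr; linarith
        _ = _ := by ring
    have h3 : κ^(e+5) * (Y.card:ℝ)^2 ≤ 8 * (u^2 * S) := by
      calc κ^(e+5) * (Y.card:ℝ)^2 = κ^4 * (κ^(e+1) * (Y.card:ℝ)^2) := by ring
        _ ≤ κ^4 * (2 * S) := by gcongr
        _ = 8 * ((κ^2/2)^2 * S) := by ring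
        _ ≤ 8 * (u^2 * S) := by gcongr
    linarith

end

end Pool.Agent.LibMP92436f
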