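import Pool.Agent.Lib_MP_92436f_lc.Growth1

set_option autoImplicit false
set_option linter.unusedSectionVars false

namespace Pool.Agent.LibMP92436f

open Finset

variable {Ω : Type} [Fintype Ω] {ι : Type}

lemma sum_diag_le [DecidableEq ι] {Y Ys : Finset ι} (h : Ys ⊆ Y) :
    ∑ a ∈ Ys, ∑ b ∈ Ys, (if a = b then (1:ℝ) else 0) ≤ Y.card := by
  have : ∑ a ∈ Ys, ∑ b ∈ Ys, (if a = b then (1:ℝ) else 0) = Ys.card := by
    rw [card_eq_sum_ones, Nat.cast_sum]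
    apply sum_congr rfl; intro a ha
    rw [sum_ite_eq]; simp [ha]
  rw [this]
  exact_mod_cast card_le_card h

lemma sub_sum_le {x : ι → Ω → ℝ} {e : ℕ} {Y Ys : Finset ι} (h : Ys ⊆ Y) :
    ∑ a ∈ Ys, ∑ b ∈ Ys, gg x e a b ≤ SS x e Y := by
  calc _ ≤ ∑ a ∈ Ys, ∑ b ∈ Y, gg x e a b :=
        sum_le_sum fun a _ => sum_le_sum_of_subset_of_nonneg h fun b _ _ => gg_nonneg _ _ _ _
    _ ≤ _ := sum_le_sum_of_subset_of_nonneg h fun a _ _ => sum_nonneg fun b _ => gg_nonneg _ _ _ _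

lemma moment_Ys [DecidableEq ι] {x : ι → Ω → ℝ} (hx : Signs x) {Y Ys : Finset ι} (hYs : Ys ⊆ Y)
    {e : ℕ} (he : Odd e) {u : ℝ} (hu : 0 < u)
    (hmax : ∀ b ∈ Ys, ∀ c ∈ Ys, b ≠ c → phi x b c ≤ u)
    (hYu : (Y.card:ℝ) ≤ u^2 * SS x e Y) :
    ∑ b ∈ Ys, ∑ c ∈ Ys, phi x b c ^ (e+1) ≤ 3 * u * SS x e Y := by
  set S := SS x e Y with hS
  have he1 : Even (e+1) := he.add_one
  have he2 : Odd (e+2) := by
    rw [Nat.odd_add]; exact ⟨fun _ => by decide, fun _ => he⟩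
  have h1 : ∑ b ∈ Ys, ∑ c ∈ Ys, |phi x b c| ^ e ≤ 2 * S :=
    (sum_abs_le x he Ys).trans (by
      have := sub_sum_le (x := x) (e := e) hYs
      unfold gg at this
      linarith)
  have h2 : ∑ b ∈ Ys, ∑ c ∈ Ys, (max (phi x b c) 0) ^ (e+2) ≤ 2 * u^2 * S := by
    have h3 : ∑ b ∈ Ys, ∑ c ∈ Ys, (max (phi x b c) 0) ^ (e+2) ≤
        ∑ b ∈ Ys, ∑ c ∈ Ys, ((if b = c then (1:ℝ) else 0) + u^2 * gg x e b c) := by
      apply sum_le_sum; intro b hb
      apply sum_le_sum; intro c hc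
      by_cases hbc : b = c
      · rw [if_pos hbc]
        have h4 : (max (phi x b c) 0) ^ (e+2) ≤ 1 := gg_le_one hx (e+2) b c
        have h5 : 0 ≤ u^2 * gg x e b c := mul_nonneg (sq_nonneg _) (gg_nonneg _ _ _ _)
        linarith
      · rw [if_neg hbc, zero_add]
        unfold gg
        have h4 : max (phi x b c) 0 ≤ u := max_le (hmax b hb c hc hbc) hu.le
        have h5 : 0 ≤ max (phi x b c) 0 := le_max_right _ _
        calc (max (phi x b c) 0) ^ (e+2) = (max (phi x b c) 0)^2 * (max (phi x b c) 0)^e := by ring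
          _ ≤ u^2 * (max (phi x b c) 0)^e := by gcongr
    refine h3.trans ?_
    simp_rw [sum_add_distrib, ← mul_sum]
    have h6 := sum_diag_le hYs
    have h7 := sub_sum_le (x := x) (e := e) hYs
    have h8 : u^2 * ∑ b ∈ Ys, ∑ c ∈ Ys, gg x e b c ≤ u^2 * S := by gcongr
    linarith
  have h3 : ∑ b ∈ Ys, ∑ c ∈ Ys, |phi x b c| ^ (e+2) ≤ 4 * u^2 * S :=
    (sum_abs_le x he2 Ys).trans (by linarith)
  have h4 : ∑ b ∈ Ys, ∑ c ∈ Ys, phi x b c ^ (e+1) ≤
      ∑ b ∈ Ys, ∑ c ∈ Ys, (u/2 * |phi x b c| ^ e + 1/(2*u) * |phi x b c| ^ (e+2)) := by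
    apply sum_le_sum; intro b _
    apply sum_le_sum; intro c _
    rw [← he1.pow_abs]
    set s := |phi x b c| with hs
    have hs0 : 0 ≤ s := abs_nonneg _
    have h5 : s ≤ u/2 + 1/(2*u) * s^2 := by
      have h6 : u/2 + 1/(2*u) * s^2 - s = (u - s)^2 / (2*u) := by field_simp; ring
      have h7 : 0 ≤ (u - s)^2 / (2*u) := by positivity
      linarith
    calc s^(e+1) = s^e * s := pow_succ _ _
      _ ≤ s^e * (u/2 + 1/(2*u) * s^2) := by gcongr
      _ = _ := by ring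
  refine h4.trans ?_
  simp_rw [sum_add_distrib, ← mul_sum]
  calc u/2 * ∑ b ∈ Ys, ∑ c ∈ Ys, |phi x b c| ^ e + 1/(2*u) * ∑ b ∈ Ys, ∑ c ∈ Ys, |phi x b c| ^ (e+2)
      ≤ u/2 * (2*S) + 1/(2*u) * (4 * u^2 * S) := by gcongr
    _ = 3 * u * S := by field_simp; ring

lemma second_pair [DecidableEq ι] {x : ι → Ω → ℝ} (hx : Signs x) {Y Ys : Finset ι} (hY : Y.Nonempty)
    {D : ℝ} (hD0 : 0 < D) (hD : ∑ a ∈ Y, ∑ b ∈ Y, phi x a b ^ 2 = D ^ 2 * (Y.card:ℝ) ^ 2)
    {e : ℕ} (he : Odd e) (he9 : 9 ≤ e) (hYs : Ys ⊆ Y) (hSpos : 0 < SS x e Y)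
    (hP : ∀ H ⊆ Y, (ms x e H Y)^2 * (Y.card:ℝ) ≤ 8 * H.card * (SS x e Y)^2)
    {A : ℝ} (hG : (A*D)^e * (Y.card:ℝ)^2 ≤ 2 * SS x e Y)
    {a0 a1 : ι} (ha0 : a0 ∈ Ys) (ha1 : a1 ∈ Ys)
    (hmax : ∀ b ∈ Ys, ∀ c ∈ Ys, b ≠ c → phi x b c ≤ phi x a0 a1)
    (hV : ∀ a ∈ Ys, Vs x Y (x a) ≤ 128^2 * D^2 * Y.card)
    (hW : ∀ a ∈ Ys, ∑ b ∈ Y, ∑ c ∈ Y, gg x e b c * V3 x Y a b c ≤ 128^2 * D^2 * Y.card * SS x e Y)
    (hcompl : 8192 * ((Y \ Ys).card : ℝ) ≤ Y.card)
    (hAu : A * D / 2 ≤ phi x a0 a1) (hYu : (Y.card:ℝ) ≤ (phi x a0 a1)^2 * SS x e Y)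
    (hY64 : 64 * (Y.card:ℝ) ≤ SS x e Y) {q : ℝ} (hq0 : 0 < q) (hqA : 8 * q ≤ A * D) :
    ∃ c ∈ Ys, ∃ d ∈ Ys, c ≠ d ∧ q ≤ phi x c d ∧
      |t4 x a0 a1 c d| ≤ phi x a0 a1 + phi x c d - q ∧
      (phi x a0 c)^2 ≤ 16384^2 * D^2 ∧ (phi x a1 c)^2 ≤ 16384^2 * D^2 ∧
      (phi x a0 d)^2 ≤ 16384^2 * D^2 ∧ (phi x a1 d)^2 ≤ 16384^2 * D^2 ∧
      V3 x Y a0 c d ≤ 16384^2 * D^2 * Y.card ∧ V3 x Y a1 c d ≤ 16384^2 * D^2 * Y.card ∧
      V3 x Y a0 a1 c ≤ 16384^2 * D^2 * Y.card ∧ V3 x Y a0 a1 d ≤ 16384^2 * D^2 * Y.card := by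
  have hYc : (0:ℝ) < Y.card := by exact_mod_cast hY.card_pos
  set S := SS x e Y with hS
  set u := phi x a0 a1 with hu
  have hu4 : 4 * q ≤ u := by linarith
  have hupos : 0 < u := by linarith
  set B3 := Y.filter (fun j => 16384^2 * D^2 * (Y.card:ℝ) < V3 x Y a0 a1 j) with hB3
  set B40 := Y.filter (fun j => 16384^2 * D^2 < (phi x a0 j)^2) with hB40
  set B41 := Y.filter (fun j => 16384^2 * D^2 < (phi x a1 j)^2) with hB41
  have hB3c : 268435456 * (B3.card:ℝ) ≤ Y.card := by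
    have h1 := markov Y (fun j => V3 x Y a0 a1 j) (fun j _ => V3_nonneg _ _ _ _ _)
      (16384^2 * D^2 * (Y.card:ℝ)) (fun j => 16384^2 * D^2 * (Y.card:ℝ) < V3 x Y a0 a1 j)
      (fun a _ h => h.le)
    have h2 : ∑ j ∈ Y, V3 x Y a0 a1 j ≤ D^2 * (Y.card:ℝ)^2 :=
      sum_Vs_le hD.le (h := fun j => x a0 j * x a1 j) (fun j => sign_abs (sign_mul (hx a0 j) (hx a1 j)))
    have h3 : (268435456 * (B3.card:ℝ)) * (D^2 * Y.card) ≤ Y.card * (D^2 * Y.card) := by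
      calc (268435456 * (B3.card:ℝ)) * (D^2 * Y.card) = 16384^2 * D^2 * (Y.card:ℝ) * B3.card := by ring
        _ ≤ D^2 * (Y.card:ℝ)^2 := h1.trans h2
        _ = _ := by ring
    exact le_of_mul_le_mul_right h3 (by positivity)
  have hB4 : ∀ a ∈ Ys, 16384 * ((Y.filter (fun j => 16384^2 * D^2 < (phi x a j)^2)).card:ℝ) ≤ Y.card := by
    intro a ha
    have h1 := markov Y (fun j => (phi x a j)^2) (fun j _ => sq_nonneg _)
      (16384^2 * D^2) (fun j => 16384^2 * D^2 < (phi x a j)^2)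
      (fun a _ h => h.le)
    have h2 : ∑ j ∈ Y, (phi x a j)^2 ≤ 128^2 * D^2 * Y.card := hV a ha
    have h3 : (16384 * ((Y.filter (fun j => 16384^2 * D^2 < (phi x a j)^2)).card:ℝ)) * (16384 * D^2)
        ≤ Y.card * (16384 * D^2) := by
      calc _ = 16384^2 * D^2 * ((Y.filter (fun j => 16384^2 * D^2 < (phi x a j)^2)).card:ℝ) := by ring
        _ ≤ 128^2 * D^2 * Y.card := h1.trans h2
        _ = _ := by ring
    exact le_of_mul_le_mul_right h3 (by positivity)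
  have hB40c := hB4 a0 ha0
  have hB41c := hB4 a1 ha1
  rw [← hB40] at hB40c
  rw [← hB41] at hB41c
  set H := ((Y \ Ys) ∪ B3) ∪ (B40 ∪ B41) with hH
  have hHY : H ⊆ Y := union_subset (union_subset sdiff_subset (filter_subset _ _))
    (union_subset (filter_subset _ _) (filter_subset _ _))
  have hHc : 2048 * (H.card:ℝ) ≤ Y.card := by
    have h1 : (H.card:ℝ) ≤ (Y \ Ys).card + B3.card + (B40.card + B41.card) := by
      have := (card_union_le ((Y \ Ys) ∪ B3) (B40 ∪ B41)).trans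
        (add_le_add (card_union_le _ _) (card_union_le _ _))
      exact_mod_cast this
    have : (0:ℝ) ≤ B3.card := by positivity
    linarith
  have hmass : 16 * ms x e H Y ≤ S := mass_small hY (hP H hHY) hSpos.le hHc
  by_contra hcon
  push Not at hcon
  set T7 : ι → ι → ℝ := fun c d => if c ∈ Ys ∧ d ∈ Ys then 4/3 * (4/7)^e / u * t4 x a0 a1 c d ^ (e+1) else 0
    with hT7
  have he1 : Even (e+1) := he.add_one
  have hT7n : ∀ c d, 0 ≤ T7 c d := by
    intro c d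
    simp only [hT7]
    split_ifs
    · exact mul_nonneg (by positivity) (he1.pow_nonneg _)
    · exact le_rfl
  set KD := 16384^2 * D^2 * (Y.card:ℝ) with hKD
  have hKDpos : 0 < KD := by positivity
  have hpoint : ∀ c ∈ Y, ∀ d ∈ Y, gg x e c d ≤
      (if c ∈ H then gg x e c d else 0) + (if d ∈ H then gg x e c d else 0) +
      gg x e c d * V3 x Y a0 c d / KD + gg x e c d * V3 x Y a1 c d / KD +
      q^e + (if c = d then (1:ℝ) else 0) + T7 c d := by
    intro c hc d hd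
    have g0 := gg_nonneg x e c d
    have n1 : 0 ≤ (if c ∈ H then gg x e c d else 0) := by split_ifs; exacts [g0, le_rfl]
    have n2 : 0 ≤ (if d ∈ H then gg x e c d else 0) := by split_ifs; exacts [g0, le_rfl]
    have n3 : 0 ≤ gg x e c d * V3 x Y a0 c d / KD :=
      div_nonneg (mul_nonneg g0 (V3_nonneg _ _ _ _ _)) hKDpos.le
    have n4 : 0 ≤ gg x e c d * V3 x Y a1 c d / KD :=
      div_nonneg (mul_nonneg g0 (V3_nonneg _ _ _ _ _)) hKDpos.le
    have n5 : 0 ≤ q^e := by positivity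
    have n6 : (0:ℝ) ≤ (if c = d then (1:ℝ) else 0) := by split_ifs <;> norm_num
    have n7 := hT7n c d
    by_cases hcH : c ∈ H
    · have : (if c ∈ H then gg x e c d else 0) = gg x e c d := if_pos hcH
      linarith
    by_cases hdH : d ∈ H
    · have : (if d ∈ H then gg x e c d else 0) = gg x e c d := if_pos hdH
      linarith
    by_cases h3 : KD < V3 x Y a0 c d
    · have : gg x e c d ≤ gg x e c d * V3 x Y a0 c d / KD := by
        rw [le_div_iff₀ hKDpos]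
        exact mul_le_mul_of_nonneg_left h3.le g0
      linarith
    by_cases h4 : KD < V3 x Y a1 c d
    · have : gg x e c d ≤ gg x e c d * V3 x Y a1 c d / KD := by
        rw [le_div_iff₀ hKDpos]
        exact mul_le_mul_of_nonneg_left h4.le g0
      linarith
    by_cases h5 : phi x c d < q
    · have : gg x e c d ≤ q^e := pow_le_pow_left₀ (le_max_right _ _) (max_le h5.le hq0.le) _
      linarith
    by_cases h6 : c = d
    · have h7 : (if c = d then (1:ℝ) else 0) = 1 := if_pos h6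
      have := gg_le_one hx e c d
      linarith
    rw [not_lt] at h3 h4 h5
    have hcYs : c ∈ Ys := by
      by_contra hcc
      exact hcH (mem_union_left _ (mem_union_left _ (mem_sdiff.mpr ⟨hc, hcc⟩)))
    have hdYs : d ∈ Ys := by
      by_contra hcc
      exact hdH (mem_union_left _ (mem_union_left _ (mem_sdiff.mpr ⟨hd, hcc⟩)))
    have nB3 : ∀ j ∈ Y, j ∉ H → V3 x Y a0 a1 j ≤ 16384^2 * D^2 * Y.card := by
      intro j hj hjH
      by_contra hcc
      rw [not_le] at hcc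
      exact hjH (mem_union_left _ (mem_union_right _ (mem_filter.mpr ⟨hj, hcc⟩)))
    have nB40 : ∀ j ∈ Y, j ∉ H → (phi x a0 j)^2 ≤ 16384^2 * D^2 := by
      intro j hj hjH
      by_contra hcc
      rw [not_le] at hcc
      exact hjH (mem_union_right _ (mem_union_left _ (mem_filter.mpr ⟨hj, hcc⟩)))
    have nB41 : ∀ j ∈ Y, j ∉ H → (phi x a1 j)^2 ≤ 16384^2 * D^2 := by
      intro j hj hjH
      by_contra hcc
      rw [not_le] at hcc
      exact hjH (mem_union_right _ (mem_union_right _ (mem_filter.mpr ⟨hj, hcc⟩)))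
    have ht : u + phi x c d - q < |t4 x a0 a1 c d| := by
      by_contra hcc
      rw [not_lt] at hcc
      have := hcon c hcYs d hdYs h6 h5 hcc (nB40 c hc hcH) (nB41 c hc hcH) (nB40 d hd hdH)
        (nB41 d hd hdH) h3 h4 (nB3 c hc hcH)
      linarith [nB3 d hd hdH]
    have hphiu : phi x c d ≤ u := hmax c hcYs d hdYs h6
    have hphi0 : 0 ≤ phi x c d := by linarith
    have ht1 : phi x c d ≤ 4/7 * |t4 x a0 a1 c d| := by linarith
    have ht2 : 1 ≤ 4/3 * |t4 x a0 a1 c d| / u := by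
      rw [le_div_iff₀ hupos]; linarith
    have hfin : gg x e c d ≤ T7 c d := by
      simp only [hT7]
      rw [if_pos ⟨hcYs, hdYs⟩]
      unfold gg
      rw [max_eq_left hphi0, ← he1.pow_abs]
      calc phi x c d ^ e ≤ (4/7 * |t4 x a0 a1 c d|)^e := pow_le_pow_left₀ hphi0 ht1 _
        _ = (4/7 * |t4 x a0 a1 c d|)^e * 1 := (mul_one _).symm
        _ ≤ (4/7 * |t4 x a0 a1 c d|)^e * (4/3 * |t4 x a0 a1 c d| / u) := by gcongr
        _ = _ := by rw [mul_pow, pow_succ]; ring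
    linarith
  have hsum : S ≤ ∑ c ∈ Y, ∑ d ∈ Y, ((if c ∈ H then gg x e c d else 0) +
      (if d ∈ H then gg x e c d else 0) +
      gg x e c d * V3 x Y a0 c d / KD + gg x e c d * V3 x Y a1 c d / KD +
      q^e + (if c = d then (1:ℝ) else 0) + T7 c d) :=
    sum_le_sum fun c hc => sum_le_sum fun d hd => hpoint c hc d hd
  simp_rw [sum_add_distrib] at hsum
  have s1 : ∑ c ∈ Y, ∑ d ∈ Y, (if c ∈ H then gg x e c d else 0) = ms x e H Y := by
    unfold ms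
    rw [← sum_filter_add_sum_filter_not Y (fun c => c ∈ H)]
    have e1 : Y.filter (fun c => c ∈ H) = H := by
      ext c; simp only [mem_filter]; exact ⟨fun h => h.2, fun h => ⟨hHY h, h⟩⟩
    rw [e1]
    have e2 : ∑ c ∈ Y.filter (fun c => ¬ c ∈ H), ∑ d ∈ Y, (if c ∈ H then gg x e c d else 0) = 0 := by
      apply sum_eq_zero; intro c hc
      rw [mem_filter] at hc
      apply sum_eq_zero; intro d _
      rw [if_neg hc.2]
    rw [e2, add_zero]
    apply sum_congr rfl; intro c hc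
    apply sum_congr rfl; intro d _
    rw [if_pos hc]
  have s2 : ∑ c ∈ Y, ∑ d ∈ Y, (if d ∈ H then gg x e c d else 0) = ms x e H Y := by
    rw [← s1, sum_comm]
    apply sum_congr rfl; intro c _
    apply sum_congr rfl; intro d _
    rw [gg_comm]
  have s3 : ∀ a ∈ Ys, ∑ c ∈ Y, ∑ d ∈ Y, gg x e c d * V3 x Y a c d / KD ≤ S / 16384 := by
    intro a ha
    simp_rw [← sum_div]
    rw [div_le_div_iff₀ hKDpos (by norm_num)]
    calc (∑ c ∈ Y, ∑ d ∈ Y, gg x e c d * V3 x Y a c d) * 16384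
        ≤ (128^2 * D^2 * Y.card * S) * 16384 := by gcongr; exact hW a ha
      _ = S * KD := by rw [hKD]; ring
  have s5 : ∑ _c ∈ Y, ∑ _d ∈ Y, q^e ≤ S / 4 := by
    simp only [sum_const, nsmul_eq_mul]
    have h1 : q^e ≤ (1/8)^e * (A*D)^e := by
      rw [← mul_pow]
      exact pow_le_pow_left₀ hq0.le (by linarith) _
    have h2 : (1/8:ℝ)^e ≤ 1/8 := by
      calc (1/8:ℝ)^e ≤ (1/8)^1 := pow_le_pow_of_le_one (by norm_num) (by norm_num) (by omega)
        _ = 1/8 := by norm_num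
    have h3 : 0 ≤ (A*D)^e * (Y.card:ℝ)^2 := by
      have : 0 ≤ A * D := by linarith
      positivity
    calc (Y.card:ℝ) * (Y.card * q^e) = q^e * (Y.card:ℝ)^2 := by ring
      _ ≤ ((1/8)^e * (A*D)^e) * (Y.card:ℝ)^2 := by gcongr
      _ = (1/8)^e * ((A*D)^e * (Y.card:ℝ)^2) := by ring
      _ ≤ 1/8 * (2 * S) := mul_le_mul h2 hG h3 (by norm_num)
      _ = S/4 := by ring
  have s6 : ∑ c ∈ Y, ∑ d ∈ Y, (if c = d then (1:ℝ) else 0) ≤ Y.card := sum_diag_le (Subset.refl _)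
  have s7 : ∑ c ∈ Y, ∑ d ∈ Y, T7 c d ≤ S / 32 := by
    have e1 : ∑ c ∈ Y, ∑ d ∈ Y, T7 c d = ∑ c ∈ Ys, ∑ d ∈ Ys,
        4/3 * (4/7)^e / u * t4 x a0 a1 c d ^ (e+1) := by
      rw [← sum_subset hYs (f := fun c => ∑ d ∈ Y, T7 c d) (by
        intro c _ hc
        apply sum_eq_zero; intro d _
        simp only [hT7]
        rw [if_neg (fun h => hc h.1)])]
      apply sum_congr rfl; intro c hc
      rw [← sum_subset hYs (f := fun d => T7 c d) (by
        intro d _ hd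
        simp only [hT7]
        rw [if_neg (fun h => hd h.2)])]
      apply sum_congr rfl; intro d hd
      simp only [hT7]
      rw [if_pos ⟨hc, hd⟩]
    rw [e1]
    simp_rw [← mul_sum]
    have h1 := (sum_t4_le hx a0 a1 (e+1) Ys).trans (moment_Ys hx hYs he hupos hmax hYu)
    have h2 : (4/7:ℝ)^e ≤ 1/128 := by
      calc (4/7:ℝ)^e ≤ (4/7)^9 := pow_le_pow_of_le_one (by norm_num) (by norm_num) he9
        _ ≤ 1/128 := by norm_num
    calc 4/3 * (4/7)^e / u * ∑ c ∈ Ys, ∑ d ∈ Ys, t4 x a0 a1 c d ^ (e+1)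
        ≤ 4/3 * (4/7)^e / u * (3 * u * S) := by gcongr
      _ = 4 * (4/7)^e * S := by field_simp
      _ ≤ 4 * (1/128) * S := by gcongr
      _ = S / 32 := by ring
  rw [s1, s2] at hsum
  have s30 := s3 a0 ha0
  have s31 := s3 a1 ha1
  linarith

end Pool.Agent.LibMP92436f
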