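import Pool.Agent.Lib_MP_92436f_lc.FL

set_option autoImplicit false

namespace Pool.Agent.LibMP92436f

open Finset

noncomputable def mj (k : ℕ) (T : Finset ℕ) : ℝ := if k < T.card then 1 else -1

noncomputable def ck (k : ℕ) : ℝ := (Nat.choose (2 * k) k : ℝ) / 2 ^ (2 * k)

noncomputable def Ws (L : ℕ) (w : ℕ → ℝ) (T : Finset ℕ) : ℝ := ∑ l ∈ range L, w l * sg L T l

lemma sum_sg_mj {k i : ℕ} (hi : i < 2 * k + 1) :
    ∑ T ∈ (range (2*k+1)).powerset, sg (2*k+1) T i * mj k T = 2 * (Nat.choose (2*k) k : ℝ) := by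
  have hins : insert i ((range (2*k+1)).erase i) = range (2*k+1) := insert_erase (mem_range.mpr hi)
  have hni : i ∉ (range (2*k+1)).erase i := by simp
  rw [← hins, sum_powerset_insert hni, ← sum_add_distrib]
  have hcard : ((range (2*k+1)).erase i).card = 2 * k := by
    rw [card_erase_of_mem (mem_range.mpr hi), card_range]; omega
  have h1 : ∀ T ∈ ((range (2*k+1)).erase i).powerset,
      sg (2*k+1) T i * mj k T + sg (2*k+1) (insert i T) i * mj k (insert i T) =
        if T.card = k then 2 else 0 := by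
    intro T hT
    rw [mem_powerset] at hT
    have hiT : i ∉ T := fun h => hni (hT h)
    unfold sg mj
    rw [card_insert_of_notMem hiT]
    simp only [hiT, hi, if_true, if_false, mem_insert, true_or]
    by_cases h1 : k < T.card
    · have h2 : k < T.card + 1 := by omega
      have h3 : ¬ T.card = k := by omega
      simp [h1, h2, h3]
    · by_cases h4 : T.card = k
      · have h2 : k < T.card + 1 := by omega
        simp [h1, h2, h4]; norm_num
      · have h2 : ¬ k < T.card + 1 := by omega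
        simp [h1, h2, h4]
  rw [sum_congr rfl h1, ← sum_filter, ← powersetCard_eq_filter, sum_const, card_powersetCard, hcard,
    nsmul_eq_mul]
  ring

lemma sum_Ws_mj {k : ℕ} {w : ℕ → ℝ} (hw1 : ∑ l ∈ range (2*k+1), w l = 1) :
    ∑ T ∈ (range (2*k+1)).powerset, Ws (2*k+1) w T * mj k T = ck k * 2 ^ (2*k+1) := by
  unfold Ws
  simp_rw [sum_mul]
  rw [sum_comm]
  have h1 : ∀ l ∈ range (2*k+1), ∑ T ∈ (range (2*k+1)).powerset, w l * sg (2*k+1) T l * mj k T =
      w l * (2 * (Nat.choose (2*k) k : ℝ)) := by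
    intro l hl
    rw [← sum_sg_mj (mem_range.mp hl), mul_sum]
    exact sum_congr rfl fun T _ => by ring
  rw [sum_congr rfl h1, ← sum_mul, hw1]
  unfold ck
  rw [pow_succ]
  field_simp

lemma av_Fw_eq (L : ℕ) (w : ℕ → ℝ) :
    av L (Fw L w) * 2 ^ L = ∑ T ∈ (range L).powerset, |Ws L w T| := by
  unfold av Fw Ws
  field_simp

lemma mj_mul_le (k : ℕ) (T : Finset ℕ) (x : ℝ) : x * mj k T ≤ |x| := by
  unfold mj
  split_ifs
  · simpa using le_abs_self x
  · have := neg_abs_le x
    linarith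

lemma ck_le_av {k : ℕ} {w : ℕ → ℝ} (hw1 : ∑ l ∈ range (2*k+1), w l = 1) :
    ck k ≤ av (2*k+1) (Fw (2*k+1) w) := by
  have h1 := sum_Ws_mj hw1
  have h2 := av_Fw_eq (2*k+1) w
  have h3 : ∑ T ∈ (range (2*k+1)).powerset, Ws (2*k+1) w T * mj k T ≤
      ∑ T ∈ (range (2*k+1)).powerset, |Ws (2*k+1) w T| := sum_le_sum fun T _ => mj_mul_le _ _ _
  rw [h1, ← h2] at h3
  exact le_of_mul_le_mul_right h3 (by positivity)

lemma Ws_mj_eq {k : ℕ} {w : ℕ → ℝ} (hw1 : ∑ l ∈ range (2*k+1), w l = 1)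
    (h : av (2*k+1) (Fw (2*k+1) w) ≤ ck k) {T : Finset ℕ} (hT : T ⊆ range (2*k+1)) :
    Ws (2*k+1) w T * mj k T = |Ws (2*k+1) w T| := by
  have h1 := sum_Ws_mj hw1
  have h2 := av_Fw_eq (2*k+1) w
  have h0 : av (2*k+1) (Fw (2*k+1) w) = ck k := le_antisymm h (ck_le_av hw1)
  have h3 : ∑ T ∈ (range (2*k+1)).powerset, (|Ws (2*k+1) w T| - Ws (2*k+1) w T * mj k T) = 0 := by
    rw [sum_sub_distrib, h1, ← h2, h0]; ring
  have h4 := (sum_eq_zero_iff_of_nonneg (fun T _ => sub_nonneg.mpr (mj_mul_le k T _))).mp h3 T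
    (mem_powerset.mpr hT)
  linarith

lemma Ws_eq {L : ℕ} {w : ℕ → ℝ} (hw1 : ∑ l ∈ range L, w l = 1) {T : Finset ℕ} (hT : T ⊆ range L) :
    Ws L w T = 2 * ∑ l ∈ T, w l - 1 := by
  unfold Ws
  have h1 : ∀ l ∈ range L, w l * sg L T l = 2 * (if l ∈ T then w l else 0) - w l := by
    intro l hl
    unfold sg
    rw [mem_range] at hl
    split_ifs <;> ring
  rw [sum_congr rfl h1, sum_sub_distrib, ← mul_sum, hw1]
  congr 2
  rw [← sum_filter]
  apply sum_congr _ fun _ _ => rfl
  ext l
  simp only [mem_filter]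
  exact ⟨fun h => h.2, fun h => ⟨hT h, h⟩⟩

lemma abs_Ws_small {k : ℕ} {w : ℕ → ℝ} (hw1 : ∑ l ∈ range (2*k+1), w l = 1)
    (h : av (2*k+1) (Fw (2*k+1) w) ≤ ck k) {T : Finset ℕ} (hT : T ⊆ range (2*k+1))
    (hc : T.card ≤ k) : |Ws (2*k+1) w T| = 1 - 2 * ∑ l ∈ T, w l := by
  rw [← Ws_mj_eq hw1 h hT, Ws_eq hw1 hT]
  unfold mj
  rw [if_neg (by omega)]; ring

lemma abs_Ws_large {k : ℕ} {w : ℕ → ℝ} (hw1 : ∑ l ∈ range (2*k+1), w l = 1)
    (h : av (2*k+1) (Fw (2*k+1) w) ≤ ck k) {T : Finset ℕ} (hT : T ⊆ range (2*k+1))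
    (hc : k < T.card) : |Ws (2*k+1) w T| = 2 * ∑ l ∈ T, w l - 1 := by
  rw [← Ws_mj_eq hw1 h hT, Ws_eq hw1 hT]
  unfold mj
  rw [if_pos (by omega)]; ring

lemma Gh_eq_sum {L a b : ℕ} (ha : a < L) (hb : b < L) (hab : a ≠ b) (w : ℕ → ℝ) :
    Gh L w a b * 2 ^ L = ∑ T ∈ (((range L).erase a).erase b).powerset,
      (|Ws L w T| - |Ws L w (insert a T)| - |Ws L w (insert b T)|
        + |Ws L w (insert a (insert b T))|) := by
  have h1 : Gh L w a b * 2 ^ L = ∑ T ∈ (range L).powerset, sg L T a * sg L T b * |Ws L w T| := by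
    unfold Gh av Fw Ws
    field_simp
  have hb' : b ∈ (range L).erase a := mem_erase.mpr ⟨hab.symm, mem_range.mpr hb⟩
  have e1 : insert a ((range L).erase a) = range L := insert_erase (mem_range.mpr ha)
  have e2 : insert b (((range L).erase a).erase b) = (range L).erase a := insert_erase hb'
  rw [h1]
  rw [← e1, sum_powerset_insert (by simp), ← e2, sum_powerset_insert (by simp),
    sum_powerset_insert (by simp), ← sum_add_distrib, ← sum_add_distrib, ← sum_add_distrib]
  rw [e2, e1]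
  apply sum_congr rfl
  intro T hT
  rw [mem_powerset] at hT
  have haT : a ∉ T := fun h => by have := hT h; simp at this
  have hbT : b ∉ T := fun h => by have := hT h; simp at this
  unfold sg
  simp only [mem_insert, haT, hbT, ha, hb, hab, hab.symm, or_false, or_true, true_or, if_true,
    if_false]
  ring

lemma half_of_Gh {k a b : ℕ} (ha : a < 2*k+1) (hb : b < 2*k+1) (hab : a ≠ b) {w : ℕ → ℝ}
    (hw : ∀ l < 2*k+1, 0 ≤ w l)
    (hw1 : ∑ l ∈ range (2*k+1), w l = 1) (h : av (2*k+1) (Fw (2*k+1) w) ≤ ck k)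
    (hG : Gh (2*k+1) w a b ≤ 0) {A : Finset ℕ} (hA : A ⊆ ((range (2*k+1)).erase a).erase b)
    (hc : A.card = k) : ∑ l ∈ A, w l = 1/2 := by
  have hG0 : Gh (2*k+1) w a b = 0 := le_antisymm hG (Gh_nonneg ha hb hab hw)
  have h1 := Gh_eq_sum ha hb hab w
  rw [hG0, zero_mul] at h1
  have hsub : ((range (2*k+1)).erase a).erase b ⊆ range (2*k+1) :=
    (erase_subset _ _).trans (erase_subset _ _)
  have hnn : ∀ T ∈ (((range (2*k+1)).erase a).erase b).powerset,
      0 ≤ (|Ws (2*k+1) w T| - |Ws (2*k+1) w (insert a T)| - |Ws (2*k+1) w (insert b T)|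
        + |Ws (2*k+1) w (insert a (insert b T))|) := by
    intro T hT
    rw [mem_powerset] at hT
    have haT : a ∉ T := fun h => by have := hT h; simp at this
    have hbT : b ∉ T := fun h => by have := hT h; simp at this
    have hT' := hT.trans hsub
    have i1 : insert a T ⊆ range (2*k+1) := insert_subset (mem_range.mpr ha) hT'
    have i2 : insert b T ⊆ range (2*k+1) := insert_subset (mem_range.mpr hb) hT'
    have i3 : insert a (insert b T) ⊆ range (2*k+1) := insert_subset (mem_range.mpr ha) i2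
    rw [Ws_eq hw1 hT', Ws_eq hw1 i1, Ws_eq hw1 i2, Ws_eq hw1 i3, sum_insert haT, sum_insert hbT,
      sum_insert (by simp [hab, haT]), sum_insert hbT]
    have := hw a ha
    have := hw b hb
    have := abs_conv (p := 2 * ∑ l ∈ T, w l - 1) (q := 2 * (w a + ∑ l ∈ T, w l) - 1)
      (r := 2 * (w b + ∑ l ∈ T, w l) - 1) (s := 2 * (w a + (w b + ∑ l ∈ T, w l)) - 1)
      (by linarith) (by linarith) (by linarith) (by linarith) (by ring)
    linarith
  have h2 := (sum_eq_zero_iff_of_nonneg hnn).mp h1.symm A (mem_powerset.mpr hA)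
  have haA : a ∉ A := fun h => by have := hA h; simp at this
  have hbA : b ∉ A := fun h => by have := hA h; simp at this
  have hA' := hA.trans hsub
  have i1 : insert a A ⊆ range (2*k+1) := insert_subset (mem_range.mpr ha) hA'
  have i2 : insert b A ⊆ range (2*k+1) := insert_subset (mem_range.mpr hb) hA'
  have i3 : insert a (insert b A) ⊆ range (2*k+1) := insert_subset (mem_range.mpr ha) i2
  have hab' : a ∉ insert b A := by simp [hab, haA]
  rw [abs_Ws_small hw1 h hA' hc.le,
    abs_Ws_large hw1 h i1 (by rw [card_insert_of_notMem haA]; omega),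
    abs_Ws_large hw1 h i2 (by rw [card_insert_of_notMem hbA]; omega),
    abs_Ws_large hw1 h i3 (by rw [card_insert_of_notMem hab', card_insert_of_notMem hbA]; omega),
    sum_insert haA, sum_insert hbA, sum_insert hab', sum_insert hbA] at h2
  linarith

lemma weight_eq_of_Gh {k a b x : ℕ} (hk : 1 ≤ k) (ha : a < 2*k+1) (hb : b < 2*k+1) (hab : a ≠ b)
    {w : ℕ → ℝ}
    (hw : ∀ l < 2*k+1, 0 ≤ w l)
    (hw1 : ∑ l ∈ range (2*k+1), w l = 1) (h : av (2*k+1) (Fw (2*k+1) w) ≤ ck k)
    (hG : Gh (2*k+1) w a b ≤ 0) (hx : x < 2*k+1) (hxa : x ≠ a) (hxb : x ≠ b) :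
    w x = w a + w b := by
  set R := ((range (2*k+1)).erase a).erase b with hR
  have hxR : x ∈ R := by simp [hR, hxa, hxb, hx]
  have hbR : b ∈ (range (2*k+1)).erase a := mem_erase.mpr ⟨hab.symm, mem_range.mpr hb⟩
  have hRc : R.card = 2 * k - 1 := by
    rw [hR, card_erase_of_mem hbR, card_erase_of_mem (mem_range.mpr ha), card_range]; omega
  obtain ⟨A', hA'1, hA'2⟩ := exists_subset_card_eq (s := R.erase x) (n := k - 1)
    (by rw [card_erase_of_mem hxR]; omega)
  have hxA' : x ∉ A' := fun h => by have := hA'1 h; simp at this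
  set A := insert x A' with hA
  have hAR : A ⊆ R := insert_subset hxR (hA'1.trans (erase_subset _ _))
  have hAc : A.card = k := by rw [hA, card_insert_of_notMem hxA', hA'2]; omega
  have s1 := half_of_Gh ha hb hab hw hw1 h hG hAR hAc
  set B := insert x (R \ A) with hB
  have hxRA : x ∉ R \ A := by simp [hA]
  have hBR : B ⊆ R := insert_subset hxR sdiff_subset
  have hBc : B.card = k := by
    rw [hB, card_insert_of_notMem hxRA, card_sdiff_of_subset hAR, hRc, hAc]; omega
  have s2 := half_of_Gh ha hb hab hw hw1 h hG hBR hBc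
  rw [hB, sum_insert hxRA] at s2
  have s3 : ∑ l ∈ R \ A, w l + ∑ l ∈ A, w l = ∑ l ∈ R, w l := sum_sdiff hAR
  have s4 : ∑ l ∈ R, w l + w b = ∑ l ∈ (range (2*k+1)).erase a, w l := sum_erase_add _ _ hbR
  have s5 : ∑ l ∈ (range (2*k+1)).erase a, w l + w a = ∑ l ∈ range (2*k+1), w l :=
    sum_erase_add _ _ (mem_range.mpr ha)
  linarith

def Simp (L : ℕ) (w : ℕ → ℝ) : Prop :=
  (∀ l, 0 ≤ w l) ∧ (∀ l, L ≤ l → w l = 0) ∧ ∑ l ∈ range L, w l = 1

lemma isCompact_simp (L : ℕ) : IsCompact {w : ℕ → ℝ | Simp L w} := by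
  have h1 : IsCompact (Set.pi Set.univ (fun _ : ℕ => Set.Icc (0:ℝ) 1)) :=
    isCompact_univ_pi fun _ => isCompact_Icc
  apply h1.of_isClosed_subset
  · have e : {w : ℕ → ℝ | Simp L w} = (⋂ l, {w : ℕ → ℝ | 0 ≤ w l}) ∩
        ((⋂ l, ⋂ (_ : L ≤ l), {w : ℕ → ℝ | w l = 0}) ∩ {w | ∑ l ∈ range L, w l = 1}) := by
      ext w
      simp [Simp]
    rw [e]
    refine IsClosed.inter (isClosed_iInter fun l => ?_) (IsClosed.inter (isClosed_iInter fun l =>
      isClosed_iInter fun _ => ?_) ?_)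
    · exact isClosed_le continuous_const (continuous_apply l)
    · exact isClosed_eq (continuous_apply l) continuous_const
    · exact isClosed_eq (continuous_finsetSum _ fun l _ => continuous_apply l) continuous_const
  · intro w hw l _
    refine ⟨hw.1 l, ?_⟩
    by_cases hl : l < L
    · rw [← hw.2.2]
      exact single_le_sum (f := w) (fun i _ => hw.1 i) (mem_range.mpr hl)
    · rw [hw.2.1 l (not_lt.mp hl)]; norm_num

lemma continuous_Fw (L : ℕ) (z : ℕ → ℝ) : Continuous (fun w : ℕ → ℝ => Fw L w z) := by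
  unfold Fw
  exact (continuous_finsetSum _ fun l _ => (continuous_apply l).mul continuous_const).abs

lemma continuous_av (L : ℕ) (c : (ℕ → ℝ) → ℝ) :
    Continuous (fun w : ℕ → ℝ => av L (fun e => c e * Fw L w e)) := by
  unfold av
  apply Continuous.div_const
  exact continuous_finsetSum _ fun T _ => continuous_const.mul (continuous_Fw L _)

lemma continuous_A0 (L : ℕ) : Continuous (fun w : ℕ → ℝ => av L (Fw L w)) := by
  have := continuous_av L (fun _ => 1)
  simpa using this

lemma continuous_Gh (L a b : ℕ) : Continuous (fun w : ℕ → ℝ => Gh L w a b) :=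
  continuous_av L (fun e => e a * e b)

lemma comp1 {k : ℕ} (hk : 1 ≤ k) : ∃ c : ℝ, 0 < c ∧ ∀ w, Simp (2*k+1) w →
    ck k + c ≤ av (2*k+1) (Fw (2*k+1) w) ∨
    c ≤ Gh (2*k+1) w 0 1 + Gh (2*k+1) w 0 2 + Gh (2*k+1) w 1 2 := by
  set D : (ℕ → ℝ) → ℝ := fun w => max (av (2*k+1) (Fw (2*k+1) w) - ck k)
    (Gh (2*k+1) w 0 1 + Gh (2*k+1) w 0 2 + Gh (2*k+1) w 1 2) with hD
  have hcont : Continuous D := by
    apply Continuous.max
    · exact (continuous_A0 _).sub continuous_const
    · exact ((continuous_Gh _ _ _).add (continuous_Gh _ _ _)).add (continuous_Gh _ _ _)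
  have hpos : ∀ w, Simp (2*k+1) w → 0 < D w := by
    intro w hw
    by_contra hcon
    rw [not_lt, hD] at hcon
    have h1 : av (2*k+1) (Fw (2*k+1) w) ≤ ck k := by
      have := (le_max_left _ _).trans hcon; linarith
    have h2 : Gh (2*k+1) w 0 1 + Gh (2*k+1) w 0 2 + Gh (2*k+1) w 1 2 ≤ 0 := (le_max_right _ _).trans hcon
    have hw0 : ∀ l < 2*k+1, 0 ≤ w l := fun l _ => hw.1 l
    have g1 := Gh_nonneg (L := 2*k+1) (a := 0) (b := 1) (by omega) (by omega) (by omega) hw0
    have g2 := Gh_nonneg (L := 2*k+1) (a := 0) (b := 2) (by omega) (by omega) (by omega) hw0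
    have g3 := Gh_nonneg (L := 2*k+1) (a := 1) (b := 2) (by omega) (by omega) (by omega) hw0
    have e01 := weight_eq_of_Gh (k := k) (a := 0) (b := 1) (x := 2) hk (by omega) (by omega)
      (by omega) hw0 hw.2.2 h1 (by linarith) (by omega) (by omega) (by omega)
    have e02 := weight_eq_of_Gh (k := k) (a := 0) (b := 2) (x := 1) hk (by omega) (by omega)
      (by omega) hw0 hw.2.2 h1 (by linarith) (by omega) (by omega) (by omega)
    have e12 := weight_eq_of_Gh (k := k) (a := 1) (b := 2) (x := 0) hk (by omega) (by omega)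
      (by omega) hw0 hw.2.2 h1 (by linarith) (by omega) (by omega) (by omega)
    have w0 : w 0 = 0 := by have := hw.1 0; have := hw.1 1; have := hw.1 2; linarith
    have w1 : w 1 = 0 := by have := hw.1 0; have := hw.1 1; have := hw.1 2; linarith
    have hall : ∀ x ∈ range (2*k+1), w x = 0 := by
      intro x hx
      rw [mem_range] at hx
      by_cases x0 : x = 0
      · rw [x0, w0]
      by_cases x1 : x = 1
      · rw [x1, w1]
      rw [weight_eq_of_Gh (k := k) (a := 0) (b := 1) (x := x) hk (by omega) (by omega)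
        (by omega) hw0 hw.2.2 h1 (by linarith) hx x0 x1, w0, w1, add_zero]
    have := hw.2.2
    rw [sum_eq_zero hall] at this
    norm_num at this
  have hne : {w : ℕ → ℝ | Simp (2*k+1) w}.Nonempty := by
    refine ⟨fun l => if l = 0 then 1 else 0, fun l => ?_, fun l hl => ?_, ?_⟩
    · dsimp only
      split_ifs <;> norm_num
    · dsimp only
      rw [if_neg (by omega)]
    · simp
  obtain ⟨w0, hw0, hmin⟩ := (isCompact_simp (2*k+1)).exists_isMinOn hne hcont.continuousOn
  refine ⟨D w0, hpos w0 hw0, fun w hw => ?_⟩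
  have h := hmin hw
  have h' : D w0 ≤ D w := h
  rcases le_max_iff.mp (h'.trans_eq (by rw [hD])) with h1 | h1
  · left; linarith
  · right; exact h1

lemma comp2 {k : ℕ} (hk : 2 ≤ k) : ∃ c : ℝ, 0 < c ∧ ∀ w, Simp (2*k+1) w →
    ck k + c ≤ av (2*k+1) (Fw (2*k+1) w) ∨ c ≤ Gh (2*k+1) w 0 1 ∨ c ≤ Gh (2*k+1) w 2 3 := by
  set D : (ℕ → ℝ) → ℝ := fun w => max (av (2*k+1) (Fw (2*k+1) w) - ck k)
    (max (Gh (2*k+1) w 0 1) (Gh (2*k+1) w 2 3)) with hD
  have hcont : Continuous D := by
    apply Continuous.max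
    · exact (continuous_A0 _).sub continuous_const
    · exact (continuous_Gh _ _ _).max (continuous_Gh _ _ _)
  have hpos : ∀ w, Simp (2*k+1) w → 0 < D w := by
    intro w hw
    by_contra hcon
    rw [not_lt, hD] at hcon
    have h1 : av (2*k+1) (Fw (2*k+1) w) ≤ ck k := by
      have := (le_max_left _ _).trans hcon; linarith
    have h2 : max (Gh (2*k+1) w 0 1) (Gh (2*k+1) w 2 3) ≤ 0 := (le_max_right _ _).trans hcon
    have g1 := (le_max_left _ _).trans h2
    have g2 := (le_max_right _ _).trans h2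
    have hw0 : ∀ l < 2*k+1, 0 ≤ w l := fun l _ => hw.1 l
    have e2 := weight_eq_of_Gh (k := k) (a := 0) (b := 1) (x := 2) (by omega) (by omega) (by omega)
      (by omega) hw0 hw.2.2 h1 g1 (by omega) (by omega) (by omega)
    have e3 := weight_eq_of_Gh (k := k) (a := 0) (b := 1) (x := 3) (by omega) (by omega) (by omega)
      (by omega) hw0 hw.2.2 h1 g1 (by omega) (by omega) (by omega)
    have e0 := weight_eq_of_Gh (k := k) (a := 2) (b := 3) (x := 0) (by omega) (by omega) (by omega)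
      (by omega) hw0 hw.2.2 h1 g2 (by omega) (by omega) (by omega)
    have e1 := weight_eq_of_Gh (k := k) (a := 2) (b := 3) (x := 1) (by omega) (by omega) (by omega)
      (by omega) hw0 hw.2.2 h1 g2 (by omega) (by omega) (by omega)
    have w0 : w 0 = 0 := by
      have := hw.1 0; have := hw.1 1; have := hw.1 2; have := hw.1 3; linarith
    have w1 : w 1 = 0 := by
      have := hw.1 0; have := hw.1 1; have := hw.1 2; have := hw.1 3; linarith
    have hall : ∀ x ∈ range (2*k+1), w x = 0 := by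
      intro x hx
      rw [mem_range] at hx
      by_cases x0 : x = 0
      · rw [x0, w0]
      by_cases x1 : x = 1
      · rw [x1, w1]
      rw [weight_eq_of_Gh (k := k) (a := 0) (b := 1) (x := x) (by omega) (by omega) (by omega)
        (by omega) hw0 hw.2.2 h1 g1 hx x0 x1, w0, w1, add_zero]
    have := hw.2.2
    rw [sum_eq_zero hall] at this
    norm_num at this
  have hne : {w : ℕ → ℝ | Simp (2*k+1) w}.Nonempty := by
    refine ⟨fun l => if l = 0 then 1 else 0, fun l => ?_, fun l hl => ?_, ?_⟩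
    · dsimp only
      split_ifs <;> norm_num
    · dsimp only
      rw [if_neg (by omega)]
    · simp
  obtain ⟨w0, hw0, hmin⟩ := (isCompact_simp (2*k+1)).exists_isMinOn hne hcont.continuousOn
  refine ⟨D w0, hpos w0 hw0, fun w hw => ?_⟩
  have h := hmin hw
  have h' : D w0 ≤ D w := h
  rcases le_max_iff.mp (h'.trans_eq (by rw [hD])) with h1 | h1
  · left; linarith
  · right; exact le_max_iff.mp h1

end Pool.Agent.LibMP92436f
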