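import Pool.Agent.Lib_MP_92436f_lc.Greedy
import Pool.Agent.Lib_MP_92436f_lc.Simplex

set_option autoImplicit false
set_option linter.unusedSectionVars false

namespace Pool.Agent.LibMP92436f

open Finset

lemma Qs_congr {t : ℕ} {e z z' : ℕ → ℝ} (h : ∀ l < t, z l = z' l) : Qs t e z = Qs t e z' := by
  unfold Qs
  congr 2
  · exact prod_congr rfl fun l hl => by rw [h l (mem_range.mp hl)]
  · exact prod_congr rfl fun l hl => by rw [h l (mem_range.mp hl)]

lemma Qs_nonneg {L t : ℕ} (ht : t ≤ L) {e z : ℕ → ℝ} (he : IsSg L e)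
    (hz : ∀ l < L, z l = 1 ∨ z l = -1) : 0 ≤ Qs t e z := by
  unfold Qs
  have h : ∀ l ∈ range t, |z l * e l| ≤ 1 := fun l hl => by
    rw [mem_range] at hl
    exact sign_abs (sign_mul (hz l (by omega)) (he.1 l (by omega)))
  have h1 : 0 ≤ ∏ l ∈ range t, (1 + z l * e l) := prod_nonneg fun l hl => by
    have := (abs_le.mp (h l hl)).1; linarith
  have h2 : 0 ≤ ∏ l ∈ range t, (1 - z l * e l) := prod_nonneg fun l hl => by
    have := (abs_le.mp (h l hl)).2; linarith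
  linarith

lemma av_Qs {L t : ℕ} (ht : t ≤ L) {y : ℕ → ℝ} (hy : ∀ l < L, y l = 1 ∨ y l = -1) :
    av L (fun e => Qs t e y) = 1 := by
  have h1 : av L (fun e => (∏ l ∈ range t, (1 + y l * e l)) * 1) = 1 := by
    rw [av_prod hy t ht (fun _ => 1), av_const]
  have h2 : av L (fun e => (∏ l ∈ range t, (1 + (-y l) * e l)) * 1) = 1 := by
    rw [av_prod (y := fun l => - y l) (fun l hl => by
      rcases hy l hl with h | h <;> rw [h] <;> simp) t ht (fun _ => 1), av_const]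
  have h3 : (fun e : ℕ → ℝ => Qs t e y) = fun e => (1/2) * ((∏ l ∈ range t, (1 + y l * e l)) * 1 +
      (∏ l ∈ range t, (1 + (-y l) * e l)) * 1) := by
    funext e
    unfold Qs
    have : ∏ l ∈ range t, (1 - y l * e l) = ∏ l ∈ range t, (1 + (-y l) * e l) :=
      prod_congr rfl fun l _ => by ring
    rw [this]; ring
  rw [h3, av_mul_left, av_add, h1, h2]; norm_num

lemma isSg_eq_sg {L : ℕ} {e : ℕ → ℝ} (he : IsSg L e) : ∃ T ∈ (range L).powerset, e = sg L T := by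
  refine ⟨(range L).filter (fun l => e l = 1), by rw [mem_powerset]; exact filter_subset _ _, ?_⟩
  funext l
  unfold sg
  by_cases hl : l < L
  · by_cases h1 : e l = 1
    · rw [if_pos (by simp [hl, h1]), h1]
    · rw [if_neg (by simp [h1]), if_pos hl]
      exact (he.1 l hl).resolve_left h1
  · rw [if_neg (by simp [hl]), if_neg hl]
    exact he.2 l (not_lt.mp hl)

section prob

variable {Ω : Type} [Fintype Ω] {ι : Type}

noncomputable def hT (L t : ℕ) (z : ℕ → Ω → ℝ) (T : Finset ℕ) (j : Ω) : ℝ :=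
  Qs t (sg L T) (fun l => z l j) / 2 ^ L

lemma hT_nonneg {L t : ℕ} (ht : t ≤ L) {z : ℕ → Ω → ℝ} (hz : ∀ l < L, ∀ j, z l j = 1 ∨ z l j = -1)
    {T : Finset ℕ} (hT' : T ∈ (range L).powerset) (j : Ω) : 0 ≤ hT L t z T j :=
  div_nonneg (Qs_nonneg ht (isSg_sg hT') (fun l hl => hz l hl j)) (by positivity)

lemma hT_sum {L t : ℕ} (ht : t ≤ L) {z : ℕ → Ω → ℝ} (hz : ∀ l < L, ∀ j, z l j = 1 ∨ z l j = -1)
    (j : Ω) : ∑ T ∈ (range L).powerset, hT L t z T j = 1 := by
  unfold hT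
  rw [← sum_div]
  exact av_Qs ht (fun l hl => hz l hl j)

lemma hT_le {L t : ℕ} (ht : t ≤ L) {z : ℕ → Ω → ℝ} (hz : ∀ l < L, ∀ j, z l j = 1 ∨ z l j = -1)
    {T : Finset ℕ} (hT' : T ∈ (range L).powerset) (j : Ω) : |hT L t z T j| ≤ 1 := by
  rw [abs_of_nonneg (hT_nonneg ht hz hT' j), ← hT_sum ht hz j]
  exact single_le_sum (f := fun T => hT L t z T j) (fun T hT'' => hT_nonneg ht hz hT'' j) hT'

lemma hT_congr {L t : ℕ} {z z' : ℕ → Ω → ℝ} (h : ∀ l < t, z l = z' l) (T : Finset ℕ) :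
    hT L t z T = hT L t z' T := by
  funext j
  unfold hT
  rw [Qs_congr (fun l hl => by rw [h l hl])]

/-- The conclusion of the selection: a tuple of distinct words whose absolute combinations are
large on average. -/
def Tuple (k : ℕ) (x : ι → Ω → ℝ) (X : Finset ι) (v : ℝ) : Prop :=
  ∃ a : ℕ → ι, (∀ l < 2*k+1, a l ∈ X) ∧ (∀ i j, i < j → j < 2*k+1 → a i ≠ a j) ∧
    ∀ w, Simp (2*k+1) w → v ≤ ex (fun j => Fw (2*k+1) w (fun l => x (a l) j))

lemma cond_of_ker {L i t : ℕ} {x : ι → Ω → ℝ} {y : ℕ → ι} {E : ℝ}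
    (h : ∀ T ∈ (range L).powerset, -E ≤ ker x (hT L i (fun l => x (y l)) T) (y i) (y t)) :
    Cond L i t (fun l => x (y l)) (2^L * E) := by
  intro e he
  obtain ⟨T, hT', rfl⟩ := isSg_eq_sg he
  have h1 := h T hT'
  have h2 : ker x (hT L i (fun l => x (y l)) T) (y i) (y t) =
      (1/2^L) * ex (fun j => Qs i (sg L T) (fun l => x (y l) j) * (x (y i) j * x (y t) j)) := by
    unfold ker hT
    rw [← ex_mul_left]
    congr 1; funext j; ring
  rw [h2] at h1
  have h3 : (0:ℝ) < 2^L := by positivity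
  have h4 := mul_le_mul_of_nonneg_left h1 h3.le
  have h5 : (2:ℝ)^L * (1/2^L * ex (fun j => Qs i (sg L T) (fun l => x (y l) j) * (x (y i) j * x (y t) j)))
    = ex (fun j => Qs i (sg L T) (fun l => x (y l) j) * (x (y i) j * x (y t) j)) := by
    field_simp
  rw [h5] at h4
  linarith

lemma moment_le {u T : ℝ} (hu : 0 ≤ u) (hT : 0 < T) {j e : ℕ} (hj : j ≤ e) :
    u ^ j ≤ T ^ j * (1 + u ^ e / T ^ e) := by
  rw [← div_pow]
  have h1 : (u/T)^j ≤ 1 + (u/T)^e := by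
    rcases le_total (u/T) 1 with h | h
    · have : (u/T)^j ≤ 1 := pow_le_one₀ (by positivity) h
      have : 0 ≤ (u/T)^e := by positivity
      linarith
    · have := pow_le_pow_right₀ h hj
      linarith
  calc u ^ j = T^j * (u/T)^j := by rw [div_pow]; field_simp
    _ ≤ _ := by gcongr

lemma moment_sum_le (x : ι → Ω → ℝ) (Y : Finset ι) {T : ℝ} (hT : 0 < T) {m e : ℕ} (hm : 2 * m ≤ e)
    (h : ∑ a ∈ Y, ∑ b ∈ Y, |phi x a b| ^ e ≤ T ^ e * (Y.card:ℝ)^2) :
    ∑ a ∈ Y, ∑ b ∈ Y, phi x a b ^ (2*m) ≤ 2 * T ^ (2*m) * (Y.card:ℝ)^2 := by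
  have h1 : ∑ a ∈ Y, ∑ b ∈ Y, phi x a b ^ (2*m) ≤
      ∑ a ∈ Y, ∑ b ∈ Y, T ^ (2*m) * (1 + |phi x a b| ^ e / T ^ e) := by
    apply sum_le_sum; intro a _
    apply sum_le_sum; intro b _
    rw [← (even_two_mul m).pow_abs]
    exact moment_le (abs_nonneg _) hT hm
  refine h1.trans ?_
  simp_rw [← mul_sum, sum_add_distrib, ← sum_div]
  have h2 : (∑ a ∈ Y, ∑ b ∈ Y, |phi x a b| ^ e) / T ^ e ≤ (Y.card:ℝ)^2 := by
    rw [div_le_iff₀ (by positivity)]; linarith
  have h3 : ∑ _a ∈ Y, ∑ _b ∈ Y, (1:ℝ) = (Y.card:ℝ)^2 := by simp; ring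
  rw [h3]
  have : 0 < T ^ (2*m) := by positivity
  nlinarith

end prob

theorem nogrowth (k : ℕ) (hk : 1 ≤ k) {A : ℝ} (hA : 1 ≤ A) :
    ∃ m0 n0 N1 : ℕ, ∀ (Ω ι : Type) [Fintype Ω] [Nonempty Ω] (x : ι → Ω → ℝ), Signs x →
      n0 ≤ Fintype.card Ω → ∀ Y : Finset ι, N1 ≤ Y.card → Y.Nonempty →
      ∀ D : ℝ, 0 < D → ∑ a ∈ Y, ∑ b ∈ Y, phi x a b ^ 2 = D^2 * (Y.card:ℝ)^2 →
      ∀ e : ℕ, 2 * m0 ≤ e → ∑ a ∈ Y, ∑ b ∈ Y, |phi x a b| ^ e ≤ (A * D) ^ e * (Y.card:ℝ)^2 →
      Tuple k x Y (ck k + 2 ^ (2*k+2) / Fintype.card Ω) := by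
  classical
  obtain ⟨c, hc, hcomp⟩ := comp1 hk
  set L := 2*k+1 with hL
  set r : ℕ := 2^L with hr
  have hr1 : 1 ≤ r := Nat.one_le_two_pow
  have hr1' : (1:ℝ) ≤ r := by exact_mod_cast hr1
  set R : ℝ := 4 * A with hR
  have hR0 : 0 < R := by positivity
  have hR4 : 4 ≤ R := by rw [hR]; linarith
  set C0 : ℝ := 2 * (L:ℝ)^2 * 2^L / c with hC0
  have hC0n : 0 ≤ C0 := by positivity
  obtain ⟨δ, N0, hδ, hδR, hN0, hq, hs0⟩ := gs_params r hr1 hR0 hC0n
  set M0 : ℝ := ((r:ℝ) * R)^2 * 2^(N0 * r) with hM0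
  have hM01 : 1 ≤ M0 := by
    rw [hM0]
    have h1 : (1:ℝ) ≤ (r * R)^2 := by
      have : (1:ℝ) ≤ r * R := by nlinarith
      nlinarith
    have h2 : (1:ℝ) ≤ 2^(N0*r) := one_le_pow₀ (by norm_num)
    nlinarith
  set p : ℝ := 1 / (8 * M0) with hp
  have hp0 : 0 < p := by positivity
  have hp1 : p ≤ 1 := by
    rw [hp, div_le_one (by positivity)]; linarith
  set B6 : ℝ := 2 * A^6 with hB6
  have hB60 : 0 < B6 := by positivity
  set Cz : ℝ := (B6 / (p/2)^L)^2 with hCz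
  have hCz0 : 0 < Cz := by positivity
  -- tail parameter
  obtain ⟨m1, hm1⟩ := exists_pow_lt_of_lt_one (show (0:ℝ) < 1 / (32 * (M0 * r * (2 * Cz))) by positivity)
    (show (1/16 : ℝ) < 1 by norm_num)
  set m0 := m1 + (N0 * r + 3) with hm0
  obtain ⟨n0, hn0⟩ := exists_nat_ge (4 / δ^2)
  obtain ⟨N1, hN1⟩ := exists_nat_ge (2/p * (B6 / (p/2)^L))
  refine ⟨m0, n0, N1, ?_⟩
  intro Ω ι _ _ x hx hn Y hYN hY D hD hQ e he hmom
  have hAD : 0 < A * D := by positivity
  have h6 : ∑ a ∈ Y, ∑ b ∈ Y, phi x a b ^ 6 ≤ B6 * D^6 * (Y.card:ℝ)^2 := by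
    have := moment_sum_le x Y hAD (m := 3) (e := e) (by omega) hmom
    refine this.trans (le_of_eq ?_)
    rw [hB6]; ring
  obtain ⟨Y2, hY2Y, hY2n, hY2c, hZ2⟩ := robust_subset x hY hD hQ h6
  have hmom2 := moment_sum_le x Y hAD (m := m0) (e := e) he hmom
  set Rl : (ℕ → ι) → ℕ → ι → Prop := fun y t b =>
    (∀ T ∈ (range L).powerset, -(δ*D) ≤ ker x (hT L t (fun l => x (y l)) T) (y t) b) ∧
      C0*δ*D ≤ phi x (y t) b with hRl
  have hsig : ∀ y : ℕ → ι, ∀ l < L, ∀ j, x (y l) j = 1 ∨ x (y l) j = -1 := fun y l _ j => hx _ _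
  have hYc : (0:ℝ) < Y.card := by exact_mod_cast hY.card_pos
  have hY2cpos : (0:ℝ) < Y2.card := by exact_mod_cast hY2n.card_pos
  have hpL : 0 < (p/2)^L := by positivity
  have hcard : 2/p ≤ (p/2)^L * (Y2.card:ℝ) := by
    have h1 : 2/p * (B6 / (p/2)^L) ≤ B6 * Y2.card := by
      refine hN1.trans (le_trans ?_ hY2c)
      exact_mod_cast hYN
    have h2 : 2/p * (B6 / (p/2)^L) = B6 * (2/p / (p/2)^L) := by ring
    rw [h2] at h1
    have h3 := le_of_mul_le_mul_left h1 hB60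
    rw [div_le_iff₀ hpL] at h3
    linarith
  obtain ⟨y, hyY, hyR⟩ := greedy L hp0 hp1 Y2 hY2n Rl (by
      intro y y' t b hyy' hRt
      simp only [hRl] at hRt ⊢
      rw [← hyy' t le_rfl]
      refine ⟨fun T hT' => ?_, hRt.2⟩
      rw [← hT_congr (z := fun l => x (y l)) (z' := fun l => x (y' l))
        (fun l hl => by rw [hyy' l hl.le])]
      exact hRt.1 T hT') (by
      intro t ht y Z hZY hZc
      have hcardr : ((range L).powerset.card : ℝ) = r := by
        rw [card_powerset, card_range]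
      have hZpos : (0:ℝ) < Z.card := lt_of_lt_of_le (mul_pos hpL hY2cpos) hZc
      have hYZ : (Y.card:ℝ)^2 ≤ Cz * (Z.card:ℝ)^2 := by
        have h1 : (Y.card:ℝ) ≤ B6 / (p/2)^L * Z.card := by
          rw [div_mul_eq_mul_div, le_div_iff₀ hpL]
          calc (Y.card:ℝ) * (p/2)^L ≤ (B6 * Y2.card) * (p/2)^L := by gcongr
            _ = B6 * ((p/2)^L * Y2.card) := by ring
            _ ≤ B6 * Z.card := by gcongr
        calc (Y.card:ℝ)^2 ≤ (B6 / (p/2)^L * Z.card)^2 := by gcongr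
          _ = _ := by rw [hCz]; ring
      have hZm : ∑ a ∈ Z, ∑ b ∈ Z, phi x a b ^ (2*m0) ≤
          (2 * A^(2*m0) * Cz) * D^(2*m0) * (Z.card:ℝ)^2 := by
        have hnn : ∀ a b, 0 ≤ phi x a b ^ (2*m0) := fun a b => (even_two_mul m0).pow_nonneg _
        have hZY' : Z ⊆ Y := hZY.trans hY2Y
        calc ∑ a ∈ Z, ∑ b ∈ Z, phi x a b ^ (2*m0) ≤ ∑ a ∈ Z, ∑ b ∈ Y, phi x a b ^ (2*m0) :=
              sum_le_sum fun a _ => sum_le_sum_of_subset_of_nonneg hZY' fun b _ _ => hnn a b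
          _ ≤ ∑ a ∈ Y, ∑ b ∈ Y, phi x a b ^ (2*m0) :=
              sum_le_sum_of_subset_of_nonneg hZY' fun a _ _ => sum_nonneg fun b _ => hnn a b
          _ ≤ 2 * (A * D) ^ (2*m0) * (Y.card:ℝ)^2 := hmom2
          _ ≤ 2 * (A * D) ^ (2*m0) * (Cz * (Z.card:ℝ)^2) := by gcongr
          _ = _ := by rw [mul_pow]; ring
      have hB : (((range L).powerset.card:ℝ) * R) ^ 2 * 2 ^ (N0 * (range L).powerset.card) *
          ((range L).powerset.card:ℝ) * ((2 * A^(2*m0) * Cz) / R^(2*m0)) ≤ 1/32 := by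
        rw [card_powerset, card_range]
        change M0 * (r:ℝ) * ((2 * A^(2*m0) * Cz) / R^(2*m0)) ≤ 1/32
        have e1 : (2 * A^(2*m0) * Cz) / R^(2*m0) = 2 * Cz * (1/16)^m0 := by
          have e0 : (16:ℝ)^m0 * (1/16)^m0 = 1 := by rw [← mul_pow]; norm_num
          rw [hR, mul_pow, pow_mul 4 2 m0]
          norm_num
          field_simp
          norm_num at e0
          first
            | exact e0.symm
            | (rw [e0])
            | (norm_num; exact e0.symm)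
        rw [e1]
        have e2 : (1/16 : ℝ)^m0 ≤ (1/16)^m1 :=
          pow_le_pow_of_le_one (by norm_num) (by norm_num) (by omega)
        have e3 : (1/16 : ℝ)^m0 ≤ 1 / (32 * (M0 * r * (2 * Cz))) := e2.trans hm1.le
        rw [le_div_iff₀ (by positivity)] at e3
        linarith
      have hg := gs (range L).powerset x (fun T => hT L t (fun l => x (y l)) T)
        (fun T hT' j => hT_nonneg ht.le (hsig y) hT' j)
        (fun T hT' j => hT_le ht.le (hsig y) hT' j)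
        (fun j => hT_sum ht.le (hsig y) j) hD hN0 hδ hδR hC0n
        (by rw [card_powerset, card_range]; change N0 * r + 2 ≤ 2 * m0; omega)
        (by rw [card_powerset, card_range]; exact hs0)
        (by rw [card_powerset, card_range]; exact hq)
        Z (hZ2 Z hZY) hZm hB
      rw [card_powerset, card_range] at hg
      change (Z.card:ℝ)^2 / 8 ≤ M0 * _ at hg
      have hMpos : 0 < M0 := by positivity
      have h9 : p * (Z.card:ℝ)^2 = ((Z.card:ℝ)^2 / 8) / M0 := by rw [hp]; field_simp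
      rw [h9, div_le_iff₀ hMpos, mul_comm _ M0]
      refine hg.trans (le_of_eq ?_)
      congr 1
      apply sum_congr rfl; intro a _
      apply sum_congr rfl; intro b _
      have hiff : ((∀ T ∈ (range L).powerset, -(δ*D) ≤ ker x (hT L t (fun l => x (y l)) T) a b) ∧
          C0*δ*D ≤ phi x a b) ↔ Rl (Function.update y t a) t b := by
        simp only [hRl, Function.update_self]
        have : ∀ T, hT L t (fun l => x (Function.update y t a l)) T = hT L t (fun l => x (y l)) T :=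
          fun T => hT_congr (fun l hl => by rw [Function.update_of_ne hl.ne]) T
        simp only [this]
      by_cases hc' : Rl (Function.update y t a) t b
      · rw [if_pos hc', if_pos (hiff.mpr hc')]
      · rw [if_neg hc', if_neg (fun hh => hc' (hiff.mp hh))]) hcard
  refine ⟨y, fun l hl => hY2Y (hyY l hl), fun i j hij hj => (hyR i j hij hj).2, ?_⟩
  intro w hw
  have hC : ∀ t < L, 3 ≤ t → ∀ i < t, Cond L i t (fun l => x (y l)) (2^L * (δ*D)) :=
    fun t ht _ i hi => cond_of_ker (hyR i t hi ht).1.1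
  have hf := FL1 (L := L) (by omega) (fun l _ => hw.1 l) hw.2.2 (hsig y)
    (by positivity : (0:ℝ) ≤ 2^L * (δ*D)) hC
    (hyR 0 1 (by omega) (by omega)).1.2 (hyR 0 2 (by omega) (by omega)).1.2
    (hyR 1 2 (by omega) (by omega)).1.2
  have hq1 : C0 * δ * D ≤ 1 := by
    have h1 := (hyR 0 1 (by omega) (by omega)).1.2
    have h2 := (abs_le.mp (abs_phi_le hx (y 0) (y 1))).2
    exact h1.trans h2
  set E0 : ℝ := (L:ℝ)^2 * (2^L * (δ*D)) with hE0
  have hqc : C0 * δ * D * c = 2 * E0 := by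
    rw [hC0, hE0]; field_simp
  have hq0 : 0 ≤ C0 * δ * D := by positivity
  have hE0n : 0 ≤ E0 := by positivity
  have g01 := Gh_nonneg (L := L) (a := 0) (b := 1) (by omega) (by omega) (by omega) (fun l _ => hw.1 l)
  have g02 := Gh_nonneg (L := L) (a := 0) (b := 2) (by omega) (by omega) (by omega) (fun l _ => hw.1 l)
  have g12 := Gh_nonneg (L := L) (a := 1) (b := 2) (by omega) (by omega) (by omega) (fun l _ => hw.1 l)
  have hckle : ck k ≤ av L (Fw L w) := ck_le_av hw.2.2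
  have hmain : ck k + E0 ≤ ex (fun j => Fw L w (fun l => x (y l) j)) := by
    rcases hcomp w hw with h1 | h1
    · have h2 : C0 * δ * D * c ≤ 1 * c := mul_le_mul_of_nonneg_right hq1 hc.le
      have h3 : 0 ≤ C0 * δ * D * (Gh L w 0 1 + Gh L w 0 2 + Gh L w 1 2) :=
        mul_nonneg hq0 (by linarith)
      linarith
    · have h3 : C0 * δ * D * c ≤ C0 * δ * D * (Gh L w 0 1 + Gh L w 0 2 + Gh L w 1 2) :=
        mul_le_mul_of_nonneg_left h1 hq0
      linarith
  refine le_trans ?_ hmain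
  -- margin
  set n : ℝ := (Fintype.card Ω : ℝ) with hn'
  have hnpos : 0 < n := by rw [hn']; exact_mod_cast Fintype.card_pos
  have hDn : 1 ≤ D^2 * n := by
    have h1 := sum_phi_sq_ge hx Y
    rw [hQ] at h1
    have h2 : 1 * (Y.card:ℝ)^2 ≤ (D^2 * n) * (Y.card:ℝ)^2 := by
      rw [hn']; linarith
    exact le_of_mul_le_mul_right h2 (by positivity)
  have hδn : 4 ≤ δ^2 * n := by
    have h1 : 4 / δ^2 ≤ n := hn0.trans (by rw [hn']; exact_mod_cast hn)
    rw [div_le_iff₀ (by positivity)] at h1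
    linarith
  have hδDn : 2 ≤ δ * D * n := by
    have h1 : (2:ℝ)^2 ≤ (δ * D * n)^2 := by
      have : (δ * D * n)^2 = (δ^2 * n) * (D^2 * n) := by ring
      rw [this]; nlinarith
    exact le_of_sq_le_sq h1 (by positivity)
  have hL1 : (1:ℝ) ≤ (L:ℝ)^2 := by
    have : (1:ℝ) ≤ L := by exact_mod_cast (by omega : 1 ≤ L)
    nlinarith
  have h5 : (2:ℝ) ^ (2*k+2) / n ≤ 2^L * (δ*D) := by
    rw [div_le_iff₀ hnpos]
    have : (2:ℝ)^(2*k+2) = 2^L * 2 := by rw [hL, ← pow_succ]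
    rw [this]
    calc (2:ℝ)^L * 2 ≤ 2^L * (δ * D * n) := by gcongr
      _ = _ := by ring
  have h6 : 2^L * (δ*D) ≤ E0 := by
    rw [hE0]
    have : 0 ≤ 2^L * (δ*D) := by positivity
    nlinarith
  linarith

end Pool.Agent.LibMP92436f
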