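import Pool.Agent.Lib_MP_92436f_lc.Growth2
import Pool.Agent.Lib_MP_92436f_lc.NoGrowth

set_option autoImplicit false
set_option linter.unusedSectionVars false

namespace Pool.Agent.LibMP92436f

open Finset

def Ex4 : Finset (Finset ℕ) := {{0, 1}, {2, 3}, {0, 1, 2, 3}}

lemma odd_cases : ∀ S ∈ (range 4).powerset, Odd S.card →
    S = {0} ∨ S = {1} ∨ S = {2} ∨ S = {3} ∨ S = {0,1,2} ∨ S = {0,1,3} ∨ S = {0,2,3} ∨ S = {1,2,3} := by
  decide

lemma even_cases : ∀ S ∈ (range 4).powerset, Even S.card → S ≠ ∅ → S ∉ Ex4 →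
    S = {0,2} ∨ S = {0,3} ∨ S = {1,2} ∨ S = {1,3} := by
  decide

section

variable {Ω : Type} [Fintype Ω] {ι : Type}

def a4 (a0 a1 c d : ι) : ℕ → ι := fun l => if l = 0 then a0 else if l = 1 then a1 else
  if l = 2 then c else d

lemma inv4 {x : ι → Ω → ℝ} {Y : Finset ι} {D : ℝ} (hD0 : 0 < D) {a0 a1 c d : ι}
    (v0 : Vs x Y (x a0) ≤ 16384^2 * D^2 * Y.card) (v1 : Vs x Y (x a1) ≤ 16384^2 * D^2 * Y.card)
    (v2 : Vs x Y (x c) ≤ 16384^2 * D^2 * Y.card) (v3 : Vs x Y (x d) ≤ 16384^2 * D^2 * Y.card)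
    (h02 : (phi x a0 c)^2 ≤ 16384^2 * D^2) (h12 : (phi x a1 c)^2 ≤ 16384^2 * D^2)
    (h03 : (phi x a0 d)^2 ≤ 16384^2 * D^2) (h13 : (phi x a1 d)^2 ≤ 16384^2 * D^2)
    (w0 : V3 x Y a0 c d ≤ 16384^2 * D^2 * Y.card) (w1 : V3 x Y a1 c d ≤ 16384^2 * D^2 * Y.card)
    (w2 : V3 x Y a0 a1 c ≤ 16384^2 * D^2 * Y.card) (w3 : V3 x Y a0 a1 d ≤ 16384^2 * D^2 * Y.card) :
    Inv x Y D Ex4 4 16384 (a4 a0 a1 c d) := by
  have e0 : a4 a0 a1 c d 0 = a0 := rfl
  have e1 : a4 a0 a1 c d 1 = a1 := rfl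
  have e2 : a4 a0 a1 c d 2 = c := rfl
  have e3 : a4 a0 a1 c d 3 = d := rfl
  constructor
  · intro S hS ho
    rcases odd_cases S (mem_powerset.mpr hS) ho with rfl | rfl | rfl | rfl | rfl | rfl | rfl | rfl
    · have : xs x (a4 a0 a1 c d) {0} = x a0 := by funext j; simp [xs, e0]
      rw [this]; exact v0
    · have : xs x (a4 a0 a1 c d) {1} = x a1 := by funext j; simp [xs, e1]
      rw [this]; exact v1
    · have : xs x (a4 a0 a1 c d) {2} = x c := by funext j; simp [xs, e2]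
      rw [this]; exact v2
    · have : xs x (a4 a0 a1 c d) {3} = x d := by funext j; simp [xs, e3]
      rw [this]; exact v3
    · have : xs x (a4 a0 a1 c d) {0,1,2} = fun j => x a0 j * x a1 j * x c j := by
        funext j; simp [xs, e0, e1, e2, mul_assoc]
      rw [this]; exact w2
    · have : xs x (a4 a0 a1 c d) {0,1,3} = fun j => x a0 j * x a1 j * x d j := by
        funext j; simp [xs, e0, e1, e3, mul_assoc]
      rw [this]; exact w3
    · have : xs x (a4 a0 a1 c d) {0,2,3} = fun j => x a0 j * x c j * x d j := by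
        funext j; simp [xs, e0, e2, e3, mul_assoc]
      rw [this]; exact w0
    · have : xs x (a4 a0 a1 c d) {1,2,3} = fun j => x a1 j * x c j * x d j := by
        funext j; simp [xs, e1, e2, e3, mul_assoc]
      rw [this]; exact w1
  · intro S hS ho hne hEx
    have key : ∀ y : ℝ, y^2 ≤ 16384^2 * D^2 → |y| ≤ 16384 * D := by
      intro y hy
      apply abs_le_of_sq_le_sq _ (by positivity)
      calc y^2 ≤ 16384^2 * D^2 := hy
        _ = _ := by ring
    rcases even_cases S (mem_powerset.mpr hS) ho hne hEx with rfl | rfl | rfl | rfl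
    · have : xs x (a4 a0 a1 c d) {0,2} = fun j => x a0 j * x c j := by
        funext j; simp [xs, e0, e2]
      rw [this]; exact key _ h02
    · have : xs x (a4 a0 a1 c d) {0,3} = fun j => x a0 j * x d j := by
        funext j; simp [xs, e0, e3]
      rw [this]; exact key _ h03
    · have : xs x (a4 a0 a1 c d) {1,2} = fun j => x a1 j * x c j := by
        funext j; simp [xs, e1, e2]
      rw [this]; exact key _ h12
    · have : xs x (a4 a0 a1 c d) {1,3} = fun j => x a1 j * x d j := by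
        funext j; simp [xs, e1, e3]
      rw [this]; exact key _ h13

end

lemma KK_ge (t0 : ℕ) {K : ℝ} (hK : 0 ≤ K) (m : ℕ) : K ≤ KK t0 K m := by
  induction m with
  | zero => exact le_rfl
  | succ m ih =>
    unfold KK
    have h1 : (1:ℝ) ≤ 2 ^ (t0+m) := one_le_pow₀ (by norm_num)
    have h2 := KK_nonneg t0 hK m
    nlinarith

lemma ex4_pair {i t : ℕ} (hit : i < t) (h01 : ¬ (i = 0 ∧ t = 1)) (h23 : ¬ (i = 2 ∧ t = 3))
    {S : Finset ℕ} (hS : S ⊆ range i) : insert t (insert i S) ∉ Ex4 := by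
  intro h
  unfold Ex4 at h
  rw [mem_insert, mem_insert, mem_singleton] at h
  have hlt : ∀ l ∈ insert t (insert i S), l = t ∨ l ≤ i := by
    intro l hl
    rw [mem_insert, mem_insert] at hl
    rcases hl with rfl | rfl | hl
    · left; rfl
    · right; exact le_rfl
    · right
      have := hS hl
      rw [mem_range] at this
      omega
  have ht : t ∈ insert t (insert i S) := mem_insert_self _ _
  have hi : i ∈ insert t (insert i S) := mem_insert_of_mem (mem_insert_self _ _)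
  rcases h with h | h | h
  · rw [h] at ht hi
    simp only [mem_insert, mem_singleton] at ht hi
    omega
  · rw [h] at ht hi
    simp only [mem_insert, mem_singleton] at ht hi
    omega
  · rw [h] at ht hi hlt
    have h3 := hlt 3 (by simp)
    have h2 := hlt 2 (by simp)
    simp only [mem_insert, mem_singleton] at ht hi
    omega

theorem growth (k : ℕ) (hk : 2 ≤ k) : ∃ A : ℝ, 1 ≤ A ∧
    ∀ (Ω ι : Type) [Fintype Ω] [Nonempty Ω] (x : ι → Ω → ℝ), Signs x →
      ∀ Y : Finset ι, Y.Nonempty → ∀ D : ℝ, 0 < D →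
      ∑ a ∈ Y, ∑ b ∈ Y, phi x a b ^ 2 = D^2 * (Y.card:ℝ)^2 →
      ∀ e : ℕ, Odd e → 9 ≤ e → ∀ κ : ℝ, 0 < κ → κ ≤ 1 →
      κ^(e+1) * (Y.card:ℝ)^2 ≤ 2 * SS x e Y → 128 ≤ κ^(e+5) * Y.card →
      (∀ H ⊆ Y, (ms x e H Y)^2 * (Y.card:ℝ) ≤ 8 * H.card * (SS x e Y)^2) →
      (A * D) ^ e * (Y.card:ℝ)^2 ≤ ∑ a ∈ Y, ∑ b ∈ Y, |phi x a b| ^ e →
      Tuple k x Y (ck k + 2 ^ (2*k+2) / Fintype.card Ω) := by
  classical
  obtain ⟨c, hc, hcomp⟩ := comp2 hk
  set L := 2*k+1 with hL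
  set KL := KK 4 16384 (L - 4) with hKL
  have hKL0 : (16384:ℝ) ≤ KL := KK_ge 4 (by norm_num) _
  set C3 : ℝ := 2 * (L:ℝ)^2 * (2^L * KL) / c with hC3
  have hC3pos : 0 < C3 := by
    have : (0:ℝ) < L := by exact_mod_cast (by omega : 0 < L)
    positivity
  refine ⟨8 * C3 + KL + 1, by linarith, ?_⟩
  set A := 8 * C3 + KL + 1 with hA
  intro Ω ι _ _ x hx Y hY D hD0 hD e he he9 κ hκ0 hκ1 hSκ hYκ hP hgr
  have hYc : (0:ℝ) < Y.card := by exact_mod_cast hY.card_pos
  have hApos : 0 < A := by linarith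
  have hG : (A*D)^e * (Y.card:ℝ)^2 ≤ 2 * SS x e Y := hgr.trans (sum_abs_le x he Y)
  have hSpos : 0 < SS x e Y := by
    have : 0 < κ^(e+1) * (Y.card:ℝ)^2 := by positivity
    linarith
  obtain ⟨Ys, hYs, a0, ha0, a1, ha1, hne01, hmax, hV, hW, hcompl, hAu, hYu, hY64⟩ :=
    first_pair hx hY hD0 hD he he9 hκ0 hκ1 hSκ hYκ hP hApos hG
  have hAD1 : A * D ≤ 1 := by
    have h1 : ∑ a ∈ Y, ∑ b ∈ Y, |phi x a b| ^ e ≤ ∑ _a ∈ Y, ∑ _b ∈ Y, (1:ℝ) :=
      sum_le_sum fun a _ => sum_le_sum fun b _ => pow_le_one₀ (abs_nonneg _) (abs_phi_le hx a b)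
    have h2 : ∑ _a ∈ Y, ∑ _b ∈ Y, (1:ℝ) = (Y.card:ℝ)^2 := by simp; ring
    rw [h2] at h1
    have h3 : (A*D)^e * (Y.card:ℝ)^2 ≤ 1^e * (Y.card:ℝ)^2 := by
      rw [one_pow, one_mul]; exact hgr.trans h1
    exact le_of_pow_le_pow_left₀ (by omega) zero_le_one
      (le_of_mul_le_mul_right h3 (by positivity))
  set q := C3 * D with hq
  have hq0 : 0 < q := by positivity
  have hqA : 8 * q ≤ A * D := by
    rw [hq, hA]
    have : 0 ≤ (KL + 1) * D := by
      have : 0 ≤ KL + 1 := by linarith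
      positivity
    linarith
  have hKLD : KL * D < 1 := by
    have h1 : KL * D < A * D := by
      apply mul_lt_mul_of_pos_right _ hD0
      rw [hA]; linarith
    linarith
  obtain ⟨p2, hp2, p3, hp3, hne23, hq23, ht, h02, h12, h03, h13, w0, w1, w2, w3⟩ :=
    second_pair hx hY hD0 hD he he9 hYs hSpos hP hG ha0 ha1 hmax hV hW hcompl hAu hYu hY64 hq0 hqA
  have hVK : ∀ a ∈ Ys, Vs x Y (x a) ≤ 16384^2 * D^2 * Y.card := by
    intro a ha
    refine (hV a ha).trans ?_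
    gcongr
    norm_num
  have hinv := inv4 hD0 (hVK a0 ha0) (hVK a1 ha1) (hVK p2 hp2) (hVK p3 hp3) h02 h12 h03 h13 w0 w1 w2 w3
  obtain ⟨a, ha, ha4, haY⟩ := EL_iter hx hY hD0.le hD.le (by norm_num) hinv (L - 4)
  have hLe : 4 + (L - 4) = L := by omega
  rw [hLe] at ha haY
  have q0 : a 0 = a0 := ha4 0 (by omega)
  have q1 : a 1 = a1 := ha4 1 (by omega)
  have q2 : a 2 = p2 := ha4 2 (by omega)
  have q3 : a 3 = p3 := ha4 3 (by omega)
  refine ⟨a, ?_, ?_, ?_⟩
  · intro l hl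
    by_cases h4 : 4 ≤ l
    · exact haY l h4 hl
    · have : l = 0 ∨ l = 1 ∨ l = 2 ∨ l = 3 := by omega
      rcases this with rfl | rfl | rfl | rfl
      · rw [q0]; exact hYs ha0
      · rw [q1]; exact hYs ha1
      · rw [q2]; exact hYs hp2
      · rw [q3]; exact hYs hp3
  · intro i j hij hj
    by_cases h01 : i = 0 ∧ j = 1
    · rw [h01.1, h01.2, q0, q1]; exact hne01
    by_cases h23 : i = 2 ∧ j = 3
    · rw [h23.1, h23.2, q2, q3]; exact hne23
    apply distinct_of_inv hx ha hKLD hij hj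
    have h5 := ex4_pair hij h01 h23 (S := ∅) (empty_subset _)
    have h6 : insert j (insert i (∅ : Finset ℕ)) = {i, j} := by
      ext l; simp [or_comm]
    rw [h6] at h5
    exact h5
  · intro w hw
    have hsig : ∀ l < L, ∀ j, x (a l) j = 1 ∨ x (a l) j = -1 := fun l _ j => hx _ _
    have hKLn : 0 ≤ KL := by linarith
    have hC : ∀ t < L, ∀ i < t, ¬ (i = 0 ∧ t = 1) → ¬ (i = 2 ∧ t = 3) →
        Cond L i t (fun l => x (a l)) (2^L * (KL * D)) :=
      fun t ht i hi h01 h23 => cond_of_inv hD0.le hKLn ha hi ht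
        (fun S hS _ => ex4_pair hi h01 h23 hS)
    have hu0 : ex (fun j => x (a 0) j * x (a 1) j) = phi x a0 a1 := by rw [q0, q1]; rfl
    have hu1 : ex (fun j => x (a 2) j * x (a 3) j) = phi x p2 p3 := by rw [q2, q3]; rfl
    have ht' : ex (fun j => x (a 0) j * x (a 1) j * x (a 2) j * x (a 3) j) = t4 x a0 a1 p2 p3 := by
      rw [q0, q1, q2, q3]; rfl
    have hqu : q ≤ phi x a0 a1 := by linarith
    obtain ⟨f1, f2⟩ := FL2 (L := L) (y := fun l => x (a l)) (E1 := 2^L * (KL * D)) (q := q)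
      (by omega) (fun l _ => hw.1 l) hw.2.2 hsig
      (by positivity) hC hq0.le (by rw [hu0]; exact hqu) (by rw [hu1]; exact hq23)
      (by rw [hu0, hu1, ht']; exact ht)
    set E0 : ℝ := (L:ℝ)^2 * (2^L * (KL * D)) with hE0
    have hqc : q * c = 2 * E0 := by
      rw [hq, hC3, hE0]; field_simp
    have hq1 : q ≤ 1 := hqu.trans (abs_le.mp (abs_phi_le hx a0 a1)).2
    have hE0n : 0 ≤ E0 := by positivity
    have g01 := Gh_nonneg (L := L) (a := 0) (b := 1) (by omega) (by omega) (by omega) (fun l _ => hw.1 l)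
    have hmain : ck k + E0 ≤ ex (fun j => Fw L w (fun l => x (a l) j)) := by
      have hckle : ck k ≤ av L (Fw L w) := ck_le_av hw.2.2
      rcases hcomp w hw with h1 | h1 | h1
      · have h2 : q * c ≤ 1 * c := mul_le_mul_of_nonneg_right hq1 hc.le
        have h3 : 0 ≤ q * Gh L w 0 1 := mul_nonneg hq0.le g01
        linarith
      · have h3 : q * c ≤ q * Gh L w 0 1 := mul_le_mul_of_nonneg_left h1 hq0.le
        linarith
      · have h3 : q * c ≤ q * Gh L w 2 3 := mul_le_mul_of_nonneg_left h1 hq0.le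
        linarith
    refine le_trans ?_ hmain
    set n : ℝ := (Fintype.card Ω : ℝ) with hn'
    have hn1 : 1 ≤ n := by rw [hn']; exact_mod_cast Fintype.card_pos
    have hnpos : 0 < n := by linarith
    have hDn : 1 ≤ D^2 * n := by
      have h1 := sum_phi_sq_ge hx Y
      rw [hD] at h1
      have h2 : 1 * (Y.card:ℝ)^2 ≤ (D^2 * n) * (Y.card:ℝ)^2 := by
        rw [hn']; linarith
      exact le_of_mul_le_mul_right h2 (by positivity)
    have hDn1 : 1 ≤ D * n := by
      have h1 : (1:ℝ)^2 ≤ (D * n)^2 := by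
        have : (D * n)^2 = (D^2 * n) * n := by ring
        rw [this]; nlinarith
      exact le_of_sq_le_sq h1 (by positivity)
    have hL1 : (1:ℝ) ≤ (L:ℝ)^2 := by
      have : (1:ℝ) ≤ L := by exact_mod_cast (by omega : 1 ≤ L)
      nlinarith
    have h5 : (2:ℝ) ^ (2*k+2) / n ≤ 2^L * (KL*D) := by
      rw [div_le_iff₀ hnpos]
      have : (2:ℝ)^(2*k+2) = 2^L * 2 := by rw [hL, ← pow_succ]
      rw [this]
      have h6 : 2 ≤ KL * D * n := by
        have : KL * 1 ≤ KL * (D * n) := mul_le_mul_of_nonneg_left hDn1 hKLn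
        linarith
      calc (2:ℝ)^L * 2 ≤ 2^L * (KL * D * n) := by gcongr
        _ = _ := by ring
    have h6 : 2^L * (KL*D) ≤ E0 := by
      rw [hE0]
      have : 0 ≤ 2^L * (KL*D) := by positivity
      nlinarith
    linarith

end Pool.Agent.LibMP92436f
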