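import Pool.Agent.Lib_MP_92436f_lc.Cube

set_option autoImplicit false

namespace Pool.Agent.LibMP92436f

open Finset

noncomputable def Fw (L : ℕ) (w z : ℕ → ℝ) : ℝ := |∑ l ∈ range L, w l * z l|

noncomputable def Hw (L : ℕ) (w : ℕ → ℝ) (i t : ℕ) (y : ℕ → ℝ) : ℝ :=
  av L (fun e => e i * e t * Fw L w (mix i y e))

noncomputable def Gh (L : ℕ) (w : ℕ → ℝ) (a b : ℕ) : ℝ :=
  av L (fun e => e a * e b * Fw L w e)

lemma Fw_congr {L : ℕ} {w z z' : ℕ → ℝ} (h : ∀ l < L, z l = z' l) : Fw L w z = Fw L w z' := by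
  unfold Fw
  congr 1
  exact sum_congr rfl fun l hl => by rw [h l (mem_range.mp hl)]

lemma Fw_neg (L : ℕ) (w z : ℕ → ℝ) : Fw L w (fun l => - z l) = Fw L w z := by
  unfold Fw
  rw [← abs_neg]
  congr 1
  rw [← sum_neg_distrib]
  exact sum_congr rfl fun l _ => by ring

lemma Fw_nonneg (L : ℕ) (w z : ℕ → ℝ) : 0 ≤ Fw L w z := abs_nonneg _

lemma Fw_le_one {L : ℕ} {w z : ℕ → ℝ} (hw : ∀ l < L, 0 ≤ w l) (hw1 : ∑ l ∈ range L, w l = 1)
    (hz : ∀ l < L, |z l| ≤ 1) : Fw L w z ≤ 1 := by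
  unfold Fw
  calc |∑ l ∈ range L, w l * z l| ≤ ∑ l ∈ range L, |w l * z l| := abs_sum_le_sum_abs _ _
    _ ≤ ∑ l ∈ range L, w l := by
        apply sum_le_sum
        intro l hl
        rw [abs_mul, abs_of_nonneg (hw l (mem_range.mp hl))]
        have := hz l (mem_range.mp hl)
        have := hw l (mem_range.mp hl)
        nlinarith
    _ = 1 := hw1

lemma av_telescope {L : ℕ} {y : ℕ → ℝ} (hy : ∀ l < L, y l = 1 ∨ y l = -1) (n : ℕ) (hn : n ≤ L)
    (G : (ℕ → ℝ) → ℝ) :
    av L (fun e => G (mix n y e)) =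
      av L G + ∑ i ∈ range n, y i * av L (fun e => e i * G (mix i y e)) := by
  induction n with
  | zero => simp [mix_zero]
  | succ n ih =>
    rw [sum_range_succ, ← add_assoc, ← ih (by omega), ← av_mix_succ (by omega) (hy n (by omega)) G]
    have : (fun e : ℕ → ℝ => (1 + y n * e n) * G (mix n y e))
        = fun e => G (mix n y e) + y n * (e n * G (mix n y e)) := by funext e; ring
    rw [this, av_add, av_mul_left]

lemma hybrid {L : ℕ} (w : ℕ → ℝ) {y : ℕ → ℝ} (hy : ∀ l < L, y l = 1 ∨ y l = -1) :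
    Fw L w y = av L (Fw L w) + ∑ t ∈ range L, ∑ i ∈ range t, y i * y t * Hw L w i t y := by
  have h1 := av_telescope hy L le_rfl (Fw L w)
  have h2 : av L (fun e => Fw L w (mix L y e)) = Fw L w y := by
    rw [show (fun e : ℕ → ℝ => Fw L w (mix L y e)) = fun _ => Fw L w y from ?_, av_const]
    funext e
    apply Fw_congr
    intro l hl; simp [mix, hl]
  rw [← h2, h1]
  congr 1
  apply sum_congr rfl
  intro t ht
  rw [mem_range] at ht
  have h3 : (fun e : ℕ → ℝ => e t * Fw L w (mix t y e)) =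
      fun e => (fun z : ℕ → ℝ => z t * Fw L w z) (mix t y e) := by
    funext e
    simp [mix]
  rw [h3, av_telescope hy t ht.le (fun z : ℕ → ℝ => z t * Fw L w z)]
  have h4 : av L (fun z : ℕ → ℝ => z t * Fw L w z) = 0 := by
    apply av_odd
    intro e _
    rw [Fw_neg]; ring
  rw [h4, zero_add, mul_sum]
  apply sum_congr rfl
  intro i hi
  rw [mem_range] at hi
  have h5 : (fun e : ℕ → ℝ => e i * (fun z : ℕ → ℝ => z t * Fw L w z) (mix i y e)) =
      fun e => e i * e t * Fw L w (mix i y e) := by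
    funext e
    simp [mix, Nat.not_lt.mpr hi.le, mul_assoc]
  rw [h5]
  unfold Hw
  ring

lemma abs_conv {p q r s : ℝ} (h1 : p ≤ q) (h2 : p ≤ r) (h3 : q ≤ s) (h4 : r ≤ s)
    (h5 : p + s = q + r) : |q| + |r| ≤ |p| + |s| := by
  have hp := le_abs_self p
  have hp' := neg_abs_le p
  have hs := le_abs_self s
  have hs' := neg_abs_le s
  rcases abs_cases q with ⟨hq, _⟩ | ⟨hq, _⟩ <;> rcases abs_cases r with ⟨hr, _⟩ | ⟨hr, _⟩ <;>
    rw [hq, hr] <;> linarith

lemma sum_mix_update {L i i' : ℕ} (hi : i < L) (hi' : i' ≤ i) (w y e : ℕ → ℝ) (v : ℝ) :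
    ∑ l ∈ range L, w l * mix i' y (Function.update e i v) l =
      ∑ l ∈ range L, w l * mix i' y e l + w i * (v - e i) := by
  rw [← sum_erase_add (range L) (fun l => w l * mix i' y (Function.update e i v) l) (mem_range.mpr hi),
    ← sum_erase_add (range L) (fun l => w l * mix i' y e l) (mem_range.mpr hi)]
  have h1 : ∑ l ∈ (range L).erase i, w l * mix i' y (Function.update e i v) l =
      ∑ l ∈ (range L).erase i, w l * mix i' y e l := by
    apply sum_congr rfl
    intro l hl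
    have : l ≠ i := ne_of_mem_erase hl
    simp [mix, this]
  rw [h1]
  simp [mix, Nat.not_lt.mpr hi']
  ring

lemma pair_pointwise {wi wt ei et c : ℝ} (hwi : 0 ≤ wi) (hwt : 0 ≤ wt) (hi : ei = 1 ∨ ei = -1)
    (ht : et = 1 ∨ et = -1) :
    0 ≤ ei * et * (|c| - |c + wi * (-ei - ei)| - |c + wt * (-et - et)|
      + |c + wi * (-ei - ei) + wt * (-et - et)|) := by
  rcases hi with rfl | rfl <;> rcases ht with rfl | rfl
  · have := abs_conv (p := c - 2*wi - 2*wt) (q := c - 2*wi) (r := c - 2 * wt) (s := c)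
      (by linarith) (by linarith) (by linarith) (by linarith) (by ring)
    have e1 : c + wi * (-1 - 1) = c - 2 * wi := by ring
    have e2 : c + wt * (-1 - 1) = c - 2 * wt := by ring
    have e3 : c + wi * (-1 - 1) + wt * (-1 - 1) = c - 2 * wi - 2 * wt := by ring
    rw [e3, e1, e2]; linarith
  · have := abs_conv (p := c - 2*wi) (q := c) (r := c - 2*wi + 2 * wt) (s := c + 2 * wt)
      (by linarith) (by linarith) (by linarith) (by linarith) (by ring)
    have e1 : c + wi * (-1 - 1) = c - 2 * wi := by ring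
    have e2 : c + wt * (- -1 - -1) = c + 2 * wt := by ring
    have e3 : c + wi * (-1 - 1) + wt * (- -1 - -1) = c - 2 * wi + 2 * wt := by ring
    rw [e3, e1, e2]; linarith
  · have := abs_conv (p := c - 2*wt) (q := c) (r := c + 2*wi - 2 * wt) (s := c + 2 * wi)
      (by linarith) (by linarith) (by linarith) (by linarith) (by ring)
    have e1 : c + wi * (- -1 - -1) = c + 2 * wi := by ring
    have e2 : c + wt * (-1 - 1) = c - 2 * wt := by ring
    have e3 : c + wi * (- -1 - -1) + wt * (-1 - 1) = c + 2 * wi - 2 * wt := by ring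
    rw [e3, e1, e2]; linarith
  · have := abs_conv (p := c) (q := c + 2*wi) (r := c + 2 * wt) (s := c + 2 * wi + 2 * wt)
      (by linarith) (by linarith) (by linarith) (by linarith) (by ring)
    have e1 : c + wi * (- -1 - -1) = c + 2 * wi := by ring
    have e2 : c + wt * (- -1 - -1) = c + 2 * wt := by ring
    have e3 : c + wi * (- -1 - -1) + wt * (- -1 - -1) = c + 2 * wi + 2 * wt := by ring
    rw [e3, e1, e2]; linarith

lemma pair_nonneg {L i t i' : ℕ} (hi : i < L) (ht : t < L) (hne : i ≠ t) (hi' : i' ≤ i)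
    (ht' : i' ≤ t) {w : ℕ → ℝ} (hw : ∀ l < L, 0 ≤ w l) (y : ℕ → ℝ) (g : (ℕ → ℝ) → ℝ)
    (hg : ∀ e, IsSg L e → 0 ≤ g e) (hgi : ∀ e c, g (Function.update e i c) = g e)
    (hgt : ∀ e c, g (Function.update e t c) = g e) :
    0 ≤ av L (fun e => e i * e t * g e * Fw L w (mix i' y e)) := by
  set G : (ℕ → ℝ) → ℝ := fun e => e i * e t * g e * Fw L w (mix i' y e) with hG
  have h1 := av_flip hi G
  have h2 := av_flip ht G
  have h3 := av_flip ht (fun e => G (Function.update e i (- e i)))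
  have h4 : 4 * av L G = av L (fun e => ((G e + G (Function.update e i (- e i))) +
      G (Function.update e t (- e t))) +
      G (Function.update (Function.update e t (- e t)) i (- (Function.update e t (- e t)) i))) := by
    rw [av_add, av_add, av_add, ← h1, ← h2]
    rw [show av L (fun e => G (Function.update (Function.update e t (- e t)) i
      (- (Function.update e t (- e t)) i))) = av L G from ?_]
    · ring
    · rw [h1, h3]
  have h5 : 0 ≤ 4 * av L G := by
    rw [h4]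
    apply av_nonneg
    intro e he
    simp only [hG]
    rw [hgi, hgt, hgi, hgt]
    simp only [Function.update_self, Function.update_of_ne hne, Function.update_of_ne hne.symm]
    unfold Fw
    rw [sum_mix_update hi hi', sum_mix_update ht ht', sum_mix_update hi hi', sum_mix_update ht ht',
      Function.update_of_ne hne]
    have hp := pair_pointwise (c := ∑ l ∈ range L, w l * mix i' y e l) (hw i hi) (hw t ht)
      (he.1 i hi) (he.1 t ht)
    have hge := hg e he
    have : 0 ≤ g e * (e i * e t * (|∑ l ∈ range L, w l * mix i' y e l|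
      - |∑ l ∈ range L, w l * mix i' y e l + w i * (-e i - e i)|
      - |∑ l ∈ range L, w l * mix i' y e l + w t * (-e t - e t)|
      + |∑ l ∈ range L, w l * mix i' y e l + w i * (-e i - e i) + w t * (-e t - e t)|)) :=
      mul_nonneg hge hp
    have e1 : ∑ l ∈ range L, w l * mix i' y e l + w t * (-e t - e t) + w i * (-e i - e i) =
      ∑ l ∈ range L, w l * mix i' y e l + w i * (-e i - e i) + w t * (-e t - e t) := by ring
    rw [e1]
    linarith
  linarith

lemma isSg_mix_abs {L i : ℕ} {y e : ℕ → ℝ} (hy : ∀ l < L, y l = 1 ∨ y l = -1) (he : IsSg L e) :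
    ∀ l < L, |mix i y e l| ≤ 1 := by
  intro l hl
  unfold mix
  split_ifs
  · rcases hy l hl with h | h <;> rw [h] <;> norm_num
  · rcases he.1 l hl with h | h <;> rw [h] <;> norm_num

lemma Hw_nonneg {L i t : ℕ} (hit : i < t) (ht : t < L) {w : ℕ → ℝ} (hw : ∀ l < L, 0 ≤ w l)
    (y : ℕ → ℝ) : 0 ≤ Hw L w i t y := by
  have := pair_nonneg (L := L) (i := i) (t := t) (i' := i) (hit.trans ht) ht hit.ne le_rfl hit.le hw y
    (fun _ => 1) (fun _ _ => zero_le_one) (fun _ _ => rfl) (fun _ _ => rfl)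
  unfold Hw
  simpa using this

lemma Hw_le_one {L i t : ℕ} (hit : i < t) (ht : t < L) {w : ℕ → ℝ} (hw : ∀ l < L, 0 ≤ w l)
    (hw1 : ∑ l ∈ range L, w l = 1)
    {y : ℕ → ℝ} (hy : ∀ l < L, y l = 1 ∨ y l = -1) : Hw L w i t y ≤ 1 := by
  unfold Hw
  rw [← av_const L 1]
  apply av_mono
  intro e he
  have h1 := Fw_le_one hw hw1 (isSg_mix_abs (i := i) hy he)
  have h2 := Fw_nonneg L w (mix i y e)
  rcases he.1 i (hit.trans ht) with h | h <;> rcases he.1 t ht with h' | h' <;> rw [h, h'] <;>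
    norm_num <;> linarith

lemma Hw_neg {L i t : ℕ} (w : ℕ → ℝ) (y : ℕ → ℝ) :
    Hw L w i t (fun l => - y l) = Hw L w i t y := by
  unfold Hw
  rw [av_neg]
  apply av_congr
  intro e _
  have : mix i (fun l => - y l) (fun l => - e l) = fun l => - mix i y e l := by
    funext l; unfold mix; split_ifs <;> rfl
  rw [this, Fw_neg]; ring

lemma Hw_mix {L i t : ℕ} (w : ℕ → ℝ) (y z : ℕ → ℝ) : Hw L w i t (mix i y z) = Hw L w i t y := by
  unfold Hw
  apply av_congr
  intro e _
  have : mix i (mix i y z) e = mix i y e := by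
    funext l; unfold mix; split_ifs <;> rfl
  rw [this]

/-- symmetrised product indicator -/
noncomputable def Qs (i : ℕ) (e z : ℕ → ℝ) : ℝ :=
  ((∏ l ∈ range i, (1 + z l * e l)) + ∏ l ∈ range i, (1 - z l * e l)) / 2

lemma Hw_eq_av {L i t : ℕ} (hi : i ≤ L) (w : ℕ → ℝ) {y : ℕ → ℝ} (hy : ∀ l < L, y l = 1 ∨ y l = -1) :
    Hw L w i t y = av L (fun e => Qs i e y * Hw L w i t e) := by
  have h1 : av L (fun e => (∏ l ∈ range i, (1 + y l * e l)) * Hw L w i t e) = Hw L w i t y := by
    rw [av_prod hy i hi]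
    rw [show (fun e : ℕ → ℝ => Hw L w i t (mix i y e)) = fun _ => Hw L w i t y from
      funext fun e => Hw_mix w y e, av_const]
  have h2 : av L (fun e => (∏ l ∈ range i, (1 - y l * e l)) * Hw L w i t e) = Hw L w i t y := by
    rw [av_neg, ← h1]
    apply av_congr
    intro e _
    rw [Hw_neg]
    congr 1
    exact prod_congr rfl fun l _ => by ring
  have h3 : (fun e : ℕ → ℝ => Qs i e y * Hw L w i t e) = fun e =>
      (1/2) * ((∏ l ∈ range i, (1 + y l * e l)) * Hw L w i t e +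
      (∏ l ∈ range i, (1 - y l * e l)) * Hw L w i t e) := by
    funext e; unfold Qs; ring
  rw [h3, av_mul_left, av_add, h1, h2]; ring

section prob

variable {Ω : Type} [Fintype Ω]

noncomputable def ex (f : Ω → ℝ) : ℝ := (∑ j, f j) / Fintype.card Ω

lemma ex_add (f g : Ω → ℝ) : ex (fun j => f j + g j) = ex f + ex g := by
  unfold ex; rw [sum_add_distrib, add_div]

lemma ex_sub (f g : Ω → ℝ) : ex (fun j => f j - g j) = ex f - ex g := by
  unfold ex; rw [sum_sub_distrib, sub_div]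

lemma ex_mul_left (c : ℝ) (f : Ω → ℝ) : ex (fun j => c * f j) = c * ex f := by
  unfold ex; rw [← mul_sum, mul_div_assoc]

lemma ex_neg (f : Ω → ℝ) : ex (fun j => - f j) = - ex f := by
  unfold ex; rw [sum_neg_distrib, neg_div]

lemma ex_mono {f g : Ω → ℝ} (h : ∀ j, f j ≤ g j) : ex f ≤ ex g := by
  unfold ex
  gcongr with j _
  exact h j

lemma ex_nonneg {f : Ω → ℝ} (h : ∀ j, 0 ≤ f j) : 0 ≤ ex f := by
  unfold ex
  exact div_nonneg (sum_nonneg fun j _ => h j) (by positivity)

lemma ex_const [Nonempty Ω] (c : ℝ) : ex (fun _ : Ω => c) = c := by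
  unfold ex
  rw [sum_const, card_univ, nsmul_eq_mul]
  field_simp

lemma ex_sum {α : Type*} (s : Finset α) (f : α → Ω → ℝ) :
    ex (fun j => ∑ a ∈ s, f a j) = ∑ a ∈ s, ex (f a) := by
  unfold ex
  rw [sum_comm, sum_div]

lemma ex_av (L : ℕ) (G : (ℕ → ℝ) → Ω → ℝ) :
    ex (fun j => av L (fun e => G e j)) = av L (fun e => ex (G e)) := by
  unfold av ex
  rw [← sum_div, sum_comm, sum_div, sum_div, sum_div]
  simp_rw [sum_div]
  apply sum_congr rfl
  intro T _
  rw [← sum_div, ← sum_div, ← sum_div, ← sum_div, div_right_comm]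

/-- the sign condition used at the pair `(i, t)` -/
def Cond (L i t : ℕ) (y : ℕ → Ω → ℝ) (E1 : ℝ) : Prop :=
  ∀ e, IsSg L e → -E1 ≤ ex (fun j => Qs i e (fun l => y l j) * (y i j * y t j))

/-- the term of the pair `(i,t)` -/
noncomputable def Tm (L : ℕ) (w : ℕ → ℝ) (y : ℕ → Ω → ℝ) (i t : ℕ) : ℝ :=
  ex (fun j => y i j * y t j * Hw L w i t (fun l => y l j))

lemma Tm_lower {L i t : ℕ} (hit : i < t) (ht : t < L) {w : ℕ → ℝ} (hw : ∀ l < L, 0 ≤ w l)
    (hw1 : ∑ l ∈ range L, w l = 1) {y : ℕ → Ω → ℝ} (hy : ∀ l < L, ∀ j, y l j = 1 ∨ y l j = -1)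
    {E1 : ℝ} (hE : 0 ≤ E1) (hC : Cond L i t y E1) : -E1 ≤ Tm L w y i t := by
  have h1 : Tm L w y i t = av L (fun e => Hw L w i t e *
      ex (fun j => Qs i e (fun l => y l j) * (y i j * y t j))) := by
    unfold Tm
    have : (fun j => y i j * y t j * Hw L w i t (fun l => y l j)) = fun j =>
        av L (fun e => Hw L w i t e * (Qs i e (fun l => y l j) * (y i j * y t j))) := by
      funext j
      rw [Hw_eq_av (hit.trans ht).le w (fun l hl => hy l hl j), ← av_mul_left]
      congr 1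
      funext e
      ring
    rw [this, ex_av]
    congr 1
    funext e
    exact ex_mul_left _ _
  rw [h1, ← av_const L (-E1)]
  apply av_mono
  intro e he
  have h2 := hC e he
  have h3 := Hw_nonneg hit ht hw e
  have h4 := Hw_le_one hit ht hw hw1 he.1
  nlinarith

lemma ex_Fw {L : ℕ} (w : ℕ → ℝ) {y : ℕ → Ω → ℝ} [Nonempty Ω]
    (hy : ∀ l < L, ∀ j, y l j = 1 ∨ y l j = -1) :
    ex (fun j => Fw L w (fun l => y l j)) =
      av L (Fw L w) + ∑ t ∈ range L, ∑ i ∈ range t, Tm L w y i t := by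
  have : (fun j => Fw L w (fun l => y l j)) = fun j => av L (Fw L w) +
      ∑ t ∈ range L, ∑ i ∈ range t, y i j * y t j * Hw L w i t (fun l => y l j) := by
    funext j
    exact hybrid w (fun l hl => hy l hl j)
  rw [this, ex_add, ex_const, ex_sum]
  congr 1
  apply sum_congr rfl
  intro t _
  rw [ex_sum]
  rfl

/-- general lower bound -/
lemma FL_general {L n : ℕ} (hn : n ≤ L) {w : ℕ → ℝ} (hw : ∀ l < L, 0 ≤ w l)
    (hw1 : ∑ l ∈ range L, w l = 1) {y : ℕ → Ω → ℝ} [Nonempty Ω]
    (hy : ∀ l < L, ∀ j, y l j = 1 ∨ y l j = -1)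
    {E1 : ℝ} (hE : 0 ≤ E1) (hC : ∀ t < L, n ≤ t → ∀ i < t, Cond L i t y E1) :
    av L (Fw L w) + ∑ t ∈ range n, ∑ i ∈ range t, (Tm L w y i t + E1) - (L:ℝ)^2 * E1 ≤
      ex (fun j => Fw L w (fun l => y l j)) := by
  rw [ex_Fw w hy]
  have h1 : ∑ t ∈ range n, ∑ i ∈ range t, (Tm L w y i t + E1) ≤
      ∑ t ∈ range L, ∑ i ∈ range t, (Tm L w y i t + E1) := by
    apply sum_le_sum_of_subset_of_nonneg
    · exact range_subset_range.mpr hn
    · intro t ht ht'
      rw [mem_range] at ht ht'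
      apply sum_nonneg
      intro i hi
      rw [mem_range] at hi
      have := Tm_lower hi ht hw hw1 hy hE (hC t ht (not_lt.mp ht') i hi)
      linarith
  have h2 : ∑ t ∈ range L, ∑ i ∈ range t, (Tm L w y i t + E1) ≤
      ∑ t ∈ range L, ∑ i ∈ range t, Tm L w y i t + (L:ℝ)^2 * E1 := by
    simp_rw [sum_add_distrib]
    gcongr
    calc ∑ t ∈ range L, ∑ i ∈ range t, E1 ≤ ∑ t ∈ range L, (L:ℝ) * E1 := by
          apply sum_le_sum
          intro t ht
          rw [mem_range] at ht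
          rw [sum_const, card_range, nsmul_eq_mul]
          gcongr
      _ = (L:ℝ)^2 * E1 := by rw [sum_const, card_range, nsmul_eq_mul]; ring
  linarith

end prob

end Pool.Agent.LibMP92436f
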