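import Pool.Agent.Lib_MP_92436f_lc.Growth1

set_option autoImplicit false
set_option linter.unusedSectionVars false

namespace Pool.Agent.LibMP92436f

open Finset

lemma top_subset {ι : Type} [DecidableEq ι] (f : ι → ℝ) (m : ℕ) : ∀ (N : ℕ) (Y : Finset ι), Y.card = N → m ≤ N →
    ∃ B ⊆ Y, B.card = m ∧ (m:ℝ) * ∑ a ∈ Y, f a ≤ Y.card * ∑ a ∈ B, f a := by
  intro N
  induction N with
  | zero =>
    intro Y hY hm
    refine ⟨Y, Subset.refl _, by omega, ?_⟩
    rw [hY]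
    have : m = 0 := by omega
    rw [this]
  | succ N ih =>
    intro Y hY hm
    by_cases hmN : m = N + 1
    · exact ⟨Y, Subset.refl _, by omega, by rw [hY, hmN]⟩
    · have hne : Y.Nonempty := card_pos.mp (by omega)
      obtain ⟨b0, hb0, hmin⟩ := exists_min_image Y f hne
      have hc : (Y.erase b0).card = N := by rw [card_erase_of_mem hb0]; omega
      obtain ⟨B, hB, hBc, hBle⟩ := ih (Y.erase b0) hc (by omega)
      refine ⟨B, hB.trans (erase_subset _ _), hBc, ?_⟩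
      have hsum : ∑ a ∈ Y.erase b0, f a + f b0 = ∑ a ∈ Y, f a := sum_erase_add _ _ hb0
      have hlow : (Y.card:ℝ) * f b0 ≤ ∑ a ∈ Y, f a := by
        calc (Y.card:ℝ) * f b0 = ∑ a ∈ Y, f b0 := by rw [sum_const, nsmul_eq_mul]
          _ ≤ _ := sum_le_sum fun a ha => hmin a ha
      rw [hc] at hBle
      rw [hY] at hlow ⊢
      push_cast at hlow ⊢
      rcases Nat.eq_zero_or_pos N with hN0 | hNpos
      · have hm0 : m = 0 := by omega
        have hBe : B = ∅ := card_eq_zero.mp (by omega)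
        rw [hm0, hBe]; simp
      · have hNpos' : (0:ℝ) < N := by exact_mod_cast hNpos
        have h1 : (N:ℝ) * ∑ a ∈ Y, f a ≤ (N+1) * ∑ a ∈ Y.erase b0, f a := by
          have : ∑ a ∈ Y.erase b0, f a = ∑ a ∈ Y, f a - f b0 := by linarith
          rw [this]; linarith
        have hm0 : (0:ℝ) ≤ m := by positivity
        have h2 : (N:ℝ) * (m * ∑ a ∈ Y, f a) ≤ N * ((N+1) * ∑ a ∈ B, f a) := by
          calc (N:ℝ) * (m * ∑ a ∈ Y, f a) = m * (N * ∑ a ∈ Y, f a) := by ring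
            _ ≤ m * ((N+1) * ∑ a ∈ Y.erase b0, f a) := by gcongr
            _ = (N+1) * (m * ∑ a ∈ Y.erase b0, f a) := by ring
            _ ≤ (N+1) * (N * ∑ a ∈ B, f a) := by gcongr
            _ = _ := by ring
        exact le_of_mul_le_mul_left h2 hNpos'

variable {Ω : Type} [Fintype Ω] {ι : Type}

lemma potential [DecidableEq ι] (x : ι → Ω → ℝ) (e : ℕ) {X : Finset ι} (hX : X.Nonempty) :
    ∃ Y ⊆ X, Y.Nonempty ∧ (SS x e X)^2 * (Y.card:ℝ)^3 ≤ (SS x e Y)^2 * (X.card:ℝ)^3 ∧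
      ∀ H ⊆ Y, (ms x e H Y)^2 * (Y.card:ℝ) ≤ 8 * H.card * (SS x e Y)^2 := by
  classical
  obtain ⟨Y, hYm, hmax⟩ := exists_max_image (X.powerset.filter Finset.Nonempty)
    (fun Z => (SS x e Z)^2 / (Z.card:ℝ)^3) ⟨X, by simp [hX]⟩
  rw [mem_filter, mem_powerset] at hYm
  obtain ⟨hYX, hY⟩ := hYm
  have hYc : (0:ℝ) < Y.card := by exact_mod_cast hY.card_pos
  have hmax' : ∀ Z ⊆ X, Z.Nonempty → (SS x e Z)^2 * (Y.card:ℝ)^3 ≤ (SS x e Y)^2 * (Z.card:ℝ)^3 := by
    intro Z hZ hZn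
    have h1 := hmax Z (by rw [mem_filter, mem_powerset]; exact ⟨hZ, hZn⟩)
    have hZc : (0:ℝ) < Z.card := by exact_mod_cast hZn.card_pos
    rwa [div_le_div_iff₀ (by positivity) (by positivity)] at h1
  refine ⟨Y, hYX, hY, hmax' X (Subset.refl _) hX, ?_⟩
  intro H hH
  rcases H.eq_empty_or_nonempty with rfl | hHn
  · simp [ms]
  have hHc : (0:ℝ) < H.card := by exact_mod_cast hHn.card_pos
  obtain ⟨B, hBY, hBc, hB⟩ := top_subset (fun b => ∑ a ∈ H, gg x e a b) H.card Y.card Y rfl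
    (card_le_card hH)
  have e1 : ∑ b ∈ Y, ∑ a ∈ H, gg x e a b = ms x e H Y := by unfold ms; rw [sum_comm]
  rw [e1] at hB
  set Z := H ∪ B with hZ
  have hZX : Z ⊆ X := (union_subset hH hBY).trans hYX
  have hZn : Z.Nonempty := hHn.mono subset_union_left
  have hZc : (Z.card:ℝ) ≤ 2 * H.card := by
    have : Z.card ≤ H.card + B.card := card_union_le _ _
    rw [hBc] at this
    have h2 : ((Z.card : ℕ):ℝ) ≤ ((H.card + H.card : ℕ):ℝ) := by exact_mod_cast this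
    push_cast at h2
    linarith
  have hT : ∑ b ∈ B, ∑ a ∈ H, gg x e a b ≤ SS x e Z := by
    rw [sum_comm]
    unfold SS
    calc ∑ a ∈ H, ∑ b ∈ B, gg x e a b ≤ ∑ a ∈ H, ∑ b ∈ Z, gg x e a b :=
          sum_le_sum fun a _ => sum_le_sum_of_subset_of_nonneg subset_union_right
            fun b _ _ => gg_nonneg _ _ _ _
      _ ≤ _ := sum_le_sum_of_subset_of_nonneg subset_union_left
            fun a _ _ => sum_nonneg fun b _ => gg_nonneg _ _ _ _
  have hm := hmax' Z hZX hZn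
  have hms0 := ms_nonneg x e H Y
  have h1 : (H.card:ℝ) * ms x e H Y ≤ Y.card * SS x e Z :=
    hB.trans (mul_le_mul_of_nonneg_left hT hYc.le)
  have h2 : ((H.card:ℝ) * ms x e H Y)^2 ≤ (Y.card * SS x e Z)^2 :=
    pow_le_pow_left₀ (by positivity) h1 2
  have h3 : (H.card:ℝ)^2 * ((ms x e H Y)^2 * (Y.card:ℝ)) ≤ (H.card:ℝ)^2 * (8 * H.card * (SS x e Y)^2) := by
    calc (H.card:ℝ)^2 * ((ms x e H Y)^2 * (Y.card:ℝ)) = ((H.card:ℝ) * ms x e H Y)^2 * Y.card := by ring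
      _ ≤ (Y.card * SS x e Z)^2 * Y.card := by gcongr
      _ = (SS x e Z)^2 * (Y.card:ℝ)^3 := by ring
      _ ≤ (SS x e Y)^2 * (Z.card:ℝ)^3 := hm
      _ ≤ (SS x e Y)^2 * (2 * H.card)^3 := by gcongr
      _ = _ := by ring
  exact le_of_mul_le_mul_left h3 (by positivity)

/-- power mean bound for the large moment -/
lemma SS_ge {x : ι → Ω → ℝ} (hx : Signs x) {X : Finset ι} (hX : X.Nonempty) {κ : ℝ} (hκ : 0 < κ)
    (h : κ^2 * (X.card:ℝ)^2 ≤ ∑ a ∈ X, ∑ b ∈ X, phi x a b ^ 2) {e : ℕ} (he : Odd e) :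
    κ^(e+1) * (X.card:ℝ)^2 ≤ 2 * SS x e X := by
  have hXc : (0:ℝ) < X.card := by exact_mod_cast hX.card_pos
  refine le_trans ?_ (sum_abs_le x he X)
  obtain ⟨m, rfl⟩ := he
  have h1 := pow_sum_div_card_le_sum_pow (s := X ×ˢ X) (f := fun p => phi x p.1 p.2 ^ 2)
        (fun _ _ => sq_nonneg _) m
  rw [sum_product, sum_product, card_product] at h1
  push_cast at h1
  have h2 : κ^(2*m+1+1) * (X.card:ℝ)^2 ≤
      (∑ a ∈ X, ∑ b ∈ X, phi x a b ^ 2)^(m+1) / ((X.card:ℝ) * X.card)^m := by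
    rw [le_div_iff₀ (by positivity)]
    calc κ^(2*m+1+1) * (X.card:ℝ)^2 * ((X.card:ℝ) * X.card)^m = (κ^2 * (X.card:ℝ)^2)^(m+1) := by
          have e1 : 2*m+1+1 = 2*(m+1) := by ring
          rw [e1, pow_mul κ 2 (m+1), mul_pow (κ^2), ← pow_two (X.card:ℝ), mul_assoc, ← pow_succ']
      _ ≤ _ := pow_le_pow_left₀ (by positivity) h _
  refine (h2.trans h1).trans ?_
  apply sum_le_sum; intro a _
  apply sum_le_sum; intro b _
  have h3 := abs_phi_le hx a b
  have h4 := abs_nonneg (phi x a b)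
  calc (phi x a b ^ 2)^(m+1) = |phi x a b|^(2*m+1) * |phi x a b| := by
        rw [← sq_abs, ← pow_mul, ← pow_succ]; congr 1
    _ ≤ |phi x a b|^(2*m+1) * 1 := by gcongr
    _ = _ := mul_one _

end Pool.Agent.LibMP92436f
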