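import Pool.Agent.Lib_MP_92436f_lc.Growth3
import Pool.Agent.Lib_MP_92436f_lc.Potential

set_option autoImplicit false
set_option linter.unusedSectionVars false

namespace Pool.Agent.LibMP92436f

open Finset

lemma Tuple.mono {Ω ι : Type} [Fintype Ω] {k : ℕ} {x : ι → Ω → ℝ} {X Y : Finset ι} {v v' : ℝ}
    (h : Tuple k x Y v) (hYX : Y ⊆ X) (hv : v' ≤ v) : Tuple k x X v' := by
  obtain ⟨a, h1, h2, h3⟩ := h
  exact ⟨a, fun l hl => hYX (h1 l hl), h2, fun w hw => hv.trans (h3 w hw)⟩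

theorem select (k : ℕ) (hk : 2 ≤ k) : ∃ (C : ℝ) (K n0 : ℕ), 0 < C ∧
    ∀ (Ω ι : Type) [Fintype Ω] [Nonempty Ω] (x : ι → Ω → ℝ), Signs x →
      n0 ≤ Fintype.card Ω → ∀ ε : ℝ, 0 < ε → ε < 1 → ∀ X : Finset ι,
      C * (1/ε)^K ≤ X.card →
      Tuple k x X (ck k - 2 * ε + 2 ^ (2*k+2) / Fintype.card Ω) := by
  classical
  obtain ⟨A, hA1, hgrowth⟩ := growth k hk
  obtain ⟨m0, n0, N1, hnog⟩ := nogrowth k (by omega) hA1
  set L := 2*k+1 with hL
  set K0 := KK 0 1 L with hK0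
  have hK01 : 1 ≤ K0 := KK_ge 0 (by norm_num) _
  have hL1 : (1:ℝ) ≤ (L:ℝ) := by exact_mod_cast (by omega : 1 ≤ L)
  set Ct : ℝ := (L:ℝ)^2 * (2^L * K0) + 2^(L+1) with hCt
  have hCt1 : (L:ℝ)^2 * (2^L * K0) ≤ Ct := by
    have : (0:ℝ) ≤ 2^(L+1) := by positivity
    linarith
  have hCt2 : (2:ℝ)^(L+1) ≤ Ct := by
    have : 0 ≤ (L:ℝ)^2 * (2^L * K0) := by positivity
    linarith
  have h2L : (2:ℝ) ≤ 2^(L+1) := by
    calc (2:ℝ) = 2^1 := (pow_one _).symm
      _ ≤ 2^(L+1) := pow_le_pow_right₀ (by norm_num) (by omega)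
  have hCtpos : 0 < Ct := by linarith
  have hK0Ct : K0 < Ct := by
    have h1 : K0 ≤ (L:ℝ)^2 * (2^L * K0) := by
      have h2 : (1:ℝ) ≤ (L:ℝ)^2 := by nlinarith
      have h3 : (1:ℝ) ≤ 2^L := one_le_pow₀ (by norm_num)
      have h4 : K0 ≤ 2^L * K0 := by nlinarith
      have h5 : 2^L * K0 ≤ (L:ℝ)^2 * (2^L * K0) := by
        have : 0 ≤ 2^L * K0 := by positivity
        nlinarith
      linarith
    linarith
  set e := 2 * m0 + 9 with he'
  have he : Odd e := ⟨m0 + 4, by omega⟩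
  have he9 : 9 ≤ e := by omega
  refine ⟨(512 + 4 * N1 + 4) * Ct^(3*e+7), 3*e+7, n0, by positivity, ?_⟩
  intro Ω ι _ _ x hx hn ε hε0 hε1 X hX
  set κ := ε / Ct with hκ
  have hκ0 : 0 < κ := by positivity
  have hκε : κ * Ct = ε := by rw [hκ]; field_simp
  have hκ1 : κ ≤ 1 := by
    rw [hκ, div_le_one hCtpos]; linarith
  -- size of X
  have hXbig : 512 + 4 * N1 + 4 ≤ κ^(3*e+7) * (X.card:ℝ) := by
    have h1 : (512 + 4 * N1 + 4) * Ct^(3*e+7) * (1/ε)^(3*e+7) * κ^(3*e+7) = 512 + 4 * (N1:ℝ) + 4 := by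
      have h0 : Ct^(3*e+7) * (1/ε)^(3*e+7) * κ^(3*e+7) = 1 := by
        rw [← mul_pow, ← mul_pow]
        have : Ct * (1/ε) * κ = 1 := by rw [hκ]; field_simp
        rw [this, one_pow]
      calc (512 + 4 * (N1:ℝ) + 4) * Ct^(3*e+7) * (1/ε)^(3*e+7) * κ^(3*e+7)
          = (512 + 4 * (N1:ℝ) + 4) * (Ct^(3*e+7) * (1/ε)^(3*e+7) * κ^(3*e+7)) := by ring
        _ = _ := by rw [h0, mul_one]
    calc 512 + 4 * (N1:ℝ) + 4 = (512 + 4 * N1 + 4) * Ct^(3*e+7) * (1/ε)^(3*e+7) * κ^(3*e+7) := h1.symm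
      _ ≤ X.card * κ^(3*e+7) := by gcongr
      _ = _ := by ring
  have hXpos : (0:ℝ) < X.card := by
    by_contra hcon
    have h1 : (X.card:ℝ) = 0 := le_antisymm (not_lt.mp hcon) (by positivity)
    rw [h1, mul_zero] at hXbig
    have : (0:ℝ) ≤ N1 := by positivity
    linarith
  have hXn : X.Nonempty := card_pos.mp (by exact_mod_cast hXpos)
  set n : ℝ := (Fintype.card Ω : ℝ) with hn'
  have hnpos : 0 < n := by rw [hn']; exact_mod_cast Fintype.card_pos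
  have hN10 : (0:ℝ) ≤ N1 := by positivity
  by_cases htiny : ∑ a ∈ X, ∑ b ∈ X, phi x a b ^ 2 ≤ κ^2 * (X.card:ℝ)^2
  · -- tiny correlations
    obtain ⟨y0, _⟩ := hXn
    have hinv0 : Inv x X κ ∅ 0 1 (fun _ => y0) := by
      constructor
      · intro S hS ho
        have : S = ∅ := by simpa using hS
        rw [this] at ho
        simp at ho
      · intro S hS _ hne
        exact absurd (by simpa using hS) hne
    obtain ⟨a, ha, _, haX⟩ := EL_iter hx ⟨y0, by assumption⟩ hκ0.le htiny zero_le_one hinv0 L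
    rw [zero_add] at ha haX
    have hKκ : K0 * κ < 1 := by
      calc K0 * κ < Ct * κ := by gcongr
        _ = ε := by rw [mul_comm]; exact hκε
        _ < 1 := hε1
    refine ⟨a, fun l hl => haX l (Nat.zero_le _) hl, fun i j hij hj =>
      distinct_of_inv hx ha hKκ hij hj (notMem_empty _), ?_⟩
    intro w hw
    have hf := FL0 (L := L) (y := fun l => x (a l)) (E1 := 2^L * (K0 * κ)) (fun l _ => hw.1 l) hw.2.2
      (fun l _ j => hx _ _) (by positivity)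
      (fun t ht i hi => cond_of_inv hκ0.le (by linarith) ha hi ht (fun S _ _ => notMem_empty _))
    have h1 : (L:ℝ)^2 * (2^L * (K0 * κ)) ≤ ε := by
      calc (L:ℝ)^2 * (2^L * (K0 * κ)) = ((L:ℝ)^2 * (2^L * K0)) * κ := by ring
        _ ≤ Ct * κ := by gcongr
        _ = ε := by rw [mul_comm]; exact hκε
    have h2 : (2:ℝ)^(2*k+2) / n ≤ ε := by
      have h3 : 1 / n ≤ κ^2 := by
        have h4 := sum_phi_sq_ge hx X
        have h5 : 1 * (X.card:ℝ)^2 ≤ (n * κ^2) * (X.card:ℝ)^2 := by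
          calc 1 * (X.card:ℝ)^2 ≤ n * ∑ a ∈ X, ∑ b ∈ X, phi x a b ^ 2 := by rw [one_mul]; exact h4
            _ ≤ n * (κ^2 * (X.card:ℝ)^2) := by gcongr
            _ = _ := by ring
        have h6 := le_of_mul_le_mul_right h5 (by positivity)
        rw [div_le_iff₀ hnpos]; linarith
      have h7 : κ^2 ≤ κ := by nlinarith
      calc (2:ℝ)^(2*k+2) / n = 2^(L+1) * (1/n) := by rw [hL]; ring
        _ ≤ Ct * κ := by
          apply mul_le_mul hCt2 (h3.trans h7) (by positivity) hCtpos.le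
        _ = ε := by rw [mul_comm]; exact hκε
    have h3 : ck k ≤ av L (Fw L w) := ck_le_av hw.2.2
    linarith
  · push Not at htiny
    have hSX := SS_ge hx hXn hκ0 htiny.le he
    obtain ⟨Y, hYX, hY, hmaxXY, hP⟩ := potential x e hXn
    have hYc : (0:ℝ) < Y.card := by exact_mod_cast hY.card_pos
    have hYleX : (Y.card:ℝ) ≤ X.card := by exact_mod_cast card_le_card hYX
    have hSYn : 0 ≤ SS x e Y := sum_nonneg fun _ _ => sum_nonneg fun _ _ => gg_nonneg _ _ _ _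
    have hSXn : 0 ≤ SS x e X := sum_nonneg fun _ _ => sum_nonneg fun _ _ => gg_nonneg _ _ _ _
    -- first consequence
    have h1 : (κ^(e+1))^2 * X.card * (Y.card:ℝ)^3 ≤ 4 * (SS x e Y)^2 := by
      have h2 : (κ^(e+1) * (X.card:ℝ)^2)^2 ≤ (2 * SS x e X)^2 := pow_le_pow_left₀ (by positivity) hSX 2
      have h3 : ((κ^(e+1))^2 * X.card * (Y.card:ℝ)^3) * (X.card:ℝ)^3 ≤
          (4 * (SS x e Y)^2) * (X.card:ℝ)^3 := by
        calc ((κ^(e+1))^2 * X.card * (Y.card:ℝ)^3) * (X.card:ℝ)^3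
            = (κ^(e+1) * (X.card:ℝ)^2)^2 * (Y.card:ℝ)^3 := by ring
          _ ≤ (2 * SS x e X)^2 * (Y.card:ℝ)^3 := by gcongr
          _ = 4 * ((SS x e X)^2 * (Y.card:ℝ)^3) := by ring
          _ ≤ 4 * ((SS x e Y)^2 * (X.card:ℝ)^3) := by gcongr
          _ = _ := by ring
      exact le_of_mul_le_mul_right h3 (by positivity)
    have hSκ : κ^(e+1) * (Y.card:ℝ)^2 ≤ 2 * SS x e Y := by
      have h2 : (κ^(e+1) * (Y.card:ℝ)^2)^2 ≤ (2 * SS x e Y)^2 := by
        calc (κ^(e+1) * (Y.card:ℝ)^2)^2 = (κ^(e+1))^2 * Y.card * (Y.card:ℝ)^3 := by ring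
          _ ≤ (κ^(e+1))^2 * X.card * (Y.card:ℝ)^3 := by gcongr
          _ ≤ 4 * (SS x e Y)^2 := h1
          _ = _ := by ring
      exact le_of_sq_le_sq h2 (by positivity)
    have hYbig : (κ^(e+1))^2 * X.card ≤ 4 * Y.card := by
      have h2 : SS x e Y ≤ (Y.card:ℝ)^2 := by
        have : SS x e Y ≤ ∑ _a ∈ Y, ∑ _b ∈ Y, (1:ℝ) :=
          sum_le_sum fun a _ => sum_le_sum fun b _ => gg_le_one hx e a b
        refine this.trans (le_of_eq ?_)
        simp; ring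
      have h3 : ((κ^(e+1))^2 * X.card) * (Y.card:ℝ)^3 ≤ (4 * Y.card) * (Y.card:ℝ)^3 := by
        calc ((κ^(e+1))^2 * X.card) * (Y.card:ℝ)^3 ≤ 4 * (SS x e Y)^2 := h1
          _ ≤ 4 * ((Y.card:ℝ)^2)^2 := by gcongr
          _ = _ := by ring
      exact le_of_mul_le_mul_right h3 (by positivity)
    have hYκ : 128 ≤ κ^(e+5) * Y.card := by
      have h2 : κ^(3*e+7) = κ^(e+5) * (κ^(e+1))^2 := by
        rw [← pow_mul, ← pow_add]; congr 1; ring
      have h3 : 512 ≤ κ^(e+5) * (4 * Y.card) := by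
        calc (512:ℝ) ≤ κ^(3*e+7) * X.card := by linarith
          _ = κ^(e+5) * ((κ^(e+1))^2 * X.card) := by rw [h2]; ring
          _ ≤ κ^(e+5) * (4 * Y.card) := by gcongr
      linarith
    have hYN1 : N1 ≤ Y.card := by
      have h2 : κ^(3*e+7) ≤ (κ^(e+1))^2 := by
        rw [← pow_mul]
        exact pow_le_pow_of_le_one hκ0.le hκ1 (by omega)
      have h3 : 4 * (N1:ℝ) ≤ 4 * Y.card := by
        calc 4 * (N1:ℝ) ≤ κ^(3*e+7) * X.card := by linarith
          _ ≤ (κ^(e+1))^2 * X.card := by gcongr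
          _ ≤ _ := hYbig
      have h4 : (N1:ℝ) ≤ Y.card := by linarith
      exact_mod_cast h4
    -- second moment of Y
    set Q := ∑ a ∈ Y, ∑ b ∈ Y, phi x a b ^ 2 with hQ
    have hQpos : 0 < Q := by
      have h2 := sum_phi_sq_ge hx Y
      rw [← hQ] at h2
      have h3 : 0 < n * Q := lt_of_lt_of_le (by positivity) h2
      exact (mul_pos_iff_of_pos_left hnpos).mp h3
    set D := Real.sqrt Q / Y.card with hD
    have hDpos : 0 < D := div_pos (Real.sqrt_pos.mpr hQpos) hYc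
    have hQD : Q = D^2 * (Y.card:ℝ)^2 := by
      rw [hD, div_pow, Real.sq_sqrt hQpos.le]; field_simp
    have hfin : Tuple k x Y (ck k + 2 ^ (2*k+2) / n) := by
      by_cases hg : (A * D) ^ e * (Y.card:ℝ)^2 ≤ ∑ a ∈ Y, ∑ b ∈ Y, |phi x a b| ^ e
      · exact hgrowth Ω ι x hx Y hY D hDpos hQD e he he9 κ hκ0 hκ1 hSκ hYκ hP hg
      · exact hnog Ω ι x hx hn Y hYN1 hY D hDpos hQD e (by omega) (not_le.mp hg).le
    exact hfin.mono hYX (by linarith)

end Pool.Agent.LibMP92436f
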